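import Pool.Agent.H21.MT.Gw
import Mathlib.NumberTheory.Primorial

/-!
# [H92 MM DEF] MP_8923e7_nt, project ChenTuples: the model laws (definitions)

Text: `/team-store/h92_measure.md`.  `K` shifts `h j` (`j : ι`, `K = card ι`), `W` = primorial of `w`, residue `b`
with `b + h j` coprime to `W`.  Base measure: `N ≡ b (W)`, `√x < N ≤ x^(1+1/2000)`, all `N + h j` without prime
factor `< x^a`, weight `gw x N`, normalised by `nm`.  Ranges `i < L`: primes `x^(a 2^i) ≤ p < x^(a 2^(i+1))`.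

`App … Φ E`: all small monomials `M_A` (level `≤ η`) satisfy `|Av(M_A Φ) - sv(A) E| ≤ ϖ`.
The three laws that are needed:
* (L1) `OneLaw η Θ`;
* (L2) `PrimeLaw η Θ`;
* (L3) `PairLaw η Θ a0 F EF` for the weight `F = w` (`P_2` weight, primes `≥ x^a0`) and for `F = G` (Selberg square).
-/

namespace Pool.Agent.H92.MM

open Finset Filter Pool.Agent.H21.MT

/-- the primes `p` with `x^α ≤ p < x^β` -/
noncomputable def rg (x α β : ℝ) : Finset ℕ :=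
  (range ⌈x ^ β⌉₊).filter (fun p => p.Prime ∧ x ^ α ≤ (p : ℝ))

/-- number of primes of range `i` dividing `n` -/
noncomputable def mc (x a : ℝ) (i n : ℕ) : ℕ :=
  ((rg x (a * 2 ^ i) (a * 2 ^ (i + 1))).filter (· ∣ n)).card

section

variable {ι : Type} [Fintype ι]

/-- small monomial -/
noncomputable def sm (x a : ℝ) (L : ℕ) (h : ι → ℕ) (A : ι → Fin L → ℕ) (N : ℕ) : ℝ :=
  ∏ j, ∏ i : Fin L, ((mc x a i (N + h j)).choose (A j i) : ℝ)

/-- its mean in the model -/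
noncomputable def sv (L : ℕ) (A : ι → Fin L → ℕ) : ℝ :=
  ∏ j, ∏ i : Fin L, (Real.log 2 ^ (A j i) / ((A j i).factorial : ℝ))

/-- its level -/
noncomputable def sl (a : ℝ) (L : ℕ) (A : ι → Fin L → ℕ) : ℝ :=
  ∑ j, ∑ i : Fin L, (A j i : ℝ) * (a * 2 ^ ((i : ℕ) + 1))

/-- the window of `N` -/
noncomputable def Tx (x : ℝ) : Finset ℕ := Ioc ⌊Real.sqrt x⌋₊ ⌊x ^ (1 + 1 / 2000 : ℝ)⌋₊

/-- the class and the presieve -/
def Adm (x a : ℝ) (h : ι → ℕ) (W b N : ℕ) : Prop :=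
  N % W = b % W ∧ ∀ j, ∀ p : ℕ, p.Prime → p ∣ N + h j → x ^ a ≤ (p : ℝ)

/-- total mass -/
noncomputable def mass (x : ℝ) : ℝ := ∑ N ∈ Tx x, gw x N

/-- normalisation -/
noncomputable def nm (x a : ℝ) (W K : ℕ) : ℝ :=
  mass x / W * ∏ p ∈ (range ⌈x ^ a⌉₊).filter (fun p => p.Prime ∧ ¬ p ∣ W), (1 - (K : ℝ) / p)

open Classical in
/-- normalised average -/
noncomputable def Av (x a : ℝ) (h : ι → ℕ) (W b : ℕ) (Φ : ℕ → ℝ) : ℝ :=
  (∑ N ∈ (Tx x).filter (fun N => Adm x a h W b N), gw x N * Φ N) / nm x a W (Fintype.card ι)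

/-- all small monomials of level `≤ η` see `Φ` as independent of mean `E`, up to `ϖ` -/
def App (x a : ℝ) (L : ℕ) (h : ι → ℕ) (W b : ℕ) (η ϖ : ℝ) (Φ : ℕ → ℝ) (E : ℝ) : Prop :=
  ∀ A : ι → Fin L → ℕ, sl a L A ≤ η →
    |Av x a h W b (fun N => sm x a L h A N * Φ N) - sv L A * E| ≤ ϖ

/-- density of the primes -/
noncomputable def pr (x a : ℝ) : ℝ :=
  1 / (Real.log x * ∏ p ∈ (range ⌈x ^ a⌉₊).filter Nat.Prime, (1 - 1 / (p : ℝ)))

end

/-- the common quantifiers of the laws: dimension `K`, presieve exponent `a` with `K a ≤ c0`, then `w`, then `x` -/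
def Law (c0 : ℝ) (P : ∀ (ι : Type) [Fintype ι] [DecidableEq ι], ℝ → ℝ → ℕ → (ι → ℕ) → ℕ → ℕ → Prop) :
    Prop :=
  ∀ (ι : Type) [Fintype ι] [DecidableEq ι] [Nonempty ι] (a : ℝ) (L : ℕ), 0 < a →
    a * 2 ^ L ≤ 1 / 20 → (Fintype.card ι : ℝ) * a ≤ c0 →
    ∀ h : ι → ℕ, Function.Injective h → ∃ w0 : ℕ, ∀ w : ℕ, w0 ≤ w →
      ∀ b : ℕ, (∀ j, Nat.Coprime (b + h j) (primorial w)) →
        ∀ᶠ x : ℝ in atTop, P ι x a L h (primorial w) b

/-- (L1) -/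
def OneLaw (η Θ : ℝ) : Prop := ∃ c0 : ℝ, 0 < c0 ∧
  Law c0 (fun _ _ _ x a L h W b => App x a L h W b η (Real.exp (-(Θ / a))) (fun _ => 1) 1)

open Classical in
/-- (L2) -/
def PrimeLaw (η Θ : ℝ) : Prop := ∃ c0 : ℝ, 0 < c0 ∧
  Law c0 (fun ι _ _ x a L h W b => ∀ j0 : ι, ∀ A : ι → Fin L → ℕ, (∀ i, A j0 i = 0) →
    sl a L A ≤ η → |Av x a h W b (fun N => sm x a L h A N * (if (N + h j0).Prime then 1 else 0)) -
      sv L A * pr x a| ≤ Real.exp (-(Θ / a)))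

/-- (L3) for a function `F x n` with mean `EF x`, built from primes `≥ x^a0`; here `a = a0 / 2^L` -/
def PairLaw (η Θ a0 : ℝ) (F : ℝ → ℕ → ℝ) (EF : ℝ → ℝ) : Prop := ∃ c0 : ℝ, 0 < c0 ∧
  Law c0 (fun ι _ _ x a L h W b => a * 2 ^ L = a0 →
    (∀ j : ι, App x a L h W b η (Real.exp (-(Θ / a))) (fun N => F x (N + h j)) (EF x)) ∧
    (∀ j j' : ι, j ≠ j' → App x a L h W b η (Real.exp (-(Θ / a)))
      (fun N => F x (N + h j) * F x (N + h j')) (EF x ^ 2)))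

end Pool.Agent.H92.MM
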