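import Pool.Agent.H92.MM.Fd

/-!
# [H92 MM PA] Choice of `a0`, `j0`, `Δ`

Proof.  Parametrise by `j0 → ∞`: `a0 = η/(16 (j0 + 3))`, so `a0 (4 j0 + 10) ≤ 4 a0 (j0+3) = η/4` and `a0 ≤ η/48`.
`Δ = min (1/100) (ε (c2 a0)^2/(100 (2 exp(3/a0))^2))`.  For all `L`: `∑_i tau (2 (j0 + L - i)) ≤ ∑_{d ≥ 1} 18 * 128 *
6^(2(j0+d)+1)/(2(j0+d)+1)! ≤ 2304 ∑_{r ≥ 2 j0+3} 6^r/r! ≤ 2304 e^6 6^M/M!`, `M = 2 j0 + 3` (`tl_le`: `6^(M+r)/(M+r)! ≤ 6^M/M! * 6^r/r!`), and
`∏ (1 + tau) ≤ exp(∑ tau) ≤ 1 + 2 ∑ tau` if `∑ tau ≤ 1` (`Real.add_one_le_exp`, `Real.exp_bound`..).  So it suffices that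
`2 * 2304 * e^6 * 6^M/M! ≤ Δ` for `j0` large: `1/a0 = 16 (j0+3)/η ≤ 8 (M+3)/η`, so `1/Δ ≤ 100 + 400 exp(6/a0)/(ε c2^2 a0^2) ≤
C' R^M` for suitable `C', R` depending on `η, ε, c2` (`1/a0^2 ≤ exp(2/a0)`), and `(6R)^M/M! → 0`
(`FloorSemiring.tendsto_pow_div_factorial_atTop`).
-/

namespace Pool.Agent.H92.MM

open Finset Filter

private theorem tau_pos (c : ℕ) : 0 < tau c := by
  unfold tau
  have := tl_pos c
  linarith

/-- `tau` decays by a factor two over two steps -/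
private theorem tau_half {c : ℕ} (hc : 8 ≤ c) : tau (c + 2) ≤ tau c / 2 := by
  unfold tau tl
  have h1 : ((c + 2 + 1).factorial : ℝ) = (c + 3) * ((c + 2) * ((c + 1).factorial : ℝ)) := by
    rw [show c + 2 + 1 = (c + 2) + 1 from rfl, Nat.factorial_succ (c + 2),
      Nat.factorial_succ (c + 1)]
    push_cast
    ring
  have hf : (0 : ℝ) < ((c + 1).factorial : ℝ) := by positivity
  have hc' : (8 : ℝ) ≤ c := by exact_mod_cast hc
  rw [h1]
  have h2 : (6 : ℝ) ^ (c + 2 + 1) = 36 * 6 ^ (c + 1) := by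
    rw [show c + 2 + 1 = (c + 1) + 2 from rfl, pow_add]
    norm_num
    ring
  rw [h2]
  have h6 : (0 : ℝ) < 6 ^ (c + 1) := by positivity
  rw [div_eq_mul_inv, div_eq_mul_inv]
  have h3 : (((c : ℝ) + 3) * ((c + 2) * ((c + 1).factorial : ℝ)))⁻¹ ≤
      (72 : ℝ)⁻¹ * (((c + 1).factorial : ℝ))⁻¹ := by
    rw [← mul_inv]
    apply inv_anti₀ (by positivity)
    rw [← mul_assoc]
    apply mul_le_mul_of_nonneg_right _ hf.le
    nlinarith
  calc (18 : ℝ) * (128 * (36 * 6 ^ (c + 1)) * (((c : ℝ) + 3) * ((c + 2) * ((c + 1).factorial : ℝ)))⁻¹)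
      ≤ 18 * (128 * (36 * 6 ^ (c + 1)) * ((72 : ℝ)⁻¹ * (((c + 1).factorial : ℝ))⁻¹)) := by
        gcongr
    _ = 18 * (128 * 6 ^ (c + 1) * (((c + 1).factorial : ℝ))⁻¹) / 2 := by ring

/-- the product as a product over `d` -/
private theorem prod_bd (j0 : ℕ) (hj : 4 ≤ j0) (L : ℕ) :
    ∏ i : Fin L, (1 + tau (2 * (j0 + L - i))) ≤
      Real.exp (2 * tau (2 * (j0 + 1)) - 2 * tau (2 * (j0 + L + 1))) := by
  induction L with
  | zero => simp
  | succ L ih =>
    rw [Fin.prod_univ_succ]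
    have h1 : ∀ i : Fin L, 1 + tau (2 * (j0 + (L + 1) - (i.succ : ℕ))) =
        1 + tau (2 * (j0 + L - i)) := by
      intro i
      rw [Fin.val_succ]
      have h2 : j0 + (L + 1) - ((i : ℕ) + 1) = j0 + L - i := by omega
      rw [h2]
    rw [Finset.prod_congr rfl fun i _ => h1 i]
    have h3 : ((0 : Fin (L + 1)) : ℕ) = 0 := rfl
    rw [h3, Nat.sub_zero]
    have h4 : 1 + tau (2 * (j0 + (L + 1))) ≤ Real.exp (tau (2 * (j0 + (L + 1)))) := by
      have := Real.add_one_le_exp (tau (2 * (j0 + (L + 1))))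
      linarith
    have h5 : 0 ≤ 1 + tau (2 * (j0 + (L + 1))) := by
      have := tau_pos (2 * (j0 + (L + 1)))
      linarith
    refine (mul_le_mul h4 ih (prod_nonneg fun i _ => ?_) (Real.exp_pos _).le).trans ?_
    · have := tau_pos (2 * (j0 + L - i))
      linarith
    · rw [← Real.exp_add]
      apply Real.exp_le_exp.2
      have h6 : tau (2 * (j0 + (L + 1) + 1)) ≤ tau (2 * (j0 + (L + 1))) / 2 := by
        have h7 : 2 * (j0 + (L + 1) + 1) = 2 * (j0 + (L + 1)) + 2 := by ring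
        rw [h7]
        exact tau_half (by omega)
      have h8 : j0 + L + 1 = j0 + (L + 1) := by ring
      rw [h8]
      linarith

theorem pa (η c2 ε : ℝ) (hη : 0 < η) (hη1 : η ≤ 1) (hc2 : 0 < c2) (hc21 : c2 ≤ 1) (hε : 0 < ε)
    (hε1 : ε ≤ 1 / 100) : ∃ (a0 Δ : ℝ) (j0 : ℕ), 0 < a0 ∧ a0 ≤ 1 / 20 ∧ a0 ≤ η / 16 ∧ 0 < Δ ∧
      Δ ≤ 1 / 100 ∧ 100 * (2 * Real.exp (3 / a0)) ^ 2 * Δ ≤ ε * (c2 * a0) ^ 2 ∧
      a0 * (4 * j0 + 10) ≤ η / 4 ∧
      ∀ L : ℕ, ∏ i : Fin L, (1 + tau (2 * (j0 + L - i))) ≤ 1 + Δ := by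
  obtain ⟨R, hR⟩ : ∃ R : ℝ, R = 6 * Real.exp (64 / η) := ⟨_, rfl⟩
  obtain ⟨C, hC⟩ : ∃ C : ℝ, C = 4 * 2304 * 400 / (ε * c2 ^ 2) * Real.exp (192 / η) := ⟨_, rfl⟩
  have hC0 : 0 < C := by
    rw [hC]
    positivity
  have h1 : Tendsto (fun n : ℕ => R ^ n / (n.factorial : ℝ)) atTop (nhds 0) :=
    FloorSemiring.tendsto_pow_div_factorial_atTop R
  have h2 : Tendsto (fun j : ℕ => 2 * j + 3) atTop atTop :=
    tendsto_atTop_mono (fun j => by simp only [id]; omega) tendsto_id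
  have h3 : ∀ᶠ j : ℕ in atTop, R ^ (2 * j + 3) / ((2 * j + 3).factorial : ℝ) < 1 / C :=
    (h1.comp h2).eventually (gt_mem_nhds (by positivity))
  obtain ⟨j0, hj1, hj4⟩ := (h3.and (eventually_ge_atTop 4)).exists
  obtain ⟨a0, ha0⟩ : ∃ a0 : ℝ, a0 = η / (16 * (j0 + 3)) := ⟨_, rfl⟩
  have hj0 : (0 : ℝ) ≤ j0 := Nat.cast_nonneg j0
  have ha0p : 0 < a0 := by
    rw [ha0]
    positivity
  have ha48 : a0 ≤ η / 48 := by
    rw [ha0]
    apply div_le_div_of_nonneg_left hη.le (by norm_num)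
    linarith
  have hae : a0 * (16 * (j0 + 3)) = η := by
    rw [ha0]
    field_simp
  obtain ⟨Δ, hΔ⟩ : ∃ Δ : ℝ, Δ = ε * (c2 * a0) ^ 2 / (100 * (2 * Real.exp (3 / a0)) ^ 2) := ⟨_, rfl⟩
  have hΔp : 0 < Δ := by
    rw [hΔ]
    positivity
  have hexp1 : 1 ≤ Real.exp (3 / a0) := Real.one_le_exp (by positivity)
  have hΔ1 : Δ ≤ 1 / 100 := by
    rw [hΔ, div_le_div_iff₀ (by positivity) (by norm_num)]
    have h4 : (c2 * a0) ^ 2 ≤ 1 := by
      have h5 : c2 * a0 ≤ 1 := by nlinarith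
      have h6 : 0 ≤ c2 * a0 := by positivity
      nlinarith
    have h7 : 1 ≤ (2 * Real.exp (3 / a0)) ^ 2 := by nlinarith
    nlinarith
  refine ⟨a0, Δ, j0, ha0p, by linarith, by linarith, hΔp, hΔ1, ?_, ?_, ?_⟩
  · rw [hΔ, mul_div_cancel₀]
    positivity
  · nlinarith
  · intro L
    refine (prod_bd j0 hj4 L).trans ?_
    obtain ⟨t, ht⟩ : ∃ t, t = tau (2 * (j0 + 1)) := ⟨_, rfl⟩
    have ht0 : 0 < t := by
      rw [ht]
      exact tau_pos _
    -- the key estimate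
    have key : 4 * t ≤ Δ := by
      have h4 : t = 2304 * (6 ^ (2 * j0 + 3) / ((2 * j0 + 3).factorial : ℝ)) := by
        rw [ht]
        unfold tau tl
        rw [show 2 * (j0 + 1) + 1 = 2 * j0 + 3 by ring]
        ring
      have h5 : R ^ (2 * j0 + 3) = 6 ^ (2 * j0 + 3) * Real.exp (64 / η * (2 * j0 + 3)) := by
        rw [hR, mul_pow, ← Real.exp_nat_mul]
        congr 2
        push_cast
        ring
      have h6 : 8 / a0 = 64 / η * (2 * j0 + 3) + 192 / η := by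
        rw [ha0]
        field_simp
        ring
      have h7 : 1 / a0 ^ 2 ≤ Real.exp (2 / a0) := by
        have h8 : 1 / a0 ≤ Real.exp (1 / a0) := by
          have := Real.add_one_le_exp (1 / a0)
          linarith
        have h9 : Real.exp (2 / a0) = Real.exp (1 / a0) ^ 2 := by
          rw [← Real.exp_nat_mul]
          congr 1
          push_cast
          ring
        rw [h9]
        have h10 : 1 / a0 ^ 2 = (1 / a0) ^ 2 := by ring
        rw [h10]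
        exact pow_le_pow_left₀ (by positivity) h8 2
      -- `1/Δ`
      have h11 : 1 / Δ ≤ 400 / (ε * c2 ^ 2) * Real.exp (8 / a0) := by
        have h12 : 1 / Δ = 400 / (ε * c2 ^ 2) * (Real.exp (3 / a0) ^ 2 * (1 / a0 ^ 2)) := by
          rw [hΔ]
          field_simp
          norm_num
        rw [h12]
        apply mul_le_mul_of_nonneg_left _ (by positivity)
        have h13 : Real.exp (3 / a0) ^ 2 = Real.exp (6 / a0) := by
          rw [← Real.exp_nat_mul]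
          congr 1
          push_cast
          ring
        rw [h13]
        calc Real.exp (6 / a0) * (1 / a0 ^ 2) ≤ Real.exp (6 / a0) * Real.exp (2 / a0) :=
              mul_le_mul_of_nonneg_left h7 (Real.exp_pos _).le
          _ = Real.exp (8 / a0) := by
              rw [← Real.exp_add]
              congr 1
              ring
      have h14 : 4 * t * (1 / Δ) ≤ C * (R ^ (2 * j0 + 3) / ((2 * j0 + 3).factorial : ℝ)) := by
        calc 4 * t * (1 / Δ) ≤ 4 * t * (400 / (ε * c2 ^ 2) * Real.exp (8 / a0)) :=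
              mul_le_mul_of_nonneg_left h11 (by positivity)
          _ = C * (R ^ (2 * j0 + 3) / ((2 * j0 + 3).factorial : ℝ)) := by
              rw [h4, hC, h5, h6, Real.exp_add]
              ring
      have h15 : C * (R ^ (2 * j0 + 3) / ((2 * j0 + 3).factorial : ℝ)) < 1 := by
        have := mul_lt_mul_of_pos_left hj1 hC0
        rwa [mul_one_div_cancel hC0.ne'] at this
      have h16 : 4 * t * (1 / Δ) < 1 := h14.trans_lt h15
      rw [mul_one_div, div_lt_one hΔp] at h16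
      exact h16.le
    have h17 : Real.exp (2 * tau (2 * (j0 + 1)) - 2 * tau (2 * (j0 + L + 1))) ≤ Real.exp (2 * t) := by
      apply Real.exp_le_exp.2
      have := tau_pos (2 * (j0 + L + 1))
      rw [← ht]
      linarith
    refine h17.trans ?_
    have h18 := Real.abs_exp_sub_one_sub_id_le (x := 2 * t) (by
      rw [abs_of_pos (by positivity)]
      linarith)
    have h19 := (abs_le.1 h18).2
    nlinarith

end Pool.Agent.H92.MM
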