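import Pool.Agent.H92.MM.Def

/-!
# [H92 MM JS] The main sums over index functions

`JJ ι l B`: functions `J : ι → {0, .., l}` with `∑ cost (J j) ≤ B`.
* `js_ub`: drop the restriction after taking absolute values; `∑_J ∑_J' ∏_j |c j (J j) (J' j)| = ∏_j ∑_y ∑_y' |c j y y'|`
  (`Finset.prod_univ_sum` twice, or once over pairs).
* `js_lb`: all terms are `≥ 0`.  If `∏_j c j (J j) (J' j) ≠ 0` then `J j = J' j` for `j ≠ j1`, and then
  `1[J ∈ JJ] 1[J' ∈ JJ] ≥ 1 - ∑_{j2 ≠ j1} cost (J j2)/(B - 2^l)`: if `∑_{j2 ≠ j1} cost (J j2) ≤ B - 2^l` both indicators are `1`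
  (`cost (J j1) ≤ 2^l`), otherwise the right side is `< 0`.  Sum over all pairs `(J, J')` of functions to `range (l+1)`:
  `∑_J ∑_J' ∏_j c j (J j) (J' j) cost (J j2) = (∑_y ∑_y' cost y c j2 y y') ∏_{j ≠ j2} ∑_y ∑_y' c j y y'`.
-/

namespace Pool.Agent.H92.MM

open Finset

/-- cost of the index `y` -/
noncomputable def cost (y : ℕ) : ℝ := if y = 0 then 0 else 2 ^ y

open Classical in
/-- admissible index functions -/
noncomputable def JJ (ι : Type) [Fintype ι] (l : ℕ) (B : ℝ) : Finset (ι → ℕ) :=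
  (Fintype.piFinset (fun _ : ι => range (l + 1))).filter (fun J => ∑ j, cost (J j) ≤ B)

/-- full sum of a kernel -/
noncomputable def ks (l : ℕ) (c : ℕ → ℕ → ℝ) : ℝ :=
  ∑ y ∈ range (l + 1), ∑ y' ∈ range (l + 1), c y y'

theorem mem_JJ {ι : Type} [Fintype ι] {l : ℕ} {B : ℝ} {J : ι → ℕ} :
    J ∈ JJ ι l B ↔ (∀ j, J j ≤ l) ∧ ∑ j, cost (J j) ≤ B := by
  classical
  unfold JJ
  rw [mem_filter, Fintype.mem_piFinset]
  simp only [mem_range, Nat.lt_succ_iff]

theorem card_JJ_le (ι : Type) [Fintype ι] (l : ℕ) (B : ℝ) :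
    (JJ ι l B).card ≤ (l + 1) ^ Fintype.card ι := by
  classical
  have hsub : JJ ι l B ⊆ Fintype.piFinset (fun _ : ι => range (l + 1)) := by
    intro J hJ
    rw [mem_JJ] at hJ
    rw [Fintype.mem_piFinset]
    exact fun j => mem_range.2 (Nat.lt_succ_iff.2 (hJ.1 j))
  refine (card_le_card hsub).trans ?_
  rw [Fintype.card_piFinset, prod_const, card_range, card_univ]

private theorem js_prod {ι : Type} [Fintype ι] [DecidableEq ι] (l : ℕ) (c : ι → ℕ → ℕ → ℝ) :
    ∏ j, ks l (c j) = ∑ J ∈ Fintype.piFinset (fun _ : ι => range (l + 1)),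
      ∑ J' ∈ Fintype.piFinset (fun _ : ι => range (l + 1)), ∏ j, c j (J j) (J' j) := by
  unfold ks
  rw [prod_univ_sum]
  refine sum_congr rfl fun J _ => ?_
  rw [prod_univ_sum]

theorem js_ub {ι : Type} [Fintype ι] [DecidableEq ι] (l : ℕ) (B : ℝ) (c : ι → ℕ → ℕ → ℝ) :
    |∑ J ∈ JJ ι l B, ∑ J' ∈ JJ ι l B, ∏ j, c j (J j) (J' j)| ≤
      ∏ j, ks l (fun y y' => |c j y y'|) := by
  have hsub : JJ ι l B ⊆ Fintype.piFinset (fun _ : ι => range (l + 1)) := by
    intro J hJ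
    rw [mem_JJ] at hJ
    rw [Fintype.mem_piFinset]
    exact fun j => mem_range.2 (Nat.lt_succ_iff.2 (hJ.1 j))
  have hn : ∀ J J' : ι → ℕ, 0 ≤ ∏ j, |c j (J j) (J' j)| :=
    fun J J' => prod_nonneg fun j _ => abs_nonneg _
  calc |∑ J ∈ JJ ι l B, ∑ J' ∈ JJ ι l B, ∏ j, c j (J j) (J' j)| ≤
      ∑ J ∈ JJ ι l B, |∑ J' ∈ JJ ι l B, ∏ j, c j (J j) (J' j)| := abs_sum_le_sum_abs _ _
    _ ≤ ∑ J ∈ JJ ι l B, ∑ J' ∈ JJ ι l B, ∏ j, |c j (J j) (J' j)| := by
        refine sum_le_sum fun J _ => (abs_sum_le_sum_abs _ _).trans ?_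
        refine sum_le_sum fun J' _ => ?_
        rw [abs_prod]
    _ ≤ ∑ J ∈ JJ ι l B, ∑ J' ∈ Fintype.piFinset (fun _ : ι => range (l + 1)),
          ∏ j, |c j (J j) (J' j)| :=
        sum_le_sum fun J _ => sum_le_sum_of_subset_of_nonneg hsub fun J' _ _ => hn J J'
    _ ≤ ∑ J ∈ Fintype.piFinset (fun _ : ι => range (l + 1)),
          ∑ J' ∈ Fintype.piFinset (fun _ : ι => range (l + 1)), ∏ j, |c j (J j) (J' j)| :=
        sum_le_sum_of_subset_of_nonneg hsub fun J _ _ => sum_nonneg fun J' _ => hn J J'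
    _ = ∏ j, ks l (fun y y' => |c j y y'|) := by
        rw [js_prod l fun j y y' => |c j y y'|]

private theorem js_prod_cost {ι : Type} [Fintype ι] [DecidableEq ι] (l : ℕ)
    (c : ι → ℕ → ℕ → ℝ) (j2 : ι) :
    ks l (fun y y' => cost y * c j2 y y') * ∏ j ∈ univ.erase j2, ks l (c j) =
      ∑ J ∈ Fintype.piFinset (fun _ : ι => range (l + 1)),
      ∑ J' ∈ Fintype.piFinset (fun _ : ι => range (l + 1)),
        cost (J j2) * ∏ j, c j (J j) (J' j) := by
  have h := js_prod l (Function.update c j2 fun y y' => cost y * c j2 y y')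
  rw [← mul_prod_erase univ _ (mem_univ j2), Function.update_self] at h
  have h1 : ∏ j ∈ univ.erase j2, ks l (Function.update c j2 (fun y y' => cost y * c j2 y y') j) =
      ∏ j ∈ univ.erase j2, ks l (c j) :=
    prod_congr rfl fun j hj => by rw [Function.update_of_ne (ne_of_mem_erase hj)]
  rw [h1] at h
  rw [h]
  refine sum_congr rfl fun J _ => sum_congr rfl fun J' _ => ?_
  rw [← mul_prod_erase univ _ (mem_univ j2), Function.update_self,
    ← mul_prod_erase univ (fun j => c j (J j) (J' j)) (mem_univ j2), mul_assoc]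
  congr 2
  exact prod_congr rfl fun j hj => by rw [Function.update_of_ne (ne_of_mem_erase hj)]

private theorem js_cost_nonneg (y : ℕ) : 0 ≤ cost y := by
  unfold cost
  split_ifs <;> positivity

private theorem js_cost_le {y l : ℕ} (h : y ≤ l) : cost y ≤ 2 ^ l := by
  unfold cost
  split_ifs
  · positivity
  · exact pow_le_pow_right₀ (by norm_num) h

theorem js_lb {ι : Type} [Fintype ι] [DecidableEq ι] (l : ℕ) (B : ℝ) (hB : 2 ^ l < B)
    (c : ι → ℕ → ℕ → ℝ) (hc : ∀ j, ∀ y ≤ l, ∀ y' ≤ l, 0 ≤ c j y y') (j1 : ι)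
    (hd : ∀ j, j ≠ j1 → ∀ y y', y ≠ y' → c j y y' = 0) :
    (∏ j, ks l (c j)) - ∑ j2 ∈ univ.erase j1, (1 / (B - 2 ^ l)) *
        (ks l (fun y y' => cost y * c j2 y y') * ∏ j ∈ univ.erase j2, ks l (c j)) ≤
      ∑ J ∈ JJ ι l B, ∑ J' ∈ JJ ι l B, ∏ j, c j (J j) (J' j) := by
  have hN : 0 < B - 2 ^ l := by linarith
  have hR : ∑ J ∈ JJ ι l B, ∑ J' ∈ JJ ι l B, ∏ j, c j (J j) (J' j) =
      ∑ J ∈ Fintype.piFinset (fun _ : ι => range (l + 1)),
      ∑ J' ∈ Fintype.piFinset (fun _ : ι => range (l + 1)),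
        if J ∈ JJ ι l B then (if J' ∈ JJ ι l B then ∏ j, c j (J j) (J' j) else 0) else 0 := by
    have hJJ : JJ ι l B = (Fintype.piFinset (fun _ : ι => range (l + 1))).filter
        (fun J => J ∈ JJ ι l B) := by
      ext J
      rw [mem_filter, mem_JJ, Fintype.mem_piFinset]
      simp only [mem_range, Nat.lt_succ_iff]
      tauto
    conv_lhs => rw [hJJ]
    rw [sum_filter]
    refine sum_congr rfl fun J _ => ?_
    split_ifs with h
    · rw [sum_filter]
    · rw [sum_const_zero]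
  have hL : (∏ j, ks l (c j)) - ∑ j2 ∈ univ.erase j1, (1 / (B - 2 ^ l)) *
        (ks l (fun y y' => cost y * c j2 y y') * ∏ j ∈ univ.erase j2, ks l (c j)) =
      ∑ J ∈ Fintype.piFinset (fun _ : ι => range (l + 1)),
      ∑ J' ∈ Fintype.piFinset (fun _ : ι => range (l + 1)),
        (1 - (1 / (B - 2 ^ l)) * ∑ j2 ∈ univ.erase j1, cost (J j2)) *
          ∏ j, c j (J j) (J' j) := by
    have e1 : ∑ j2 ∈ univ.erase j1, (1 / (B - 2 ^ l)) *
        (ks l (fun y y' => cost y * c j2 y y') * ∏ j ∈ univ.erase j2, ks l (c j)) =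
        ∑ J ∈ Fintype.piFinset (fun _ : ι => range (l + 1)),
        ∑ J' ∈ Fintype.piFinset (fun _ : ι => range (l + 1)),
          ((1 / (B - 2 ^ l)) * ∑ j2 ∈ univ.erase j1, cost (J j2)) * ∏ j, c j (J j) (J' j) := by
      rw [sum_congr rfl fun j2 _ => congrArg (fun z => (1 / (B - 2 ^ l)) * z)
        (js_prod_cost l c j2), ← mul_sum, sum_comm, mul_sum]
      refine sum_congr rfl fun J _ => ?_
      rw [sum_comm, mul_sum]
      refine sum_congr rfl fun J' _ => ?_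
      rw [← sum_mul, mul_assoc]
    rw [js_prod, e1, ← sum_sub_distrib]
    refine sum_congr rfl fun J _ => ?_
    rw [← sum_sub_distrib]
    refine sum_congr rfl fun J' _ => ?_
    rw [sub_mul, one_mul]
  rw [hR, hL]
  refine sum_le_sum fun J hJ => sum_le_sum fun J' hJ' => ?_
  rw [Fintype.mem_piFinset] at hJ hJ'
  have hJl : ∀ j, J j ≤ l := fun j => Nat.lt_succ_iff.1 (mem_range.1 (hJ j))
  have hJl' : ∀ j, J' j ≤ l := fun j => Nat.lt_succ_iff.1 (mem_range.1 (hJ' j))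
  have hT : 0 ≤ ∏ j, c j (J j) (J' j) := prod_nonneg fun j _ => hc j _ (hJl j) _ (hJl' j)
  have hs : 0 ≤ ∑ j2 ∈ univ.erase j1, cost (J j2) := sum_nonneg fun j _ => js_cost_nonneg _
  have hNi : 0 < 1 / (B - 2 ^ l) := by positivity
  rcases hT.eq_or_lt with hT0 | hTpos
  · rw [← hT0, mul_zero]
    split_ifs <;> rfl
  · have heq : ∀ j, j ≠ j1 → J j = J' j := by
      intro j hj
      by_contra hne
      have : ∏ j, c j (J j) (J' j) = 0 := prod_eq_zero (mem_univ j) (hd j hj _ _ hne)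
      rw [this] at hTpos
      exact lt_irrefl _ hTpos
    by_cases hsN : ∑ j2 ∈ univ.erase j1, cost (J j2) ≤ B - 2 ^ l
    · have h1 : J ∈ JJ ι l B := by
        rw [mem_JJ]
        refine ⟨hJl, ?_⟩
        rw [← add_sum_erase univ _ (mem_univ j1)]
        have := js_cost_le (hJl j1)
        linarith
      have h2 : J' ∈ JJ ι l B := by
        rw [mem_JJ]
        refine ⟨hJl', ?_⟩
        rw [← add_sum_erase univ _ (mem_univ j1)]
        have h3 := js_cost_le (hJl' j1)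
        have h4 : ∑ j2 ∈ univ.erase j1, cost (J' j2) = ∑ j2 ∈ univ.erase j1, cost (J j2) :=
          sum_congr rfl fun j hj => by rw [heq j (ne_of_mem_erase hj)]
        linarith
      rw [if_pos h1, if_pos h2]
      have h5 : 0 ≤ 1 / (B - 2 ^ l) * ∑ j2 ∈ univ.erase j1, cost (J j2) := by positivity
      nlinarith
    · have h5 : 1 < 1 / (B - 2 ^ l) * ∑ j2 ∈ univ.erase j1, cost (J j2) := by
        rw [one_div, inv_mul_eq_div, lt_div_iff₀ hN, one_mul]
        exact not_le.1 hsN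
      have h6 : (1 - 1 / (B - 2 ^ l) * ∑ j2 ∈ univ.erase j1, cost (J j2)) *
          ∏ j, c j (J j) (J' j) ≤ 0 := mul_nonpos_of_nonpos_of_nonneg (by linarith) hT
      refine h6.trans ?_
      split_ifs
      · exact hT
      · exact le_rfl
      · exact le_rfl

end Pool.Agent.H92.MM
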