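import Pool.Agent.H92.MM.Th
import Pool.Agent.H92.MM.Js

/-!
# [H92 MM NU] Numbers: `n = ∑ nn`, `S = ∑ vv`

Hypotheses: `b` even, `tl b ≤ 1/100`, `l * tl b ≤ 1/20`.
Proof.  `1/5 ≤ q - u^2 ≤ 1/3` (`uu_bd`, `qq_bd`; `u^2 ≤ .2601`, `q - u^2 ≥ .2399`, `≤ .26`).  `nn b y ≥ 0` (`nn b 0 = 1`).
`bn_le`: `∑_{y ≥ 1} nn ≤ (1/3) ∑_k (51/100)^k ≤ 1` (geometric).  `bn_cost`: `2^y nn b y = 2 (q-u^2) (2q)^(y-1)`,
`(2q)^(y-1) ≤ (1 + 2 tl b)^l ≤ exp(2 l tl b) ≤ exp(1/10) ≤ 3/2`, so the sum over `1 ≤ y ≤ l` is `≤ l * 2/3 * 3/2 = l`.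
`bS_ge`: `1 - u ≥ 49/100 ≥ 1/3`; `bS_le`: `1 - u ≤ 1/2`.
-/

namespace Pool.Agent.H92.MM

open Finset

/-- `n` -/
noncomputable def bn (b l : ℕ) : ℝ := ∑ y ∈ range (l + 1), nn b y

/-- `S` -/
noncomputable def bS (b l : ℕ) : ℝ := ∑ y ∈ range (l + 1), vv b y

private theorem nn_succ (b y : ℕ) : nn b (y + 1) = qq b ^ y * (qq b - uu b ^ 2) := by
  unfold nn
  rw [if_neg (Nat.succ_ne_zero y), Nat.add_sub_cancel]

private theorem nn_0 (b : ℕ) : nn b 0 = 1 := by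
  unfold nn
  rw [if_pos rfl]

private theorem du_bd {b : ℕ} (hb : Even b) (ht : tl b ≤ 1 / 100) :
    1 / 5 ≤ qq b - uu b ^ 2 ∧ qq b - uu b ^ 2 ≤ 13 / 50 := by
  obtain ⟨h1, h2⟩ := uu_bd hb
  obtain ⟨h3, h4⟩ := qq_bd hb
  constructor <;> nlinarith

theorem nn_nonneg {b : ℕ} (hb : Even b) (ht : tl b ≤ 1 / 100) (y : ℕ) : 0 ≤ nn b y := by
  obtain ⟨h1, h2⟩ := du_bd hb ht
  obtain ⟨h3, h4⟩ := qq_bd hb
  cases y with
  | zero =>
    rw [nn_0]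
    exact zero_le_one
  | succ y =>
    rw [nn_succ]
    have h5 : 0 ≤ qq b := by linarith
    exact mul_nonneg (pow_nonneg h5 y) (by linarith)

theorem bn_ge {b : ℕ} (hb : Even b) (ht : tl b ≤ 1 / 100) (l : ℕ) : 1 ≤ bn b l := by
  have h1 := single_le_sum (f := fun y => nn b y) (fun y _ => nn_nonneg hb ht y)
    (mem_range.2 (Nat.succ_pos l))
  rw [← nn_0 b]
  exact h1

theorem bn_le {b : ℕ} (hb : Even b) (ht : tl b ≤ 1 / 100) (l : ℕ) : bn b l ≤ 2 := by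
  obtain ⟨h1, h2⟩ := du_bd hb ht
  obtain ⟨h3, h4⟩ := qq_bd hb
  unfold bn
  rw [sum_range_succ', nn_0]
  simp only [nn_succ]
  rw [← sum_mul]
  have h5 := geom_sum_mul_neg (qq b) l
  have h6 : 0 ≤ qq b ^ l := pow_nonneg (by linarith) l
  have h7 : 0 ≤ ∑ i ∈ range l, qq b ^ i := sum_nonneg fun i _ => pow_nonneg (by linarith) i
  have h8 : (∑ i ∈ range l, qq b ^ i) * (49 / 100) ≤ 1 := by nlinarith
  nlinarith

theorem bn_cost {b : ℕ} (hb : Even b) (ht : tl b ≤ 1 / 100) (l : ℕ) (hl : l * tl b ≤ 1 / 20) :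
    ∑ y ∈ range (l + 1), cost y * nn b y ≤ l := by
  obtain ⟨h1, h2⟩ := du_bd hb ht
  obtain ⟨h3, h4⟩ := qq_bd hb
  have ht0 := tl_pos b
  rw [sum_range_succ', nn_0]
  have hc0 : cost 0 = 0 := by
    unfold cost
    rw [if_pos rfl]
  rw [hc0, zero_mul, add_zero]
  have h5 : ∀ y ∈ range l, cost (y + 1) * nn b (y + 1) ≤ 1 := by
    intro y hy
    rw [nn_succ]
    have hc : cost (y + 1) = 2 * 2 ^ y := by
      unfold cost
      rw [if_neg (Nat.succ_ne_zero y), pow_succ]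
      ring
    rw [hc]
    have h6 : (2 * qq b) ^ y ≤ 3 / 2 := by
      have h7 : 2 * qq b ≤ Real.exp (2 * tl b) := by
        have := Real.add_one_le_exp (2 * tl b)
        linarith
      have h8 : (2 * qq b) ^ y ≤ Real.exp (2 * tl b) ^ y :=
        pow_le_pow_left₀ (by linarith) h7 y
      rw [← Real.exp_nat_mul] at h8
      have h9 : (y : ℝ) ≤ l := by exact_mod_cast (mem_range.1 hy).le
      have h10 : (y : ℝ) * (2 * tl b) ≤ 1 / 10 := by nlinarith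
      have h11 : Real.exp ((y : ℝ) * (2 * tl b)) ≤ Real.exp (1 / 10) := Real.exp_le_exp.2 h10
      have h12 : Real.exp (1 / 10) ≤ 3 / 2 := by
        have h13 := Real.abs_exp_sub_one_sub_id_le (x := 1 / 10) (by rw [abs_of_pos] <;> norm_num)
        have h14 := (abs_le.1 h13).2
        linarith
      exact h8.trans (h11.trans h12)
    have h13 : 2 * 2 ^ y * (qq b ^ y * (qq b - uu b ^ 2)) =
        2 * (2 * qq b) ^ y * (qq b - uu b ^ 2) := by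
      rw [mul_pow]
      ring
    rw [h13]
    have h14 : 0 ≤ (2 * qq b) ^ y := pow_nonneg (by linarith) y
    nlinarith
  calc ∑ y ∈ range l, cost (y + 1) * nn b (y + 1) ≤ ∑ _y ∈ range l, (1 : ℝ) := sum_le_sum h5
    _ = l := by rw [sum_const, card_range, nsmul_eq_mul, mul_one]

theorem bS_ge {b : ℕ} (hb : Even b) (ht : tl b ≤ 1 / 100) (l : ℕ) : 1 + (l : ℝ) / 3 ≤ bS b l := by
  obtain ⟨h1, h2⟩ := uu_bd hb
  unfold bS
  have h3 : ∑ y ∈ range (l + 1), vv b y = l * (1 - uu b) + 1 := by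
    rw [sum_range_succ']
    unfold vv
    simp
    ring
  rw [h3]
  have h4 : (0 : ℝ) ≤ l := Nat.cast_nonneg l
  nlinarith

theorem bS_le {b : ℕ} (hb : Even b) (l : ℕ) : bS b l ≤ 1 + (l : ℝ) / 2 := by
  obtain ⟨h1, h2⟩ := uu_bd hb
  unfold bS
  have h3 : ∑ y ∈ range (l + 1), vv b y = l * (1 - uu b) + 1 := by
    rw [sum_range_succ']
    unfold vv
    simp
    ring
  rw [h3]
  have h4 : (0 : ℝ) ≤ l := Nat.cast_nonneg l
  nlinarith

end Pool.Agent.H92.MM
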