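import Pool.Agent.H92.MM.Pb
import Pool.Agent.H92.MM.Nu

/-!
# [H92 MM PC] All parameters

Proof.  Take `g` large, `b = 2^g`, `l = 4^g`, `L = l + g`, `s = bs ε η a0 k g`, `B = 2^l η/(8 a0)`, `κ = (L+1) (ϖ XT)`.
* `B ≥ 2 * 2^l` as `a0 ≤ η/16`, so `B - 2^l ≥ B/2 = 2^l η/(16 a0)` and `B > 2^l`.
* `hK`: `k s l ≤ ε (B - 2^l)` (`Nat.floor_le`).  `s ≥ 1` and `s ≥ ε (B - 2^l)/(2 k l) ≥ ε 2^l η/(32 a0 k l)` for `g` large
  (`2^l/l → ∞`).
* `hlev`: `4 b a B = 4 * 2^g * a0/2^(l+g) * 2^l η/(8 a0) = η/2` and `2 * (pb_lev) ≤ 2 a0 (4 j0+10) ≤ η/2`.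
* `K a = k s a0/2^L ≤ ε B a0/(l 2^L) = ε η/(8 l 2^g) ≤ c0` for `g` large.
* `κ`: `pb_kap` (`K l ≤ ε B`).
* mass: `AA = (1/2)^L S^2/n ≥ (1/2)^(l+g) (l/3)^2/2` (`bS_ge`, `bn_le`), so `s * (c/4 * AA) ≥ ε 2^l η/(32 a0 k l) * c/4 * 2^(-l-g) l^2/18
  = ε η c 2^g/(2304 a0 k) → ∞`.
-/

namespace Pool.Agent.H92.MM

open Finset Filter

theorem params (η ε a0 Δ : ℝ) (j0 : ℕ) (hη : 0 < η) (hη1 : η ≤ 1) (hε : 0 < ε)
    (hε1 : ε ≤ 1 / 100) (ha0 : 0 < a0) (ha1 : a0 ≤ 1 / 20) (ha2 : a0 ≤ η / 16) (hΔ : 0 < Δ)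
    (hΔ1 : Δ ≤ 1 / 100) (hj : a0 * (4 * j0 + 10) ≤ η / 4)
    (ht : ∀ L : ℕ, ∏ i : Fin L, (1 + tau (2 * (j0 + L - i))) ≤ 1 + Δ)
    (k : ℕ) (hk : 1 ≤ k) (c c0 P0 : ℝ) (hc : 0 < c) (hc0 : 0 < c0) :
    ∃ (s L l b : ℕ) (B κ : ℝ), 1 ≤ s ∧
      St (k * s) L l b (fun i : Fin L => 2 * (j0 + L - i)) (a0 / 2 ^ L) B η
        (Real.exp (-(10 / (a0 / 2 ^ L)))) ε Δ κ ∧
      4 * κ ≤ Δ * (1 / 4) ^ L ∧ ((k * s : ℕ) : ℝ) * (a0 / 2 ^ L) ≤ c0 ∧
      P0 ≤ s * (c / 4 * AA b l L) := by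
  have hk' : (1 : ℝ) ≤ k := by exact_mod_cast hk
  -- eventual conditions
  have h2g : Tendsto (fun g : ℕ => (2 : ℝ) ^ g) atTop atTop :=
    tendsto_pow_atTop_atTop_of_one_lt (by norm_num)
  have e1 : ∀ᶠ g : ℕ in atTop, 16 * a0 * k / (ε * η) ≤ (2 : ℝ) ^ g :=
    h2g.eventually_ge_atTop _
  have e2 : ∀ᶠ g : ℕ in atTop, 1 / c0 ≤ (2 : ℝ) ^ g := h2g.eventually_ge_atTop _
  have e3 : ∀ᶠ g : ℕ in atTop, P0 * (2304 * a0 * k / (ε * η * c)) ≤ (2 : ℝ) ^ g :=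
    h2g.eventually_ge_atTop _
  obtain ⟨g, ⟨hg1, hg2, hg3⟩, ⟨⟨hgt1, hgt2⟩, hgk⟩, hg⟩ := ((e1.and (e2.and e3)).and
    ((pb_tl.and (pb_kap ε η a0 Δ hε hε1 hη hη1 ha0 ha1 hΔ j0)).and
      (eventually_ge_atTop 1))).exists
  obtain ⟨l, hl⟩ : ∃ l, l = 4 ^ g := ⟨_, rfl⟩
  obtain ⟨L, hL⟩ : ∃ L, L = 4 ^ g + g := ⟨_, rfl⟩
  have hLl : L = l + g := by rw [hL, hl]
  have hlc : (4 : ℝ) ^ g = l := by
    rw [hl]
    push_cast
    rfl
  have hl0 : (0 : ℝ) < l := by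
    rw [← hlc]
    positivity
  have hl1 : (1 : ℝ) ≤ l := by
    rw [← hlc]
    exact one_le_pow₀ (by norm_num)
  have hlg : (l : ℝ) = 2 ^ g * 2 ^ g := by
    rw [← hlc, ← mul_pow]
    norm_num
  have hlp : (l : ℝ) * 2 ^ g ≤ 2 ^ l := by
    have h1 : l * 2 ^ g ≤ 2 ^ l := by
      have h2 : 2 * g + g ≤ l := by
        rw [hl]
        have h3 : ∀ n : ℕ, 1 ≤ n → 2 * n + n ≤ 4 ^ n := by
          intro n hn
          induction n, hn using Nat.le_induction with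
          | base => norm_num
          | succ n hn ih =>
            rw [pow_succ]
            omega
        exact h3 g hg
      have h4 : l * 2 ^ g = 2 ^ (2 * g + g) := by
        rw [hl, pow_add, pow_mul]
        norm_num
      rw [h4]
      exact Nat.pow_le_pow_right (by norm_num) h2
    exact_mod_cast h1
  rw [hlc] at hgt1 hgk
  rw [← hL, ← hl] at hgk
  obtain ⟨B, hB⟩ : ∃ B : ℝ, B = 2 ^ l * η / (8 * a0) := ⟨_, rfl⟩
  rw [← hB] at hgk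
  have h2l : (0 : ℝ) < 2 ^ l := by positivity
  have h2L : (2 : ℝ) ^ L = 2 ^ l * 2 ^ g := by rw [hLl, pow_add]
  have h2g0 : (0 : ℝ) < 2 ^ g := by positivity
  have hB2 : 2 * 2 ^ l ≤ B := by
    rw [hB, le_div_iff₀ (by positivity)]
    nlinarith
  have hBh : 2 ^ l * η / (16 * a0) ≤ B - 2 ^ l := by
    have h1 : 2 ^ l * η / (16 * a0) = B / 2 := by
      rw [hB]
      field_simp
      norm_num
    rw [h1]
    linarith
  obtain ⟨s, hs⟩ : ∃ s, s = bs ε η a0 k g := ⟨_, rfl⟩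
  obtain ⟨y, hy⟩ : ∃ y : ℝ, y = ε * (B - 2 ^ l) / (k * l) := ⟨_, rfl⟩
  have hsy : s = ⌊y⌋₊ := by
    rw [hs, hy, hB]
    unfold bs
    rw [← hl, hlc]
  have hkl : 0 < (k : ℝ) * l := by positivity
  have hyl : ε * η * 2 ^ l / (16 * a0 * k * l) ≤ y := by
    rw [hy, le_div_iff₀ hkl]
    calc ε * η * 2 ^ l / (16 * a0 * k * l) * (k * l) = ε * (2 ^ l * η / (16 * a0)) := by
          field_simp
      _ ≤ ε * (B - 2 ^ l) := mul_le_mul_of_nonneg_left hBh hε.le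
  have hy1 : 1 ≤ y := by
    refine le_trans ?_ hyl
    rw [le_div_iff₀ (by positivity), one_mul]
    rw [div_le_iff₀ (by positivity)] at hg1
    calc 16 * a0 * k * l ≤ (2 ^ g * (ε * η)) * l := mul_le_mul_of_nonneg_right hg1 hl0.le
      _ = ε * η * (l * 2 ^ g) := by ring
      _ ≤ ε * η * 2 ^ l := mul_le_mul_of_nonneg_left hlp (by positivity)
  have hs1 : 1 ≤ s := by
    rw [hsy]
    exact Nat.le_floor (by simpa using hy1)
  have hsle : (s : ℝ) ≤ y := by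
    rw [hsy]
    exact Nat.floor_le (by linarith)
  have hsge : y / 2 ≤ s := by
    have h1 : y < s + 1 := by
      rw [hsy]
      exact Nat.lt_floor_add_one y
    have h2 : (1 : ℝ) ≤ s := by exact_mod_cast hs1
    linarith
  have hKs : (((k * s : ℕ) : ℝ)) * l ≤ ε * (B - 2 ^ l) := by
    push_cast
    have h1 : y * (k * l) = ε * (B - 2 ^ l) := by
      rw [hy, div_mul_cancel₀ _ hkl.ne']
    calc (k : ℝ) * s * l = s * (k * l) := by ring
      _ ≤ y * (k * l) := mul_le_mul_of_nonneg_right hsle hkl.le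
      _ = ε * (B - 2 ^ l) := h1
  have hKB : (((k * s : ℕ) : ℝ)) * l ≤ ε * B := by
    refine hKs.trans ?_
    nlinarith
  have hb : Even (2 ^ g) := by
    rw [Nat.even_pow]
    exact ⟨even_two, by omega⟩
  refine ⟨s, L, l, 2 ^ g, B, ((L : ℝ) + 1) * (Real.exp (-(10 / (a0 / 2 ^ L))) *
    XT (k * s) l (2 ^ g) (fun i : Fin L => 2 * (j0 + L - i))), hs1, ?_, ?_, ?_, ?_⟩
  · refine ⟨by omega, hb, fun i => even_two_mul _, by positivity, hgt2, hgt1, hε, hε1, hΔ, hΔ1,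
      ht L, by linarith, hKs, ?_, (Real.exp_pos _).le, le_refl _⟩
    have h1 : 4 * ((2 ^ g : ℕ) : ℝ) * (a0 / 2 ^ L) * B = η / 2 := by
      rw [hB, h2L]
      push_cast
      field_simp
      norm_num
    have h2 := pb_lev a0 ha0 j0 L
    rw [h1]
    linarith
  · have h1 := hgk (k * s) hKB
    linarith
  · have h1 : (((k * s : ℕ) : ℝ)) * (a0 / 2 ^ L) ≤ ε * B / l * (a0 / 2 ^ L) := by
      apply mul_le_mul_of_nonneg_right _ (by positivity)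
      rw [le_div_iff₀ hl0]
      exact hKB
    refine h1.trans ?_
    have h2 : ε * B / l * (a0 / 2 ^ L) = ε * η / (8 * l * 2 ^ g) := by
      rw [hB, h2L]
      field_simp
    rw [h2, div_le_iff₀ (by positivity)]
    rw [div_le_iff₀ hc0] at hg2
    have h3 : ε * η ≤ 1 := by nlinarith
    nlinarith
  · -- the mass
    have h1 := bS_ge hb hgt2 l
    have h2 := bn_le hb hgt2 l
    have h3 := bn_ge hb hgt2 l
    have hAA : (1 / 2) ^ L * ((l : ℝ) ^ 2 / 18) ≤ AA (2 ^ g) l L := by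
      unfold AA
      rw [mul_div_assoc]
      apply mul_le_mul_of_nonneg_left _ (by positivity)
      rw [div_le_div_iff₀ (by norm_num) (by linarith)]
      have h4 : ((l : ℝ) / 3) ^ 2 ≤ bS (2 ^ g) l ^ 2 :=
        pow_le_pow_left₀ (by positivity) (by linarith) 2
      nlinarith [sq_nonneg (l : ℝ)]
    have h5 : P0 ≤ ε * η * c * 2 ^ g / (2304 * a0 * k) := by
      rw [le_div_iff₀ (by positivity)]
      have h6 : P0 * (2304 * a0 * k / (ε * η * c)) * (ε * η * c) ≤ 2 ^ g * (ε * η * c) :=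
        mul_le_mul_of_nonneg_right hg3 (by positivity)
      have h7 : P0 * (2304 * a0 * k / (ε * η * c)) * (ε * η * c) = P0 * (2304 * a0 * k) := by
        field_simp
      linarith
    refine h5.trans ?_
    have h8 : ε * η * c * 2 ^ g / (2304 * a0 * k) =
        (ε * η * 2 ^ l / (16 * a0 * k * l)) / 2 * (c / 4 * ((1 / 2) ^ L * ((l : ℝ) ^ 2 / 18))) := by
      have h9 : ((1 : ℝ) / 2) ^ L = 1 / (2 ^ l * 2 ^ g) := by
        rw [one_div_pow, h2L]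
      rw [h9]
      have h10 : (2 : ℝ) ^ g * 2 ^ g = l := hlg.symm
      field_simp
      rw [hlg]
      ring
    rw [h8]
    apply mul_le_mul
    · exact le_trans (by linarith) hsge
    · apply mul_le_mul_of_nonneg_left hAA (by positivity)
    · positivity
    · exact Nat.cast_nonneg s

end Pool.Agent.H92.MM
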