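import Pool.Agent.H92.MM.Ls
import Pool.Agent.H92.MM.Pa
import Pool.Agent.H92.MM.Pc

/-!
# [H92 MM LO] The local information from the laws

Proof of `loc_of_laws`.  Given `e`: `ε = min (e/40) (1/100)`, `a0, Δ, j0` from `pa`, `c = c2 a0`, `C = 2 exp(3/a0)`, `F, EF`, `G, EG`, `C1 = 4 C^2/c`.
Given `P0`: `c0` = the minimum of the four constants of the laws, `s, L, l, b, B, κ` from `params`, `a = a0/2^L`, `ϖ = exp(-10/a)`.
Given the blocks `V j`: `ι = {x // x ∈ univ.biUnion V}`, `card ι = k s`, `h = Subtype.val`; `w` = maximum of the four `w0`'s and `k s`;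
`crt_class` gives the residue `β`.  For `x` large everything holds; `T = TT`, `ω = ww`, `m = mm`; `App ↔ AppT` (`app_iff`), `Lg` and `St` hold.
`μ N = ω N * sg N^2 / z`, `lo x N = F X (N + x) * r0 m x N`, `g` the same with `G` (and `0` for `x ∉ ι`).
`0 < lo`: `r0 = 1` and `F > 0`, `N + x` is `X^a0`-rough (`rough_of`), so `Q`.  `μ(N + x prime) = emu (indicator)`; for a prime `N + x > √X ≥
X^a0` all counts vanish (`mc_prime`).  `hpr`: `EG ≤ 4 (1+ε) pr X a0` and `(1/2)^L pr X a0 ≤ (1+ε) pr X a`.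
-/

namespace Pool.Agent.H92.MM

open Finset Filter Pool.Agent.H21.MT

/-- a family of large functions with the pair law -/
structure Wt (η Θ a0 c C : ℝ) (F : ℝ → ℕ → ℝ) (EF : ℝ → ℝ) : Prop where
  law : PairLaw η Θ a0 F EF
  bd : ∀ᶠ x : ℝ in atTop, ∀ n : ℕ, 0 < n → (n : ℝ) ≤ x ^ (1 + 1 / 1000 : ℝ) → |F x n| ≤ C
  lo : ∀ᶠ x : ℝ in atTop, c ≤ EF x
  hi : ∀ᶠ x : ℝ in atTop, EF x ≤ C

/-- positive only at numbers with property `Q` -/
def Sgn (Q : ℕ → Prop) (a0 : ℝ) (F : ℝ → ℕ → ℝ) : Prop :=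
  ∀ᶠ x : ℝ in atTop, ∀ n : ℕ, Real.sqrt x < (n : ℝ) → (n : ℝ) ≤ x ^ (1 + 1 / 1000 : ℝ) →
    (∀ p : ℕ, p.Prime → p ∣ n → x ^ a0 ≤ (p : ℝ)) → 0 < F x n → Q n

/-- nonnegative and `≥ 1` at primes, mean at most `(1+ε)/cc` times the density of the primes -/
def Maj (cc ε a0 : ℝ) (G : ℝ → ℕ → ℝ) (EG : ℝ → ℝ) : Prop :=
  (∀ x n, 0 ≤ G x n) ∧
  (∀ᶠ x : ℝ in atTop, ∀ n : ℕ, n.Prime → Real.sqrt x < (n : ℝ) →
    (n : ℝ) ≤ x ^ (1 + 1 / 1000 : ℝ) → 1 ≤ G x n) ∧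
  (∀ᶠ x : ℝ in atTop, cc * EG x ≤ (1 + ε) * pr x a0)

/-- Mertens: the primes of the ranges -/
def Mer : Prop := ∀ ε a0 : ℝ, 0 < ε → 0 < a0 → ∀ L : ℕ, ∀ᶠ x : ℝ in atTop,
  (1 / 2) ^ L * pr x a0 ≤ (1 + ε) * pr x (a0 / 2 ^ L)

theorem loc_of_laws (cc : ℝ) (hcc : 1 / 10 ≤ cc) (hcc1 : cc ≤ 1) (Q : ℕ → Prop) (k : ℕ)
    (hk : 1 ≤ k) (c2 : ℝ) (hc2 : 0 < c2) (hc21 : c2 ≤ 1)
    (hM : Mer)
    (hall : ∀ ε : ℝ, 0 < ε → ∃ η : ℝ, 0 < η ∧ η ≤ 1 ∧ OneLaw η 10 ∧ PrimeLaw η 10 ∧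
      ∀ a0 : ℝ, 0 < a0 → a0 ≤ 1 / 20 →
        (∃ (F : ℝ → ℕ → ℝ) (EF : ℝ → ℝ),
          Wt η 10 a0 (c2 * a0) (2 * Real.exp (3 / a0)) F EF ∧ Sgn Q a0 F) ∧
        (∃ (G : ℝ → ℕ → ℝ) (EG : ℝ → ℝ),
          Wt η 10 a0 (c2 * a0) (2 * Real.exp (3 / a0)) G EG ∧ Maj cc ε a0 G EG)) :
    Pool.Agent.H21.CP.LocD cc Q k := by
  classical
  intro e he
  set ε : ℝ := min (e / 40) (1 / 100) with hεd
  have hε : 0 < ε := by
    rw [hεd]
    positivity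
  have hε1 : ε ≤ 1 / 100 := min_le_right _ _
  have hεe : 40 * ε ≤ e := by
    have : ε ≤ e / 40 := min_le_left _ _
    linarith
  obtain ⟨η, hη, hη1, h1, h2, hFG⟩ := hall ε hε
  obtain ⟨a0, Δ, j0, ha0, ha1, ha2, hΔ, hΔ1, hCΔ, hj, ht⟩ := pa η c2 ε hη hη1 hc2 hc21 hε hε1
  obtain ⟨⟨F, EF, hWF, hSF⟩, G, EG, hWG, hG0, hG1, hG2⟩ := hFG a0 ha0 ha1
  set c : ℝ := c2 * a0 with hcd
  set C : ℝ := 2 * Real.exp (3 / a0) with hCd
  have hc : 0 < c := by positivity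
  have hc1 : c ≤ 1 := by
    rw [hcd]
    nlinarith
  have hC1 : 1 ≤ C := by
    rw [hCd]
    have : (1 : ℝ) ≤ Real.exp (3 / a0) := Real.one_le_exp (by positivity)
    linarith
  obtain ⟨d1, hd1, L1⟩ := h1
  obtain ⟨d2, hd2, L2⟩ := h2
  obtain ⟨d3, hd3, L3⟩ := hWF.law
  obtain ⟨d4, hd4, L4⟩ := hWG.law
  refine ⟨4 * C ^ 2 / c, fun P0 => ?_⟩
  set c0 : ℝ := min (min d1 d2) (min d3 d4) with hc0d
  have hc0 : 0 < c0 := by
    rw [hc0d]
    exact lt_min (lt_min hd1 hd2) (lt_min hd3 hd4)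
  obtain ⟨s, L, l, b, B, κ, hs, hSt, hκ, hKa, hP0⟩ :=
    params η ε a0 Δ j0 hη hη1 hε hε1 ha0 ha1 ha2 hΔ hΔ1 hj ht k hk c c0 P0 hc hc0
  refine ⟨s, hs, fun V hdis hcard hadm D N0 => ?_⟩
  obtain ⟨H, hH⟩ : ∃ H : Finset ℕ, H = univ.biUnion V := ⟨_, rfl⟩
  obtain ⟨h, hh⟩ : ∃ h : {x // x ∈ H} → ℕ, ∀ x, h x = x.1 := ⟨fun x => x.1, fun _ => rfl⟩
  have hinj : Function.Injective h := by
    intro x y hxy
    rw [hh, hh] at hxy
    exact Subtype.ext hxy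
  have hcd' : Fintype.card {x // x ∈ H} = k * s := by
    rw [Fintype.card_coe, hH, card_biUnion (fun i _ j _ hij => hdis i j hij)]
    simp [hcard]
  have hne : Nonempty {x // x ∈ H} := by
    rw [← Fintype.card_pos_iff, hcd']
    exact Nat.mul_pos hk hs
  obtain ⟨a, had⟩ : ∃ a : ℝ, a = a0 / 2 ^ L := ⟨_, rfl⟩
  rw [← had] at hSt hKa
  have ha : 0 < a := by
    rw [had]
    positivity
  have haL : a * 2 ^ L = a0 := by
    rw [had]
    field_simp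
  have haL1 : a * 2 ^ L ≤ 1 / 20 := by rw [haL]; exact ha1
  have hK : (Fintype.card {x // x ∈ H} : ℝ) * a ≤ c0 := by
    rw [hcd']
    exact hKa
  have m1 : c0 ≤ d1 := (min_le_left _ _).trans (min_le_left _ _)
  have m2 : c0 ≤ d2 := (min_le_left _ _).trans (min_le_right _ _)
  have m3 : c0 ≤ d3 := (min_le_right _ _).trans (min_le_left _ _)
  have m4 : c0 ≤ d4 := (min_le_right _ _).trans (min_le_right _ _)
  obtain ⟨w1, E1⟩ := L1 {x // x ∈ H} a L ha haL1 (hK.trans m1) h hinj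
  obtain ⟨w2, E2⟩ := L2 {x // x ∈ H} a L ha haL1 (hK.trans m2) h hinj
  obtain ⟨w3, E3⟩ := L3 {x // x ∈ H} a L ha haL1 (hK.trans m3) h hinj
  obtain ⟨w4, E4⟩ := L4 {x // x ∈ H} a L ha haL1 (hK.trans m4) h hinj
  obtain ⟨w, β, hw, hβ', hkill⟩ := Pool.Agent.H21.CP.kill2 H (fun p hp => by
    obtain ⟨r, hr⟩ := hadm p hp
    refine ⟨r, fun x hx => ?_⟩
    rw [hH, mem_biUnion] at hx
    obtain ⟨j, _, hj⟩ := hx
    exact hr j x hj) D (max (max w1 w2) (max (max w3 w4) (k * s)))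
  have hβ : ∀ y : {x // x ∈ H}, Nat.Coprime (β + h y) (primorial w) := by
    intro y
    rw [hh]
    exact hβ' y.1 y.2
  have hw1 : w1 ≤ w := by omega
  have hw2 : w2 ≤ w := by omega
  have hw3 : w3 ≤ w := by omega
  have hw4 : w4 ≤ w := by omega
  have hw5 : k * s ≤ w := by omega
  have T1 := E1 w hw1 β hβ
  have T2 := E2 w hw2 β hβ
  have T3 := E3 w hw3 β hβ
  have T4 := E4 w hw4 β hβ
  have T5 : ∀ᶠ x : ℝ in atTop, ∀ y : {x // x ∈ H}, ∀ N ∈ Tx x, max N0 w < N ∧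
      Real.sqrt x < ((N + h y : ℕ) : ℝ) ∧ ((N + h y : ℕ) : ℝ) ≤ x ^ (1 + 1 / 1000 : ℝ) := by
    rw [eventually_all]
    intro y
    exact tx_bd (h y) (max N0 w)
  have T6 := hM ε a0 hε ha0 L
  rw [← had] at T6
  obtain ⟨x, x1, x2, x3, x4, x5, x6, xF1, xF2, xF3, xG1, xG2, xG3, xS, xM1, xM2, hx4⟩ :=
    (T1.and (T2.and (T3.and (T4.and (T5.and (T6.and (hWF.bd.and (hWF.lo.and (hWF.hi.and
      (hWG.bd.and (hWG.lo.and (hWG.hi.and (hSF.and (hG1.and (hG2.and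
        (eventually_ge_atTop (4 : ℝ))))))))))))))))).exists
  have hx1 : 1 ≤ x := by linarith
  have hnm : 0 < nm x a (primorial w) (Fintype.card {x // x ∈ H}) := by
    rw [hcd']
    exact nm_pos hx4 w (k * s) hw5
  obtain ⟨T, hT⟩ : ∃ T : Finset ℕ, T = TT x a h (primorial w) β := ⟨_, rfl⟩
  obtain ⟨ω, hω⟩ : ∃ ω : ℕ → ℝ, ω = ww x a (primorial w) (Fintype.card {x // x ∈ H}) := ⟨_, rfl⟩
  obtain ⟨m, hm⟩ : ∃ m : {x // x ∈ H} → Fin L → ℕ → ℕ, m = mm x a h := ⟨_, rfl⟩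
  have hmemT : ∀ N, N ∈ T ↔ N ∈ Tx x ∧ Adm x a h (primorial w) β N := by
    intro N
    rw [hT, TT, mem_filter]
  have hω0 : ∀ N, 0 ≤ ω N := by
    intro N
    rw [hω, ww]
    exact div_nonneg (gw_pos x N).le hnm.le
  have A1 : AppT T ω m a η (Real.exp (-(10 / a))) (fun _ => 1) 1 := by
    rw [hT, hω, hm]
    exact (app_iff x a h (primorial w) β η _ _ _).1 x1
  have A2 : ∀ y : {x // x ∈ H}, ∀ A : {x // x ∈ H} → Fin L → ℕ, (∀ i, A y i = 0) →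
      sl a L A ≤ η →
      |AvT T ω (fun N => mon m A N * (if (N + y.1).Prime then 1 else 0)) - sv L A * pr x a| ≤
        Real.exp (-(10 / a)) := by
    intro y A hA hA2
    have h5 := x2 y A hA hA2
    rw [hT, hω, hm, avt_eq]
    rw [hh] at h5
    refine le_trans (le_of_eq ?_) h5
    congr 3
  obtain ⟨A3, A4⟩ := x3 haL
  obtain ⟨A5, A6⟩ := x4 haL
  have hpos : ∀ y : {x // x ∈ H}, ∀ N ∈ T, 0 < N + h y := by
    intro y N hN
    have := (x5 y N ((hmemT N).1 hN).1).1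
    omega
  have lgF : Lg T ω m a η (Real.exp (-(10 / a))) ε Δ κ c C (fun y N => F x (N + y.1)) (EF x) := by
    refine ⟨fun y => ?_, fun y z hyz => ?_, fun y N hN => ?_, hc, hc1, hC1, xF2, xF3, hCΔ, hκ⟩
    · rw [hT, hω, hm, ← hh y]
      exact (app_iff x a h (primorial w) β η _ _ _).1 (A3 y)
    · rw [hT, hω, hm, ← hh y, ← hh z]
      exact (app_iff x a h (primorial w) β η _ _ _).1 (A4 y z hyz)
    · have h6 := x5 y N ((hmemT N).1 hN).1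
      have h7 := xF1 (N + h y) (hpos y N hN) h6.2.2
      rw [← hh y]
      exact h7
  have lgG : Lg T ω m a η (Real.exp (-(10 / a))) ε Δ κ c C (fun y N => G x (N + y.1)) (EG x) := by
    refine ⟨fun y => ?_, fun y z hyz => ?_, fun y N hN => ?_, hc, hc1, hC1, xG2, xG3, hCΔ, hκ⟩
    · rw [hT, hω, hm, ← hh y]
      exact (app_iff x a h (primorial w) β η _ _ _).1 (A5 y)
    · rw [hT, hω, hm, ← hh y, ← hh z]
      exact (app_iff x a h (primorial w) β η _ _ _).1 (A6 y z hyz)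
    · have h6 := x5 y N ((hmemT N).1 hN).1
      have h7 := xG1 (N + h y) (hpos y N hN) h6.2.2
      rw [← hh y]
      exact h7
  have hsq : ∀ n : ℕ, Real.sqrt x < (n : ℝ) → x ^ a0 ≤ (n : ℝ) := by
    intro n hn
    refine le_trans ?_ hn.le
    rw [Real.sqrt_eq_rpow]
    exact Real.rpow_le_rpow_of_exponent_le hx1 (by linarith)
  have hbig : ∀ N ∈ T, max N0 w < N := by
    intro N hN
    obtain ⟨y⟩ := hne
    exact (x5 y N ((hmemT N).1 hN).1).1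
  refine loc_step Q k s hk hs V hdis hcard H hH N0 T ω m hSt hω0
    (fun N hN => lt_of_le_of_lt (le_max_left _ _) (hbig N hN)) D ?_ A1 (F x) (G x) lgF lgG
    (fun n => hG0 x n) ?_ ?_ A2 hcc hcc1 ?_ e P0 hεe hP0
  · intro N hN y hy hp
    by_contra hno
    have hyH : y ∉ H := by
      intro hyH
      rw [hH, mem_biUnion] at hyH
      obtain ⟨j, _, hj⟩ := hyH
      exact hno ⟨j, hj⟩
    obtain ⟨p, hp1, hp2, hp3⟩ := hkill y hy hyH
    have hNw : w < N := lt_of_le_of_lt (le_max_right _ _) (hbig N hN)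
    have hmod : N ≡ β [MOD primorial w] := ((hmemT N).1 hN).2.1
    have hpw : p ∣ primorial w := by
      unfold primorial
      apply Finset.dvd_prod_of_mem
      rw [mem_filter, mem_range]
      exact ⟨by omega, hp1⟩
    have hmod2 : N + y ≡ β + y [MOD p] := (hmod.of_dvd hpw).add_right y
    have hdvd : p ∣ N + y := (hmod2.dvd_iff dvd_rfl).2 hp3
    have := (Nat.prime_dvd_prime_iff_eq hp1 hp).1 hdvd
    omega
  · intro y N hN hp
    have h6 := x5 y N ((hmemT N).1 hN).1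
    rw [hh y] at h6
    refine ⟨fun i => ?_, xM1 (N + y.1) hp h6.2.1 h6.2.2⟩
    rw [hm, mm, hh y]
    exact mc_prime hx1 ha haL hp (hsq _ h6.2.1) i.2
  · intro y N hN h0 hFp
    have h6 := x5 y N ((hmemT N).1 hN).1
    have h7 := rough_of (L := L) hx1 ha haL h ((hmemT N).1 hN).2 y (by
      intro i
      have := h0 i
      rw [hm] at this
      exact this)
    rw [hh y] at h6 h7
    exact xS (N + y.1) h6.2.1 h6.2.2 h7 hFp
  · have h8 : pr x a0 ≤ (1 + ε) * (2 ^ L * pr x a) := by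
      have h9 : (2 : ℝ) ^ L * ((1 / 2) ^ L * pr x a0) ≤ 2 ^ L * ((1 + ε) * pr x a) :=
        mul_le_mul_of_nonneg_left x6 (by positivity)
      have h10 : (2 : ℝ) ^ L * ((1 / 2) ^ L * pr x a0) = pr x a0 := by
        rw [← mul_assoc, ← mul_pow]
        norm_num
      rw [h10] at h9
      linarith
    calc cc * EG x ≤ (1 + ε) * pr x a0 := xM2
      _ ≤ (1 + ε) * ((1 + ε) * (2 ^ L * pr x a)) := by
          apply mul_le_mul_of_nonneg_left h8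
          positivity
      _ = _ := by ring

end Pool.Agent.H92.MM
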