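import Pool.Agent.H92.MM.Th

/-!
# [H92 MM RG] Means with the sieve factors of one shift

`b`, all `c` even, `tl b ≤ 1/100`.  `tau c = 18 tl c`.  Write `ψ t = th b y i t * th b y' i t`; `ψ 0 = 1`, `1-u` or `(1-u)^2`,
so `ψ 0 ≥ (1-u)^2 ≥ 1/9` (`u ≤ 51/100`), `|ψ t| ≤ 4^t`.
* `rg_plus`: `f t = ψ t * Ub c t`: `|f t| ≤ 8^t`, `f t = 0` for `1 ≤ t ≤ c` (`ub_van`), `f 0 = ψ 0`; `po_tail` gives
  `|po f - ψ 0/2| ≤ tl c ≤ 9 tl c ψ 0 = tau c * (ψ 0/2)`.
* `rg_cor`: `f t = ψ t * C(t, c+1)`: `f t = 0` for `t ≤ c`; `|f t| ≤ 8^t`.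
* `ker_plus`: product over `i` of the numbers `po (..) = (ψ_i 0/2)(1 + e_i)`, `|e_i| ≤ tau (bi i)`:
  `|∏ (1 + e_i) - 1| ≤ ∏ (1 + |e_i|) - 1 ≤ Δ` (induction on the finset, or `Finset.prod_add`..), and
  `∏_i ψ_i 0/2 = (1/2)^L vv b y vv b y'` (`th_zero_prod`).
* `ker_cor`: the factor `i0` is at most `tau (bi i0)` times, the others at most `1 + tau (bi i)` times `ψ_i 0/2`; and
  `∏_{i ≠ i0} (1 + tau) ≤ ∏_i (1 + tau) ≤ 1 + Δ`.
* `sum_tau`: `1 + ∑ tau ≤ ∏ (1 + tau)` (`Finset.one_add_sum_le_prod_one_add` or induction).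
-/

namespace Pool.Agent.H92.MM

open Finset

noncomputable def tau (c : ℕ) : ℝ := 18 * tl c

/-- the mean of `η_y η_y'` times the product of the functions `α i` of the counts of one shift -/
noncomputable def ker {L : ℕ} (b : ℕ) (α : Fin L → ℕ → ℝ) (y y' : ℕ) : ℝ :=
  ∏ i : Fin L, po (fun t => th b y i t * th b y' i t * α i t)

/-- the factors of the upper sieve -/
noncomputable def aP {L : ℕ} (bi : Fin L → ℕ) (i : Fin L) (t : ℕ) : ℝ := Ub (bi i) t

/-- the factors of the `i0`-th correction -/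
noncomputable def aC {L : ℕ} (bi : Fin L → ℕ) (i0 i : Fin L) (t : ℕ) : ℝ :=
  if i = i0 then (t.choose (bi i + 1) : ℝ) else Ub (bi i) t

private theorem tau_pos (c : ℕ) : 0 < tau c := by
  unfold tau
  have := tl_pos c
  linarith

private theorem th0_bd {b : ℕ} (hb : Even b) (ht : tl b ≤ 1 / 100) (y i : ℕ) :
    49 / 100 ≤ th b y i 0 ∧ th b y i 0 ≤ 1 := by
  have h1 := uu_bd hb
  rw [th_zero]
  split_ifs
  · constructor <;> linarith [h1.1, h1.2]
  · constructor <;> norm_num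

private theorem tl_le {b : ℕ} (hb : Even b) (ht : tl b ≤ 1 / 100) (c y y' i : ℕ) :
    tl c ≤ tau c * (th b y i 0 * th b y' i 0 / 2) := by
  obtain ⟨h1, _⟩ := th0_bd hb ht y i
  obtain ⟨h2, _⟩ := th0_bd hb ht y' i
  have h3 : (49 / 100 : ℝ) * (49 / 100) ≤ th b y i 0 * th b y' i 0 :=
    mul_le_mul h1 h2 (by norm_num) (by linarith)
  have h4 := tl_pos c
  unfold tau
  nlinarith

private theorem ps_abs {b : ℕ} (hb : Even b) (ht : tl b ≤ 1 / 100) (y y' i t : ℕ) {x : ℝ}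
    (hx : |x| ≤ 2 ^ t) : |th b y i t * th b y' i t * x| ≤ 8 ^ t := by
  rw [abs_mul, abs_mul]
  have h1 := th_abs hb ht y i t
  have h2 := th_abs hb ht y' i t
  calc |th b y i t| * |th b y' i t| * |x| ≤ 2 ^ t * 2 ^ t * 2 ^ t := by gcongr
    _ = 8 ^ t := by
      rw [← mul_pow, ← mul_pow]
      norm_num

private theorem ub_abs {c : ℕ} (hc : Even c) (t : ℕ) : |Ub c t| ≤ 2 ^ t := by
  rw [abs_of_nonneg (ub_nonneg hc t)]
  exact ub_le hc t

theorem rg_plus {b : ℕ} (hb : Even b) (ht : tl b ≤ 1 / 100) {c : ℕ} (hc : Even c) (y y' i : ℕ) :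
    |po (fun t => th b y i t * th b y' i t * Ub c t) - th b y i 0 * th b y' i 0 / 2| ≤
      tau c * (th b y i 0 * th b y' i 0 / 2) := by
  have h1 := po_tail (f := fun t => th b y i t * th b y' i t * Ub c t) c
    (fun m => ps_abs hb ht y y' i m (ub_abs hc m))
    (fun m hm1 hm2 => by rw [ub_van c m hm1 hm2, mul_zero])
  simp only [ub_zero, mul_one] at h1
  exact h1.trans (tl_le hb ht c y y' i)

theorem rg_cor {b : ℕ} (hb : Even b) (ht : tl b ≤ 1 / 100) {c : ℕ} (y y' i : ℕ) :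
    |po (fun t => th b y i t * th b y' i t * (t.choose (c + 1) : ℝ))| ≤
      tau c * (th b y i 0 * th b y' i 0 / 2) := by
  have h1 := po_tail (f := fun t => th b y i t * th b y' i t * (t.choose (c + 1) : ℝ)) c
    (fun m => ps_abs hb ht y y' i m (by
      rw [Nat.abs_cast]
      exact_mod_cast Nat.choose_le_two_pow m (c + 1)))
    (fun m _ hm2 => by
      rw [Nat.choose_eq_zero_of_lt (by omega)]
      simp)
  simp only [Nat.choose_zero_succ, Nat.cast_zero, mul_zero, zero_div, sub_zero] at h1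
  exact h1.trans (tl_le hb ht c y y' i)

private theorem sum_prod {κ : Type*} [DecidableEq κ] (s : Finset κ) (f : κ → ℝ)
    (hf : ∀ i, 0 ≤ f i) : 1 + ∑ i ∈ s, f i ≤ ∏ i ∈ s, (1 + f i) := by
  induction s using Finset.induction_on with
  | empty => simp
  | insert a s ha ih =>
    rw [Finset.sum_insert ha, Finset.prod_insert ha]
    have h1 : 0 ≤ ∑ i ∈ s, f i := Finset.sum_nonneg fun i _ => hf i
    have h2 := hf a
    nlinarith [mul_nonneg h2 h1, mul_le_mul_of_nonneg_left ih (by linarith : 0 ≤ 1 + f a)]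

theorem sum_tau {L : ℕ} (bi : Fin L → ℕ) : 1 + ∑ i, tau (bi i) ≤ ∏ i, (1 + tau (bi i)) :=
  sum_prod _ _ fun i => (tau_pos _).le

theorem vv_pos {b : ℕ} (hb : Even b) (ht : tl b ≤ 1 / 100) (y : ℕ) : 0 < vv b y := by
  have h1 := uu_bd hb
  unfold vv
  split_ifs
  · norm_num
  · linarith [h1.2]

private theorem prod_near {κ : Type*} [DecidableEq κ] (s : Finset κ) (P Q τ : κ → ℝ)
    (hQ : ∀ i, 0 ≤ Q i) (hτ : ∀ i, 0 ≤ τ i) (h : ∀ i, |P i - Q i| ≤ τ i * Q i) :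
    |∏ i ∈ s, P i - ∏ i ∈ s, Q i| ≤ (∏ i ∈ s, (1 + τ i) - 1) * ∏ i ∈ s, Q i := by
  induction s using Finset.induction_on with
  | empty => simp
  | insert a s ha ih =>
    rw [Finset.prod_insert ha, Finset.prod_insert ha, Finset.prod_insert ha]
    have h1 : 0 ≤ ∏ i ∈ s, Q i := Finset.prod_nonneg fun i _ => hQ i
    have h2 : |P a| ≤ (1 + τ a) * Q a := by
      have h3 : |P a| ≤ |P a - Q a| + |Q a| := by
        have := abs_add_le (P a - Q a) (Q a)
        rwa [sub_add_cancel] at this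
      rw [abs_of_nonneg (hQ a)] at h3
      have h4 := h a
      linarith
    have h5 : P a * ∏ i ∈ s, P i - Q a * ∏ i ∈ s, Q i =
        P a * (∏ i ∈ s, P i - ∏ i ∈ s, Q i) + (P a - Q a) * ∏ i ∈ s, Q i := by ring
    rw [h5]
    refine (abs_add_le _ _).trans ?_
    rw [abs_mul, abs_mul, abs_of_nonneg h1]
    calc |P a| * |∏ i ∈ s, P i - ∏ i ∈ s, Q i| + |P a - Q a| * ∏ i ∈ s, Q i
        ≤ ((1 + τ a) * Q a) * ((∏ i ∈ s, (1 + τ i) - 1) * ∏ i ∈ s, Q i) +
          (τ a * Q a) * ∏ i ∈ s, Q i := by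
          refine add_le_add ?_ (mul_le_mul_of_nonneg_right (h a) h1)
          exact mul_le_mul h2 ih (abs_nonneg _)
            (mul_nonneg (by linarith [hτ a]) (hQ a))
      _ = ((1 + τ a) * ∏ i ∈ s, (1 + τ i) - 1) * (Q a * ∏ i ∈ s, Q i) := by ring

private theorem Q_prod {L : ℕ} (b : ℕ) {y y' : ℕ} (hy : y ≤ L) (hy' : y' ≤ L) :
    ∏ i : Fin L, (th b y i 0 * th b y' i 0 / 2) = (1 / 2) ^ L * (vv b y * vv b y') := by
  rw [Finset.prod_div_distrib, Finset.prod_mul_distrib, th_zero_prod b y hy, th_zero_prod b y' hy',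
    Finset.prod_const, Finset.card_univ, Fintype.card_fin, one_div, inv_pow]
  ring

private theorem Q_nonneg {b : ℕ} (hb : Even b) (ht : tl b ≤ 1 / 100) (y y' i : ℕ) :
    0 ≤ th b y i 0 * th b y' i 0 / 2 := by
  obtain ⟨h1, _⟩ := th0_bd hb ht y i
  obtain ⟨h2, _⟩ := th0_bd hb ht y' i
  have : 0 ≤ th b y i 0 * th b y' i 0 := mul_nonneg (by linarith) (by linarith)
  linarith

theorem ker_plus {L : ℕ} {b : ℕ} (hb : Even b) (ht : tl b ≤ 1 / 100) (bi : Fin L → ℕ)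
    (hbi : ∀ i, Even (bi i)) {Δ : ℝ} (hΔ : ∏ i, (1 + tau (bi i)) ≤ 1 + Δ) {y y' : ℕ} (hy : y ≤ L)
    (hy' : y' ≤ L) :
    |ker b (aP bi) y y' - (1 / 2) ^ L * (vv b y * vv b y')| ≤
      Δ * ((1 / 2) ^ L * (vv b y * vv b y')) := by
  have h1 := prod_near (Finset.univ : Finset (Fin L))
    (fun i => po (fun t => th b y i t * th b y' i t * Ub (bi i) t))
    (fun i => th b y i 0 * th b y' i 0 / 2) (fun i => tau (bi i))
    (fun i => Q_nonneg hb ht y y' i) (fun i => (tau_pos _).le)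
    (fun i => rg_plus hb ht (hbi i) y y' i)
  rw [Q_prod b hy hy'] at h1
  have h2 : 0 ≤ (1 / 2 : ℝ) ^ L * (vv b y * vv b y') := by
    have h3 := vv_pos hb ht y
    have h4 := vv_pos hb ht y'
    positivity
  exact h1.trans (mul_le_mul_of_nonneg_right (by linarith) h2)

theorem ker_cor {L : ℕ} {b : ℕ} (hb : Even b) (ht : tl b ≤ 1 / 100) (bi : Fin L → ℕ)
    (hbi : ∀ i, Even (bi i)) {Δ : ℝ} (hΔ : ∏ i, (1 + tau (bi i)) ≤ 1 + Δ) {y y' : ℕ} (hy : y ≤ L)
    (hy' : y' ≤ L) (i0 : Fin L) :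
    |ker b (aC bi i0) y y'| ≤ tau (bi i0) * (1 + Δ) * ((1 / 2) ^ L * (vv b y * vv b y')) := by
  unfold ker
  rw [Finset.abs_prod, ← Q_prod b hy hy', ← Finset.mul_prod_erase _ _ (Finset.mem_univ i0),
    ← Finset.mul_prod_erase _ (fun i : Fin L => th b y i 0 * th b y' i 0 / 2)
      (Finset.mem_univ i0)]
  have hQ := fun i : Fin L => Q_nonneg hb ht y y' i
  have h1 : |po (fun t => th b y i0 t * th b y' i0 t * aC bi i0 i0 t)| ≤
      tau (bi i0) * (th b y i0 0 * th b y' i0 0 / 2) := by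
    have h2 := rg_cor hb ht (c := bi i0) y y' i0
    simpa [aC] using h2
  have h3 : ∏ i ∈ Finset.univ.erase i0, |po (fun t => th b y i t * th b y' i t * aC bi i0 i t)| ≤
      ∏ i ∈ Finset.univ.erase i0, ((1 + tau (bi i)) * (th b y i 0 * th b y' i 0 / 2)) := by
    refine Finset.prod_le_prod (fun i _ => abs_nonneg _) fun i hi => ?_
    have hne : i ≠ i0 := Finset.ne_of_mem_erase hi
    have h4 := rg_plus hb ht (hbi i) y y' i
    have h5 : (fun t => th b y i t * th b y' i t * aC bi i0 i t) =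
        fun t => th b y i t * th b y' i t * Ub (bi i) t := by
      funext t
      rw [aC, if_neg hne]
    rw [h5]
    have h6 := abs_add_le (po (fun t => th b y i t * th b y' i t * Ub (bi i) t) -
      th b y i 0 * th b y' i 0 / 2) (th b y i 0 * th b y' i 0 / 2)
    rw [sub_add_cancel, abs_of_nonneg (hQ i)] at h6
    linarith
  rw [Finset.prod_mul_distrib] at h3
  have h7 : ∏ i ∈ Finset.univ.erase i0, (1 + tau (bi i)) ≤ 1 + Δ := by
    refine le_trans ?_ hΔ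
    rw [← Finset.mul_prod_erase _ _ (Finset.mem_univ i0)]
    have h8 : 0 ≤ ∏ i ∈ Finset.univ.erase i0, (1 + tau (bi i)) :=
      Finset.prod_nonneg fun i _ => by linarith [tau_pos (bi i)]
    nlinarith [tau_pos (bi i0)]
  have h9 : 0 ≤ ∏ i ∈ Finset.univ.erase i0, (th b y i 0 * th b y' i 0 / 2) :=
    Finset.prod_nonneg fun i _ => hQ i
  have h10 := (tau_pos (bi i0)).le
  calc |po (fun t => th b y i0 t * th b y' i0 t * aC bi i0 i0 t)| *
        ∏ i ∈ Finset.univ.erase i0, |po (fun t => th b y i t * th b y' i t * aC bi i0 i t)|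
      ≤ (tau (bi i0) * (th b y i0 0 * th b y' i0 0 / 2)) *
        ((1 + Δ) * ∏ i ∈ Finset.univ.erase i0, (th b y i 0 * th b y' i 0 / 2)) := by
        refine mul_le_mul h1 (h3.trans (mul_le_mul_of_nonneg_right h7 h9))
          (Finset.prod_nonneg fun i _ => abs_nonneg _) (mul_nonneg h10 (hQ i0))
    _ = _ := by ring

theorem ker_one {L : ℕ} {b : ℕ} (hb : Even b) (ht : tl b ≤ 1 / 100) {y y' : ℕ} (hy : y ≤ L)
    (hy' : y' ≤ L) :
    ker (L := L) b (fun _ _ => 1) y y' = if y = y' then nn b y else 0 := by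
  unfold ker
  simp only [mul_one]
  split_ifs with h
  · subst h
    exact th_norm hb ht hy
  · exact th_orth hb ht hy hy' h

end Pool.Agent.H92.MM
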