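import Pool.Agent.H92.MM.Exp
import Pool.Agent.H92.MM.Rg
import Pool.Agent.H92.MM.Js

/-!
# [H92 MM MX] The expansion of `Av(σ^2 χ Φ)`

`σ = sg` = sum over `J ∈ JJ` of `∏_j η_(J j)`.  `χ j i` = polynomial factors (degree `Dχ j i`, `|χ j i t| ≤ 2^t`).

Proof of `main_sum`.  `σ^2 = ∑_J ∑_J' ∏_j ∏_i th b (J j) i * th b (J' j) i`.  For each pair `(J, J')` apply `expand` with
`p j i t = th b (J j) i t * th b (J' j) i t * χ j i t`, degree `D j i = (b if i < J j) + (b if i < J' j) + Dχ j i` (`th_dg`, `dg_mul`),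
`|p j i t| ≤ 8^t` (`th_abs`).  LEVEL: `lev_le`: for `J ∈ JJ`: `∑_j ∑_i (b if i < J j) a 2^(i+1) ≤ 2 b a ∑_j cost (J j) ≤ 2 b a B`
(`∑_{i < y} 2^(i+1) = 2^(y+1) - 2 ≤ 2 cost y`), so every `A ≤ D` has level `≤ 4 b a B + ∑∑ Dχ a 2^(i+1) ≤ η`.
ERROR: `∏∏ 2^(4 D + 1) ≤ 2^(∑∑ (4 (2b + Dχ) + 1))`, number of pairs `≤ ((l+1)^K)^2` (`card_JJ_le`).
`main_prime`: on the support of `P` the counts `m j0 i` vanish, so `∏_i th b (J j0) i (m j0 i N) = vv b (J j0)` (`th_zero_prod`,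
`J j0 ≤ l ≤ L`); take `p j0 i t = th b (J j0) i 0 * th b (J' j0) i 0` (constant, degree `0`), so only `A` with `A j0 = 0` occur.
-/

namespace Pool.Agent.H92.MM

open Finset

section

variable {ι : Type} [Fintype ι] [DecidableEq ι] {L : ℕ}

/-- `σ` -/
noncomputable def sg (b l : ℕ) (B : ℝ) (m : ι → Fin L → ℕ → ℕ) (N : ℕ) : ℝ :=
  ∑ J ∈ JJ ι l B, ∏ j, ∏ i : Fin L, th b (J j) i (m j i N)

/-- total level of degrees -/
noncomputable def dlev (a : ℝ) (D : ι → Fin L → ℕ) : ℝ :=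
  ∑ j, ∑ i : Fin L, (D j i : ℝ) * (a * 2 ^ ((i : ℕ) + 1))

/-- bound for the number of terms and the coefficients -/
noncomputable def XX (b l : ℕ) (D : ι → Fin L → ℕ) : ℝ :=
  (((l : ℝ) + 1) ^ Fintype.card ι) ^ 2 * 2 ^ (∑ j, ∑ i : Fin L, (4 * (2 * b + D j i) + 1))

private theorem geo2 (y : ℕ) : ∑ i ∈ range y, (2 : ℝ) ^ (i + 1) ≤ 2 * cost y := by
  have h1 : ∀ y : ℕ, ∑ i ∈ range y, (2 : ℝ) ^ (i + 1) = 2 ^ (y + 1) - 2 := by
    intro y
    induction y with
    | zero => simp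
    | succ y ih =>
      rw [Finset.sum_range_succ, ih]
      ring
  rw [h1, cost]
  split_ifs with h
  · subst h
    norm_num
  · rw [pow_succ]
    linarith

theorem lev_le {l b : ℕ} {a B : ℝ} (ha : 0 ≤ a) {J : ι → ℕ} (hJ : J ∈ JJ ι l B) :
    dlev (L := L) a (fun j i => if (i : ℕ) < J j then b else 0) ≤ 2 * b * a * B := by
  unfold dlev
  have h1 : ∀ j, ∑ i : Fin L, (((if (i : ℕ) < J j then b else 0 : ℕ) : ℝ)) *
      (a * 2 ^ ((i : ℕ) + 1)) ≤ 2 * b * a * cost (J j) := by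
    intro j
    have h2 : ∑ i : Fin L, (((if (i : ℕ) < J j then b else 0 : ℕ) : ℝ)) *
        (a * 2 ^ ((i : ℕ) + 1)) =
        b * a * ∑ i ∈ (range L).filter (fun i => i < J j), (2 : ℝ) ^ (i + 1) := by
      rw [Fin.sum_univ_eq_sum_range (fun i => (((if i < J j then b else 0 : ℕ) : ℝ)) *
        (a * 2 ^ (i + 1))) L, Finset.sum_filter, Finset.mul_sum]
      refine Finset.sum_congr rfl fun i _ => ?_
      split_ifs
      · ring
      · simp
    rw [h2]
    have h3 : ∑ i ∈ (range L).filter (fun i => i < J j), (2 : ℝ) ^ (i + 1) ≤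
        ∑ i ∈ range (J j), (2 : ℝ) ^ (i + 1) := by
      refine Finset.sum_le_sum_of_subset_of_nonneg ?_ fun i _ _ => by positivity
      intro i hi
      rw [Finset.mem_filter] at hi
      exact Finset.mem_range.2 hi.2
    calc (b : ℝ) * a * ∑ i ∈ (range L).filter (fun i => i < J j), (2 : ℝ) ^ (i + 1)
        ≤ b * a * (2 * cost (J j)) :=
          mul_le_mul_of_nonneg_left (h3.trans (geo2 _)) (by positivity)
      _ = _ := by ring
  refine (Finset.sum_le_sum fun j _ => h1 j).trans ?_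
  rw [← Finset.mul_sum]
  exact mul_le_mul_of_nonneg_left (mem_JJ.1 hJ).2 (by positivity)

private theorem sum_pairs (T : Finset ℕ) (ω : ℕ → ℝ) (S : Finset (ι → ℕ))
    (F : (ι → ℕ) → (ι → ℕ) → ℕ → ℝ) (G : (ι → ℕ) → (ι → ℕ) → ℝ) (E δ : ℝ)
    (h : ∀ J ∈ S, ∀ J' ∈ S, |AvT T ω (F J J') - G J J' * E| ≤ δ) :
    |AvT T ω (fun N => ∑ J ∈ S, ∑ J' ∈ S, F J J' N) - (∑ J ∈ S, ∑ J' ∈ S, G J J') * E| ≤
      (S.card : ℝ) ^ 2 * δ := by
  have h1 : AvT T ω (fun N => ∑ J ∈ S, ∑ J' ∈ S, F J J' N) =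
      ∑ J ∈ S, ∑ J' ∈ S, AvT T ω (F J J') := by
    unfold AvT
    simp only [Finset.mul_sum]
    rw [Finset.sum_comm]
    refine Finset.sum_congr rfl fun J _ => ?_
    rw [Finset.sum_comm]
  rw [h1, Finset.sum_mul, ← Finset.sum_sub_distrib]
  refine (Finset.abs_sum_le_sum_abs _ _).trans ?_
  have h2 : ∀ J ∈ S, |∑ J' ∈ S, AvT T ω (F J J') - (∑ J' ∈ S, G J J') * E| ≤ S.card * δ := by
    intro J hJ
    rw [Finset.sum_mul, ← Finset.sum_sub_distrib]
    refine (Finset.abs_sum_le_sum_abs _ _).trans ((Finset.sum_le_sum fun J' hJ' => h J hJ J' hJ').trans ?_)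
    rw [Finset.sum_const, nsmul_eq_mul]
  refine (Finset.sum_le_sum h2).trans ?_
  rw [Finset.sum_const, nsmul_eq_mul]
  exact le_of_eq (by ring)

private theorem sl_le {a η : ℝ} (ha : 0 ≤ a) {A D : ι → Fin L → ℕ} (hAD : ∀ j i, A j i ≤ D j i)
    (hD : dlev a D ≤ η) : sl a L A ≤ η := by
  refine le_trans ?_ hD
  unfold sl dlev
  refine Finset.sum_le_sum fun j _ => Finset.sum_le_sum fun i _ => ?_
  have h1 : (A j i : ℝ) ≤ D j i := by exact_mod_cast hAD j i
  exact mul_le_mul_of_nonneg_right h1 (by positivity)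

private theorem dlev_add (a : ℝ) (D D' : ι → Fin L → ℕ) :
    dlev a (fun j i => D j i + D' j i) = dlev a D + dlev a D' := by
  unfold dlev
  rw [← Finset.sum_add_distrib]
  refine Finset.sum_congr rfl fun j _ => ?_
  rw [← Finset.sum_add_distrib]
  refine Finset.sum_congr rfl fun i _ => ?_
  push_cast
  ring

private theorem dlev_mono {a : ℝ} (ha : 0 ≤ a) {D D' : ι → Fin L → ℕ}
    (h : ∀ j i, D j i ≤ D' j i) : dlev a D ≤ dlev a D' := by
  unfold dlev
  refine Finset.sum_le_sum fun j _ => Finset.sum_le_sum fun i _ => ?_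
  have h1 : (D j i : ℝ) ≤ D' j i := by exact_mod_cast h j i
  exact mul_le_mul_of_nonneg_right h1 (by positivity)

private theorem prod_pow_le (b : ℕ) {D D' : ι → Fin L → ℕ}
    (h : ∀ j i, D' j i ≤ 2 * b + D j i) :
    ∏ j, ∏ i, (2 : ℝ) ^ (4 * D' j i + 1) ≤
      2 ^ (∑ j, ∑ i : Fin L, (4 * (2 * b + D j i) + 1)) := by
  have h1 : ∏ j, ∏ i, (2 : ℝ) ^ (4 * D' j i + 1) = 2 ^ (∑ j, ∑ i : Fin L, (4 * D' j i + 1)) := by
    rw [← Finset.prod_pow_eq_pow_sum]
    refine Finset.prod_congr rfl fun j _ => ?_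
    rw [Finset.prod_pow_eq_pow_sum]
  rw [h1]
  refine pow_le_pow_right₀ (by norm_num) ?_
  refine Finset.sum_le_sum fun j _ => Finset.sum_le_sum fun i _ => ?_
  have := h j i
  omega

private theorem card_step (l : ℕ) (B : ℝ) (b : ℕ) {ϖ : ℝ} (hϖ : 0 ≤ ϖ) (D : ι → Fin L → ℕ) :
    ((JJ ι l B).card : ℝ) ^ 2 * (ϖ * 2 ^ (∑ j, ∑ i : Fin L, (4 * (2 * b + D j i) + 1))) ≤
      ϖ * XX b l D := by
  have h1 : ((JJ ι l B).card : ℝ) ≤ ((l : ℝ) + 1) ^ Fintype.card ι := by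
    exact_mod_cast card_JJ_le ι l B
  have h2 : ((JJ ι l B).card : ℝ) ^ 2 ≤ (((l : ℝ) + 1) ^ Fintype.card ι) ^ 2 :=
    pow_le_pow_left₀ (by positivity) h1 2
  unfold XX
  calc ((JJ ι l B).card : ℝ) ^ 2 * (ϖ * 2 ^ (∑ j, ∑ i : Fin L, (4 * (2 * b + D j i) + 1)))
      ≤ (((l : ℝ) + 1) ^ Fintype.card ι) ^ 2 *
        (ϖ * 2 ^ (∑ j, ∑ i : Fin L, (4 * (2 * b + D j i) + 1))) :=
        mul_le_mul_of_nonneg_right h2 (by positivity)
    _ = _ := by ring

private theorem pair_abs {b : ℕ} (hb : Even b) (ht : tl b ≤ 1 / 100) (y y' i t : ℕ) {x : ℝ}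
    (hx : |x| ≤ 2 ^ t) : |th b y i t * th b y' i t * x| ≤ 8 ^ t := by
  rw [abs_mul, abs_mul]
  have h1 := th_abs hb ht y i t
  have h2 := th_abs hb ht y' i t
  calc |th b y i t| * |th b y' i t| * |x| ≤ 2 ^ t * 2 ^ t * 2 ^ t := by gcongr
    _ = 8 ^ t := by
      rw [← mul_pow, ← mul_pow]
      norm_num

private theorem pair_lev {l b : ℕ} {a B : ℝ} (ha : 0 ≤ a) {J J' : ι → ℕ} (hJ : J ∈ JJ ι l B)
    (hJ' : J' ∈ JJ ι l B) :
    dlev (L := L) a (fun j i => (if (i : ℕ) < J j then b else 0) +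
      (if (i : ℕ) < J' j then b else 0)) ≤ 4 * b * a * B := by
  rw [dlev_add]
  have h1 := lev_le (L := L) (b := b) ha hJ
  have h2 := lev_le (L := L) (b := b) ha hJ'
  linarith

theorem main_sum {l b : ℕ} (hl : l ≤ L) (hb : Even b) (ht : tl b ≤ 1 / 100) {a B η ϖ : ℝ}
    (ha : 0 ≤ a) (hϖ : 0 ≤ ϖ) (T : Finset ℕ) (ω : ℕ → ℝ) (m : ι → Fin L → ℕ → ℕ)
    (χ : ι → Fin L → ℕ → ℝ)
    (D : ι → Fin L → ℕ) (hχ : ∀ j i, Dg (D j i) (χ j i)) (hχ1 : ∀ j i t, |χ j i t| ≤ 2 ^ t)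
    (hlev : 4 * b * a * B + dlev a D ≤ η) (Φ : ℕ → ℝ) (E : ℝ)
    (hA : ∀ A : ι → Fin L → ℕ, sl a L A ≤ η →
      |AvT T ω (fun N => mon m A N * Φ N) - sv L A * E| ≤ ϖ) :
    |AvT T ω (fun N => sg b l B m N ^ 2 * (∏ j, ∏ i, χ j i (m j i N)) * Φ N) -
      (∑ J ∈ JJ ι l B, ∑ J' ∈ JJ ι l B, ∏ j, ker b (χ j) (J j) (J' j)) * E| ≤
      ϖ * XX b l D := by
  have hrw : (fun N => sg b l B m N ^ 2 * (∏ j, ∏ i, χ j i (m j i N)) * Φ N) =
      fun N => ∑ J ∈ JJ ι l B, ∑ J' ∈ JJ ι l B,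
        (∏ j, ∏ i : Fin L, (th b (J j) i (m j i N) * th b (J' j) i (m j i N) *
          χ j i (m j i N))) * Φ N := by
    funext N
    unfold sg
    rw [sq, Finset.sum_mul_sum, Finset.sum_mul, Finset.sum_mul]
    refine Finset.sum_congr rfl fun J _ => ?_
    rw [Finset.sum_mul, Finset.sum_mul]
    refine Finset.sum_congr rfl fun J' _ => ?_
    simp only [Finset.prod_mul_distrib]
  rw [hrw]
  refine (sum_pairs T ω (JJ ι l B) (fun J J' N => (∏ j, ∏ i : Fin L,
    (th b (J j) i (m j i N) * th b (J' j) i (m j i N) * χ j i (m j i N))) * Φ N)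
    (fun J J' => ∏ j, ker b (χ j) (J j) (J' j)) E
    (ϖ * 2 ^ (∑ j, ∑ i : Fin L, (4 * (2 * b + D j i) + 1))) ?_).trans (card_step l B b hϖ D)
  intro J hJ J' hJ'
  have h1 := expand T ω m (fun j i t => th b (J j) i t * th b (J' j) i t * χ j i t)
    (fun j i => ((if (i : ℕ) < J j then b else 0) + (if (i : ℕ) < J' j then b else 0)) + D j i)
    (fun j i => dg_mul (dg_mul (th_dg b (J j) i) (th_dg b (J' j) i)) (hχ j i))
    (fun j i t => pair_abs hb ht (J j) (J' j) i t (hχ1 j i t)) Φ E ϖ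
    (fun A hAD => hA A (sl_le ha hAD (by
      rw [dlev_add]
      have h2 := pair_lev (L := L) (b := b) ha hJ hJ'
      linarith)))
  refine h1.trans (mul_le_mul_of_nonneg_left (prod_pow_le b fun j i => ?_) hϖ)
  split_ifs <;> omega

open Classical in
theorem main_prime {l b : ℕ} (hl : l ≤ L) (hb : Even b) (ht : tl b ≤ 1 / 100) {a B η ϖ : ℝ}
    (ha : 0 ≤ a) (hϖ : 0 ≤ ϖ) (T : Finset ℕ) (ω : ℕ → ℝ) (m : ι → Fin L → ℕ → ℕ) (j0 : ι)
    (hlev : 4 * b * a * B ≤ η) (P : ℕ → Prop) (E : ℝ)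
    (hP : ∀ N ∈ T, P N → ∀ i, m j0 i N = 0)
    (hA : ∀ A : ι → Fin L → ℕ, (∀ i, A j0 i = 0) → sl a L A ≤ η →
      |AvT T ω (fun N => mon m A N * (if P N then 1 else 0)) - sv L A * E| ≤ ϖ) :
    |AvT T ω (fun N => sg b l B m N ^ 2 * (if P N then 1 else 0)) -
      (∑ J ∈ JJ ι l B, ∑ J' ∈ JJ ι l B, ∏ j, (if j = j0 then vv b (J j) * vv b (J' j) else
        ker (L := L) b (fun _ _ => 1) (J j) (J' j))) * E| ≤
      ϖ * XX (L := L) (ι := ι) b l (fun _ _ => 0) := by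
  have hrw : (fun N => sg b l B m N ^ 2 * (if P N then (1 : ℝ) else 0)) =
      fun N => ∑ J ∈ JJ ι l B, ∑ J' ∈ JJ ι l B,
        (∏ j, ∏ i : Fin L, (th b (J j) i (m j i N) * th b (J' j) i (m j i N))) *
          (if P N then (1 : ℝ) else 0) := by
    funext N
    unfold sg
    rw [sq, Finset.sum_mul_sum, Finset.sum_mul]
    refine Finset.sum_congr rfl fun J _ => ?_
    rw [Finset.sum_mul]
    refine Finset.sum_congr rfl fun J' _ => ?_
    simp only [Finset.prod_mul_distrib]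
  rw [hrw]
  refine (sum_pairs T ω (JJ ι l B) (fun J J' N => (∏ j, ∏ i : Fin L,
    (th b (J j) i (m j i N) * th b (J' j) i (m j i N))) * (if P N then (1 : ℝ) else 0))
    (fun J J' => ∏ j, (if j = j0 then vv b (J j) * vv b (J' j) else
        ker (L := L) b (fun _ _ => 1) (J j) (J' j))) E
    (ϖ * 2 ^ (∑ _j : ι, ∑ _i : Fin L, (4 * (2 * b + 0) + 1))) ?_).trans
    (card_step l B b hϖ (fun _ _ => 0))
  intro J hJ J' hJ'
  have h1 := expand T ω m (fun j i t => if j = j0 then th b (J j) i 0 * th b (J' j) i 0 else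
      th b (J j) i t * th b (J' j) i t)
    (fun j i => if j = j0 then 0 else
      (if (i : ℕ) < J j then b else 0) + (if (i : ℕ) < J' j then b else 0))
    (fun j i => by
      by_cases hj : j = j0
      · simp only [hj, if_true]
        exact dg_const _ _
      · simp only [hj, if_false]
        exact dg_mul (th_dg b (J j) i) (th_dg b (J' j) i))
    (fun j i t => by
      by_cases hj : j = j0
      · simp only [hj, if_true]
        have h2 := pair_abs hb ht (J j0) (J' j0) i 0 (x := 1) (by norm_num)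
        rw [mul_one, pow_zero] at h2
        exact h2.trans (one_le_pow₀ (by norm_num))
      · simp only [hj, if_false]
        have h2 := pair_abs hb ht (J j) (J' j) i t (x := 1) (by
          rw [abs_one]
          exact one_le_pow₀ (by norm_num))
        rwa [mul_one] at h2)
    (fun N => if P N then (1 : ℝ) else 0) E ϖ
    (fun A hAD => hA A (fun i => by
        have h3 := hAD j0 i
        rw [if_pos rfl] at h3
        omega) (sl_le ha hAD (by
      have h2 := pair_lev (L := L) (b := b) ha hJ hJ'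
      refine (dlev_mono ha fun j i => ?_).trans (h2.trans hlev)
      split_ifs <;> omega)))
  have hJl := (mem_JJ.1 hJ).1 j0
  have hJl' := (mem_JJ.1 hJ').1 j0
  have e1 : AvT T ω (fun N => (∏ j, ∏ i : Fin L,
      (if j = j0 then th b (J j) i 0 * th b (J' j) i 0 else
        th b (J j) i (m j i N) * th b (J' j) i (m j i N))) * (if P N then (1 : ℝ) else 0)) =
      AvT T ω (fun N => (∏ j, ∏ i : Fin L,
        (th b (J j) i (m j i N) * th b (J' j) i (m j i N))) * (if P N then (1 : ℝ) else 0)) := by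
    unfold AvT
    refine Finset.sum_congr rfl fun N hN => ?_
    beta_reduce
    by_cases hPN : P N
    · have h5 : (∏ j, ∏ i : Fin L,
          (if j = j0 then th b (J j) i 0 * th b (J' j) i 0 else
            th b (J j) i (m j i N) * th b (J' j) i (m j i N))) =
          ∏ j, ∏ i : Fin L, (th b (J j) i (m j i N) * th b (J' j) i (m j i N)) := by
        refine Finset.prod_congr rfl fun j _ => Finset.prod_congr rfl fun i _ => ?_
        by_cases hj : j = j0
        · rw [if_pos hj, hj, hP N hN hPN i]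
        · rw [if_neg hj]
      rw [h5]
    · simp only [if_neg hPN, mul_zero]
  have e2 : (∏ j, ∏ i : Fin L, po (fun t => if j = j0 then th b (J j) i 0 * th b (J' j) i 0 else
      th b (J j) i t * th b (J' j) i t)) =
      ∏ j, (if j = j0 then vv b (J j) * vv b (J' j) else
        ker (L := L) b (fun _ _ => 1) (J j) (J' j)) := by
    refine Finset.prod_congr rfl fun j _ => ?_
    by_cases hj : j = j0
    · subst hj
      simp only [if_true, po_const]
      rw [Finset.prod_mul_distrib, th_zero_prod b (J j) (hJl.trans hl),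
        th_zero_prod b (J' j) (hJl'.trans hl)]
    · simp only [hj, if_false]
      unfold ker
      simp only [mul_one]
  rw [e1, e2] at h1
  refine h1.trans (mul_le_mul_of_nonneg_left (prod_pow_le b (D := fun _ _ => 0) fun j i => ?_) hϖ)
  split_ifs <;> omega

end

end Pool.Agent.H92.MM
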