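import Pool.Agent.H92.MM.Sqb
import Pool.Agent.H92.MM.Lo
import Pool.Agent.H89.P2.All
import Pool.Agent.H11.RG.Fin

/-!
# The `P_2` weights satisfy the hypotheses of `loc_of_laws`
-/

namespace Pool.Agent.H92.MM

open Finset Filter Pool.Agent.H89.P2 Pool.Agent.H11.PT Pool.Agent.H11.RG

theorem wts_F (η a0 : ℝ) (hη : 0 < η) (hη1 : η ≤ 1 / 2000) (ha0 : 0 < a0) (ha1 : a0 ≤ 1 / 20) :
    ∃ (F : ℝ → ℕ → ℝ) (EF : ℝ → ℝ),
      Wt (η / 1000) 10 a0 (1 / 100 * a0) (2 * Real.exp (3 / a0)) F EF ∧ Sgn Pool.Agent.H21.CP.Q2 a0 F := by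
  classical
  obtain ⟨J, W, hJ, _, h1, h2, ⟨x0, hx0⟩, h3, h4⟩ := weights_final a0 ha0 ha1
  have hJR : (0 : ℝ) < J := by exact_mod_cast hJ
  have hδ : 0 < a0 / J := by positivity
  have hok : Okw (a0 / J) a0 W := ⟨fun w hw j hj => (h1 w hw j hj).2.1, h2⟩
  have hpl : PairLaw (η / 1000) (10 + 1) a0 (fun x n => ev2 W (kk x (a0 / J) n))
      (fun _ => mv2 W Pool.Agent.H89.P2.mu) :=
    pair_law_p2 η (10 + 1) a0 (a0 / J) hη1 (by norm_num) ha0 ha1 hδ W hok
  have hexp : Real.exp (2 / a0) ≤ Real.exp (3 / a0) := by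
    apply Real.exp_le_exp.2
    gcongr
    norm_num
  have hbd : ∀ᶠ x : ℝ in atTop, ∀ n : ℕ, 0 < n → (n : ℝ) ≤ x ^ (1 + 1 / 1000 : ℝ) →
      |ev2 W (kk x (a0 / J) n)| ≤ 2 * Real.exp (3 / a0) := by
    filter_upwards [eventually_ge_atTop x0] with x hx n hn hnx
    have := (hx0 x hx n hn hnx).2
    linarith
  have hlaw := sq_law (η / 1000) 10 a0 (2 * Real.exp (3 / a0)) (by positivity) (by norm_num) ha0
    ha1 _ _ hpl hbd
  refine ⟨_, _, ⟨hlaw, ?_, ?_, ?_⟩, ?_⟩
  · filter_upwards [hbd] with x hx n hn hnx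
    split_ifs
    · rw [abs_zero]
      positivity
    · exact hx n hn hnx
  · exact Eventually.of_forall fun x => by linarith
  · refine Eventually.of_forall fun x => ?_
    have h5 : mv2 W Pool.Agent.H89.P2.mu ≤ mva2 W Pool.Agent.H89.P2.mu := by
      unfold mv2 mva2
      apply List.sum_le_sum
      intro w hw
      apply mul_le_mul_of_nonneg_right (le_abs_self _)
      apply List.prod_nonneg
      intro y hy
      obtain ⟨j, hj, rfl⟩ := List.mem_map.1 hy
      unfold Pool.Agent.H89.P2.mu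
      apply Real.log_nonneg
      have hj0 : 0 < (j : ℝ) := by
        have h6 := (h1 w hw j hj).1
        have : (0 : ℕ) < j := lt_of_lt_of_le hJ h6
        exact_mod_cast this
      rw [le_div_iff₀ hj0]
      linarith
    have h6 : 1 / a0 ≤ Real.exp (3 / a0) := by
      have h7 := Real.add_one_le_exp (3 / a0)
      have h8 : 1 / a0 ≤ 3 / a0 := by
        gcongr
        norm_num
      linarith
    have h7 : 0 < Real.exp (3 / a0) := Real.exp_pos _
    linarith
  · filter_upwards [eventually_ge_atTop x0, eventually_ge_atTop (4 : ℝ)] with x hx hx1 n hn hnx hr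
      hpos
    have hn0 : 0 < n := by
      have : (0 : ℝ) < n := lt_of_le_of_lt (Real.sqrt_nonneg x) hn
      exact_mod_cast this
    by_cases hs : Sqb x a0 n
    · rw [if_pos hs] at hpos
      exact absurd hpos (lt_irrefl _)
    · rw [if_neg hs] at hpos
      obtain ⟨e1, e2⟩ := (hx0 x hx n hn0 hnx).1 hr (sq_free hn0 hr hs) hpos
      refine ⟨?_, e1, e2⟩
      have h8 : (1 : ℝ) < n := by
        refine lt_of_le_of_lt ?_ hn
        rw [Real.one_le_sqrt]
        linarith
      have h9 : 1 < n := by exact_mod_cast h8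
      omega

end Pool.Agent.H92.MM
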