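import Pool.Agent.H92.MM.Mn
import Pool.Agent.H92.MM.Wf
import Pool.Agent.H95.L1.One
import Pool.Agent.H14.L2.Pri
import Pool.Agent.H63.CF.Prd
import Pool.Agent.H1.SG.G

/-!
# The local information, unconditional, with constant `1/4`
-/

namespace Pool.Agent.H92.MM

open Finset Filter Pool.Agent.H11.RG

theorem wts_G4 (ε : ℝ) (hε : 0 < ε) : ∃ η : ℝ, 0 < η ∧ η ≤ 1 / 2000 ∧ ∀ a0 : ℝ, 0 < a0 →
    a0 ≤ 1 / 20 → ∃ (G : ℝ → ℕ → ℝ) (EG : ℝ → ℝ),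
      Wt (η / 1000) 10 a0 (1 / 100 * a0) (2 * Real.exp (3 / a0)) G EG ∧ Maj (1 / 4) ε a0 G EG := by
  obtain ⟨κ, hκ, hκ1, h⟩ := Pool.Agent.H1.SG.hG_div ε hε
  refine ⟨κ, hκ, hκ1, fun a0 ha0 ha1 => ?_⟩
  obtain ⟨c, C, hc, hsq, h1, h2, h3, h4, h5, h6⟩ := h a0 ha0 ha1
  have hlaw := pair_law_div κ 10 a0 κ C hκ hκ1 (by norm_num) ha0 ha1 le_rfl (by linarith) c hc hsq
  refine ⟨dv c, dm c, ⟨hlaw, h1, h2, h3⟩, h4, ?_, ?_⟩
  · filter_upwards [h5] with x hx n hn hn2 _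
    exact hx n hn hn2
  · filter_upwards [h6] with x hx
    linarith

theorem locD_quarter (k : ℕ) (hk : 1 ≤ k) :
    Pool.Agent.H21.CP.LocD (1 / 4) Pool.Agent.H21.CP.Q2 k := by
  refine loc_of_laws (1 / 4) (by norm_num) (by norm_num) _ k hk (1 / 100) (by norm_num)
    (by norm_num) Pool.Agent.H63.CF.mer fun ε hε => ?_
  obtain ⟨η, hη, hη1, hG⟩ := wts_G4 ε hε
  refine ⟨η / 1000, by positivity, by linarith, Pool.Agent.H95.L1.one_law _ _ (by positivity)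
    (by linarith) (by norm_num), Pool.Agent.H14.L2.prime_law _ _ (by positivity) (by linarith)
    (by norm_num), fun a0 ha0 ha1 => ⟨wts_F η a0 hη hη1 ha0 ha1, hG a0 ha0 ha1⟩⟩

end Pool.Agent.H92.MM
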