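import Pool.Agent.H92.MM.Fd

/-!
# [H92 MM FA] Moments: normalisation and one shift

Notation of the headers: `K = card ι`, `n = bn b l ≥ 1`, `S = bS b l`, `AA = (1/2)^L S^2/n`, `z = Av σ^2`.

KERNELS.  For a shift without sieve factor `ker b (fun _ _ => 1) y y' = [y = y'] nn b y` (`ker_one`, `y, y' ≤ l ≤ L`), full sum `n`.
With the upper sieve: `(1-Δ) (1/2)^L vv vv' ≤ ker b (aP bi) ≤ (1+Δ) (1/2)^L vv vv'` (`ker_plus`), full sum between `(1 ∓ Δ) (1/2)^L S^2`.
With the `i0`-th correction `|ker b (aC bi i0)| ≤ tau (bi i0) (1+Δ) (1/2)^L vv vv'` and `∑_i0 tau (bi i0) ≤ Δ` (`sum_tau`, `hΔ`), `(1+Δ)^2 ≤ 2`.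
* upper bounds: `js_ub`; product over the `K - 1` (`K - 2`) other shifts is `n^(K-1)` (`n^(K-2)`), and
  `n^(K-1) (1/2)^L S^2 = n^K AA`, `n^(K-2) ((1/2)^L S^2)^2 = n^K AA^2`.
* lower bounds: `js_lb` with `j1 = x`: for `j2 ≠ x`: `∑ cost y * ker = ∑ cost y nn b y ≤ l` (`bn_cost`) and
  `∏_{j ≠ j2} = (full product)/n ≤ full product`; there are `K - 1` such `j2` and `K l/(B - 2^l) ≤ ε` (`hK`): so
  `∑∑ ≥ (1 - ε) ∏ full sums`.
* `main_sum` with `Φ`, `χ j i t = 1` for the other shifts; the error is `≤ ϖ XX ≤ ϖ XT ≤ κ` (degrees `bi i` resp. `bi i + 1` at one or two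
  shifts, level `≤ η` by `hlev`); for `dl` sum over `i0` (`L` terms, error `L ϖ XT ≤ κ`).
* `fa_pr`: `main_prime`, kernel `vv b y vv b y'` at `j0`, full sum `S^2`, `n^(K-1) S^2 = 2^L n^K AA`.
-/

namespace Pool.Agent.H92.MM

open Finset

section

variable {ι : Type} [Fintype ι] [DecidableEq ι] {L : ℕ}

variable {l b : ℕ} {bi : Fin L → ℕ} {a B η ϖ ε Δ κ : ℝ} {T : Finset ℕ} {ω : ℕ → ℝ}
  {m : ι → Fin L → ℕ → ℕ}

/-! ### general lemmas -/

theorem fa_n_pos (hS : St (Fintype.card ι) L l b bi a B η ϖ ε Δ κ) : 0 < bn b l :=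
  lt_of_lt_of_le one_pos (bn_ge hS.hb hS.ht l)

omit [DecidableEq ι] in
theorem fa_XT_pos : 0 < XT (Fintype.card ι) l b bi := by
  unfold XT
  positivity

theorem fa_kap (hS : St (Fintype.card ι) L l b bi a B η ϖ ε Δ κ) :
    ϖ * XT (Fintype.card ι) l b bi ≤ κ ∧ (L : ℝ) * (ϖ * XT (Fintype.card ι) l b bi) ≤ κ := by
  have h1 := hS.hκ
  have h2 : 0 ≤ ϖ * XT (Fintype.card ι) l b bi := mul_nonneg hS.hϖ (fa_XT_pos (ι := ι)).le
  have h3 : (0 : ℝ) ≤ L := Nat.cast_nonneg _
  have h4 : 0 ≤ (L : ℝ) * (ϖ * XT (Fintype.card ι) l b bi) := mul_nonneg h3 h2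
  constructor <;> nlinarith

theorem fa_main (hS : St (Fintype.card ι) L l b bi a B η ϖ ε Δ κ) {Φ : ℕ → ℝ} {E : ℝ}
    (h : AppT T ω m a η ϖ Φ E) (χ : ι → Fin L → ℕ → ℝ) (D : ι → Fin L → ℕ)
    (hχ : ∀ j i, Dg (D j i) (χ j i)) (hχ1 : ∀ j i t, |χ j i t| ≤ 2 ^ t)
    (hD : ∀ i, ∑ j, D j i ≤ 2 * (bi i + 1)) :
    |AvT T ω (fun N => sg b l B m N ^ 2 * (∏ j, ∏ i, χ j i (m j i N)) * Φ N) -
      (∑ J ∈ JJ ι l B, ∑ J' ∈ JJ ι l B, ∏ j, ker b (χ j) (J j) (J' j)) * E| ≤
      ϖ * XT (Fintype.card ι) l b bi := by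
  have hlev : 4 * b * a * B + dlev a D ≤ η := by
    refine le_trans ?_ hS.hlev
    have h1 : dlev a D ≤ 2 * ∑ i : Fin L, ((bi i : ℝ) + 1) * (a * 2 ^ ((i : ℕ) + 1)) := by
      unfold dlev
      rw [Finset.sum_comm, Finset.mul_sum]
      refine Finset.sum_le_sum fun i _ => ?_
      rw [← Finset.sum_mul]
      have h2 : ∑ j, (D j i : ℝ) ≤ 2 * ((bi i : ℝ) + 1) := by exact_mod_cast hD i
      have h3 : 0 ≤ a * 2 ^ ((i : ℕ) + 1) := mul_nonneg hS.ha (by positivity)
      nlinarith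
    linarith
  refine (main_sum hS.hl hS.hb hS.ht hS.ha hS.hϖ T ω m χ D hχ hχ1 hlev Φ E h).trans ?_
  refine mul_le_mul_of_nonneg_left ?_ hS.hϖ
  unfold XX XT
  refine mul_le_mul_of_nonneg_left ?_ (by positivity)
  refine pow_le_pow_right₀ one_le_two ?_
  have h4 : ∑ j : ι, ∑ i : Fin L, (4 * (2 * b + D j i) + 1) =
      Fintype.card ι * L * (8 * b + 1) + 4 * ∑ i, ∑ j, D j i := by
    rw [Finset.sum_comm (f := fun i j => D j i)]
    have h5 : ∀ j : ι, ∑ i : Fin L, (4 * (2 * b + D j i) + 1) =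
        L * (8 * b + 1) + 4 * ∑ i, D j i := by
      intro j
      rw [Finset.mul_sum]
      have h6 : ∀ i : Fin L, 4 * (2 * b + D j i) + 1 = (8 * b + 1) + 4 * D j i := by
        intro i
        ring
      simp only [h6]
      rw [Finset.sum_add_distrib, Finset.sum_const, Finset.card_univ, Fintype.card_fin,
        smul_eq_mul]
    simp only [h5]
    rw [Finset.sum_add_distrib, Finset.sum_const, Finset.card_univ, smul_eq_mul,
      ← Finset.mul_sum]
    ring
  rw [h4]
  have h7 : ∑ i, ∑ j, D j i ≤ ∑ i, 2 * (bi i + 1) := Finset.sum_le_sum fun i _ => hD i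
  rw [← Finset.mul_sum] at h7
  omega

/-- functions of one shift -/
def ch1 (x : ι) (α : Fin L → ℕ → ℝ) : ι → Fin L → ℕ → ℝ :=
  fun j => if j = x then α else fun _ _ => 1

/-- functions of two shifts -/
def ch2 (x y : ι) (α β : Fin L → ℕ → ℝ) : ι → Fin L → ℕ → ℝ :=
  fun j => if j = x then α else if j = y then β else fun _ _ => 1

theorem fa_h1 (x : ι) (α : Fin L → ℕ → ℝ) (m : ι → Fin L → ℕ → ℕ) (N : ℕ) :
    ∏ j, ∏ i, ch1 x α j i (m j i N) = ∏ i, α i (m x i N) := by
  rw [← Finset.mul_prod_erase _ _ (Finset.mem_univ x)]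
  have h1 : ∏ j ∈ Finset.univ.erase x, ∏ i, ch1 x α j i (m j i N) = 1 := by
    refine Finset.prod_eq_one fun j hj => ?_
    unfold ch1
    rw [if_neg (Finset.ne_of_mem_erase hj)]
    exact Finset.prod_const_one
  rw [h1, mul_one]
  unfold ch1
  rw [if_pos rfl]

theorem fa_h2 {x z : ι} (hxz : x ≠ z) (α β : Fin L → ℕ → ℝ) (m : ι → Fin L → ℕ → ℕ) (N : ℕ) :
    ∏ j, ∏ i, ch2 x z α β j i (m j i N) = (∏ i, α i (m x i N)) * ∏ i, β i (m z i N) := by
  have hz : z ∈ Finset.univ.erase x := Finset.mem_erase.2 ⟨hxz.symm, Finset.mem_univ z⟩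
  rw [← Finset.mul_prod_erase _ _ (Finset.mem_univ x), ← Finset.mul_prod_erase _ _ hz]
  have h1 : ∏ j ∈ (Finset.univ.erase x).erase z, ∏ i, ch2 x z α β j i (m j i N) = 1 := by
    refine Finset.prod_eq_one fun j hj => ?_
    unfold ch2
    rw [if_neg (Finset.ne_of_mem_erase (Finset.mem_of_mem_erase hj)),
      if_neg (Finset.ne_of_mem_erase hj)]
    exact Finset.prod_const_one
  rw [h1, mul_one]
  unfold ch2
  rw [if_pos rfl, if_neg hxz.symm, if_pos rfl]

theorem fa_prod1 {c : ℝ} (hc : 0 < c) (f : ι → ℝ) (x : ι) (h : ∀ j, j ≠ x → f j = c) :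
    ∏ j, f j = f x * (c ^ Fintype.card ι / c) := by
  rw [← Finset.mul_prod_erase _ _ (Finset.mem_univ x)]
  congr 1
  rw [Finset.prod_congr rfl (fun j hj => h j (Finset.ne_of_mem_erase hj)), Finset.prod_const,
    eq_div_iff hc.ne', ← pow_succ]
  congr 1
  rw [Finset.card_erase_of_mem (Finset.mem_univ x), Finset.card_univ]
  have : 0 < Fintype.card ι := Fintype.card_pos_iff.2 ⟨x⟩
  omega

theorem fa_prod2 {c : ℝ} (hc : 0 < c) (f : ι → ℝ) {x y : ι} (hxy : x ≠ y)
    (h : ∀ j, j ≠ x → j ≠ y → f j = c) :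
    ∏ j, f j = f x * f y * (c ^ Fintype.card ι / c ^ 2) := by
  have hy : y ∈ Finset.univ.erase x := Finset.mem_erase.2 ⟨hxy.symm, Finset.mem_univ y⟩
  rw [← Finset.mul_prod_erase _ _ (Finset.mem_univ x), ← Finset.mul_prod_erase _ _ hy, ← mul_assoc]
  congr 1
  rw [Finset.prod_congr rfl (fun j hj => h j
    (Finset.ne_of_mem_erase (Finset.mem_of_mem_erase hj)) (Finset.ne_of_mem_erase hj)),
    Finset.prod_const, eq_div_iff (pow_pos hc 2).ne', ← pow_add]
  congr 1
  rw [Finset.card_erase_of_mem hy, Finset.card_erase_of_mem (Finset.mem_univ x),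
    Finset.card_univ]
  have : 1 < Fintype.card ι := Fintype.one_lt_card_iff.2 ⟨x, y, hxy⟩
  omega

theorem fa_ks_one (hS : St (Fintype.card ι) L l b bi a B η ϖ ε Δ κ) :
    ks l (fun y y' => |ker (L := L) b (fun _ _ => 1) y y'|) = bn b l := by
  unfold ks bn
  refine Finset.sum_congr rfl fun y hy => ?_
  have hyl : y ≤ l := Nat.lt_succ_iff.1 (Finset.mem_range.1 hy)
  have h1 : ∀ y' ∈ Finset.range (l + 1), |ker (L := L) b (fun _ _ => 1) y y'| =
      if y = y' then nn b y else 0 := by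
    intro y' hy'
    have hyl' : y' ≤ l := Nat.lt_succ_iff.1 (Finset.mem_range.1 hy')
    rw [ker_one hS.hb hS.ht (hyl.trans hS.hl) (hyl'.trans hS.hl)]
    split_ifs
    · exact abs_of_nonneg (nn_nonneg hS.hb hS.ht y)
    · exact abs_zero
  rw [Finset.sum_congr rfl h1, Finset.sum_ite_eq, if_pos hy]

omit [Fintype ι] [DecidableEq ι] in
theorem fa_ks_R (c : ℕ → ℕ → ℝ) (u : ℝ)
    (hc : ∀ y ≤ l, ∀ y' ≤ l, |c y y'| ≤ u * ((1 / 2) ^ L * (vv b y * vv b y'))) :
    ks l (fun y y' => |c y y'|) ≤ u * ((1 / 2) ^ L * bS b l ^ 2) := by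
  unfold ks
  calc ∑ y ∈ Finset.range (l + 1), ∑ y' ∈ Finset.range (l + 1), |c y y'| ≤
      ∑ y ∈ Finset.range (l + 1), ∑ y' ∈ Finset.range (l + 1),
        u * ((1 / 2) ^ L * (vv b y * vv b y')) := by
        refine Finset.sum_le_sum fun y hy => Finset.sum_le_sum fun y' hy' => ?_
        exact hc y (Nat.lt_succ_iff.1 (Finset.mem_range.1 hy)) y'
          (Nat.lt_succ_iff.1 (Finset.mem_range.1 hy'))
    _ = u * ((1 / 2) ^ L * bS b l ^ 2) := by
        unfold bS
        rw [sq, Finset.sum_mul_sum, Finset.mul_sum, Finset.mul_sum]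
        refine Finset.sum_congr rfl fun y _ => ?_
        rw [Finset.mul_sum, Finset.mul_sum]

omit [Fintype ι] [DecidableEq ι] in
theorem fa_ks_nonneg (c : ℕ → ℕ → ℝ) : 0 ≤ ks l (fun y y' => |c y y'|) := by
  unfold ks
  exact Finset.sum_nonneg fun _ _ => Finset.sum_nonneg fun _ _ => abs_nonneg _

theorem fa_AA_nonneg (hS : St (Fintype.card ι) L l b bi a B η ϖ ε Δ κ) : 0 ≤ AA b l L := by
  unfold AA
  have := fa_n_pos hS
  positivity

/-- upper bound for one shift -/
theorem fa_ub1 (hS : St (Fintype.card ι) L l b bi a B η ϖ ε Δ κ) {Φ : ℕ → ℝ} {E : ℝ}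
    (hE : 0 ≤ E) (h : AppT T ω m a η ϖ Φ E) (x : ι) (α : Fin L → ℕ → ℝ) (d : Fin L → ℕ)
    (hα : ∀ i, Dg (d i) (α i)) (hα1 : ∀ i t, |α i t| ≤ 2 ^ t) (hd : ∀ i, d i ≤ bi i + 1)
    {u : ℝ} (hu : ∀ y ≤ l, ∀ y' ≤ l, |ker b α y y'| ≤ u * ((1 / 2) ^ L * (vv b y * vv b y'))) :
    AvT T ω (fun N => sg b l B m N ^ 2 * (∏ i, α i (m x i N)) * Φ N) ≤
      u * E * (bn b l ^ Fintype.card ι * AA b l L) + ϖ * XT (Fintype.card ι) l b bi := by
  have hn := fa_n_pos hS
  have h1 := fa_main hS h (ch1 x α) (fun j => if j = x then d else fun _ => 0) (by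
      intro j i
      unfold ch1
      split_ifs
      · exact hα i
      · exact dg_const 0 1) (by
      intro j i t
      unfold ch1
      split_ifs
      · exact hα1 i t
      · rw [abs_one]
        exact one_le_pow₀ one_le_two) (by
      intro i
      have : ∑ j, (if j = x then d else fun _ => 0) i = d i := by
        have e1 : ∀ j, (if j = x then d else fun _ => 0) i = if j = x then d i else 0 := by
          intro j
          split_ifs <;> rfl
        simp only [e1]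
        rw [Finset.sum_ite_eq' Finset.univ x, if_pos (Finset.mem_univ x)]
      rw [this]
      have := hd i
      omega)
  have h2 : ∀ N, ∏ j, ∏ i, ch1 x α j i (m j i N) = ∏ i, α i (m x i N) := fa_h1 x α m
  simp only [h2] at h1
  have h3 := js_ub l B (fun j => ker b (ch1 x α j))
  have h4 : ∏ j, ks l (fun y y' => |ker b (ch1 x α j) y y'|) =
      ks l (fun y y' => |ker b α y y'|) * (bn b l ^ Fintype.card ι / bn b l) := by
    rw [fa_prod1 hn (fun j => ks l (fun y y' => |ker b (ch1 x α j) y y'|)) x (by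
      intro j hj
      unfold ch1
      rw [if_neg hj]
      exact fa_ks_one hS)]
    unfold ch1
    rw [if_pos rfl]
  rw [h4] at h3
  have h5 := fa_ks_R (L := L) (b := b) (l := l) (fun y y' => ker b α y y') u hu
  have h6 : ks l (fun y y' => |ker b α y y'|) * (bn b l ^ Fintype.card ι / bn b l) ≤
      u * (bn b l ^ Fintype.card ι * AA b l L) := by
    calc ks l (fun y y' => |ker b α y y'|) * (bn b l ^ Fintype.card ι / bn b l) ≤
        u * ((1 / 2) ^ L * bS b l ^ 2) * (bn b l ^ Fintype.card ι / bn b l) :=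
          mul_le_mul_of_nonneg_right h5 (by positivity)
      _ = u * (bn b l ^ Fintype.card ι * AA b l L) := by
          unfold AA
          ring
  have h7 : (∑ J ∈ JJ ι l B, ∑ J' ∈ JJ ι l B, ∏ j, ker b (ch1 x α j) (J j) (J' j)) * E ≤
      u * (bn b l ^ Fintype.card ι * AA b l L) * E :=
    mul_le_mul_of_nonneg_right (((le_abs_self _).trans h3).trans h6) hE
  have h8 := (abs_le.1 h1).2
  linarith

/-- upper bound for two shifts -/
theorem fa_ub2 (hS : St (Fintype.card ι) L l b bi a B η ϖ ε Δ κ) {Φ : ℕ → ℝ} {E : ℝ}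
    (hE : 0 ≤ E) (h : AppT T ω m a η ϖ Φ E) {x z : ι} (hxz : x ≠ z) (α β : Fin L → ℕ → ℝ)
    (d d' : Fin L → ℕ) (hα : ∀ i, Dg (d i) (α i)) (hα1 : ∀ i t, |α i t| ≤ 2 ^ t)
    (hβ : ∀ i, Dg (d' i) (β i)) (hβ1 : ∀ i t, |β i t| ≤ 2 ^ t)
    (hd : ∀ i, d i + d' i ≤ 2 * (bi i + 1)) {u u' : ℝ} (hu0 : 0 ≤ u')
    (hu : ∀ y ≤ l, ∀ y' ≤ l, |ker b α y y'| ≤ u * ((1 / 2) ^ L * (vv b y * vv b y')))
    (hu' : ∀ y ≤ l, ∀ y' ≤ l, |ker b β y y'| ≤ u' * ((1 / 2) ^ L * (vv b y * vv b y'))) :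
    AvT T ω (fun N => sg b l B m N ^ 2 * ((∏ i, α i (m x i N)) * ∏ i, β i (m z i N)) * Φ N) ≤
      u * u' * E * (bn b l ^ Fintype.card ι * AA b l L ^ 2) + ϖ * XT (Fintype.card ι) l b bi := by
  have hn := fa_n_pos hS
  have h1 := fa_main hS h (ch2 x z α β)
    (fun j => if j = x then d else if j = z then d' else fun _ => 0) (by
      intro j i
      unfold ch2
      split_ifs
      · exact hα i
      · exact hβ i
      · exact dg_const 0 1) (by
      intro j i t
      unfold ch2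
      split_ifs
      · exact hα1 i t
      · exact hβ1 i t
      · rw [abs_one]
        exact one_le_pow₀ one_le_two) (by
      intro i
      have : ∑ j, (if j = x then d else if j = z then d' else fun _ => 0) i = d i + d' i := by
        have e1 : ∀ j, (if j = x then d else if j = z then d' else fun _ => 0) i =
            (if j = x then d i else 0) + (if j = z then d' i else 0) := by
          intro j
          by_cases hjx : j = x
          · rw [if_pos hjx, if_pos hjx, if_neg (by rw [hjx]; exact hxz), add_zero]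
          · rw [if_neg hjx, if_neg hjx, zero_add]
            split_ifs <;> rfl
        simp only [e1]
        rw [Finset.sum_add_distrib, Finset.sum_ite_eq' Finset.univ x,
          if_pos (Finset.mem_univ x), Finset.sum_ite_eq' Finset.univ z,
          if_pos (Finset.mem_univ z)]
      rw [this]
      exact hd i)
  have h2 : ∀ N, ∏ j, ∏ i, ch2 x z α β j i (m j i N) =
      (∏ i, α i (m x i N)) * ∏ i, β i (m z i N) := fa_h2 hxz α β m
  simp only [h2] at h1
  have h3 := js_ub l B (fun j => ker b (ch2 x z α β j))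
  have h4 : ∏ j, ks l (fun y y' => |ker b (ch2 x z α β j) y y'|) =
      ks l (fun y y' => |ker b α y y'|) * ks l (fun y y' => |ker b β y y'|) *
        (bn b l ^ Fintype.card ι / bn b l ^ 2) := by
    rw [fa_prod2 hn (fun j => ks l (fun y y' => |ker b (ch2 x z α β j) y y'|)) hxz (by
      intro j hj hj'
      unfold ch2
      rw [if_neg hj, if_neg hj']
      exact fa_ks_one hS)]
    unfold ch2
    rw [if_pos rfl, if_neg hxz.symm, if_pos rfl]
  rw [h4] at h3
  have h5 := fa_ks_R (L := L) (b := b) (l := l) (fun y y' => ker b α y y') u hu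
  have h5' := fa_ks_R (L := L) (b := b) (l := l) (fun y y' => ker b β y y') u' hu'
  have h50 := fa_ks_nonneg (l := l) (fun y y' => ker b α y y')
  have h50' := fa_ks_nonneg (l := l) (fun y y' => ker b β y y')
  have h6 : ks l (fun y y' => |ker b α y y'|) * ks l (fun y y' => |ker b β y y'|) *
      (bn b l ^ Fintype.card ι / bn b l ^ 2) ≤
      u * u' * (bn b l ^ Fintype.card ι * AA b l L ^ 2) := by
    calc ks l (fun y y' => |ker b α y y'|) * ks l (fun y y' => |ker b β y y'|) *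
        (bn b l ^ Fintype.card ι / bn b l ^ 2) ≤
        u * ((1 / 2) ^ L * bS b l ^ 2) * (u' * ((1 / 2) ^ L * bS b l ^ 2)) *
          (bn b l ^ Fintype.card ι / bn b l ^ 2) := by
          refine mul_le_mul_of_nonneg_right ?_ (by positivity)
          exact mul_le_mul h5 h5' h50' (h50.trans h5)
      _ = u * u' * (bn b l ^ Fintype.card ι * AA b l L ^ 2) := by
          unfold AA
          field_simp
  have h7 : (∑ J ∈ JJ ι l B, ∑ J' ∈ JJ ι l B, ∏ j, ker b (ch2 x z α β j) (J j) (J' j)) * E ≤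
      u * u' * (bn b l ^ Fintype.card ι * AA b l L ^ 2) * E :=
    mul_le_mul_of_nonneg_right (((le_abs_self _).trans h3).trans h6) hE
  have h8 := (abs_le.1 h1).2
  linarith

/-- lower bound for the main sum, one special shift -/
theorem fa_lb (hS : St (Fintype.card ι) L l b bi a B η ϖ ε Δ κ) (x : ι) (g : ℕ → ℕ → ℝ)
    (hg : ∀ y ≤ l, ∀ y' ≤ l, 0 ≤ g y y') (c : ι → ℕ → ℕ → ℝ)
    (hcx : ∀ y ≤ l, ∀ y' ≤ l, c x y y' = g y y')
    (hcj : ∀ j, j ≠ x → ∀ y ≤ l, ∀ y' ≤ l, c j y y' = if y = y' then nn b y else 0) :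
    (1 - ε) * (ks l g * (bn b l ^ Fintype.card ι / bn b l)) ≤
      ∑ J ∈ JJ ι l B, ∑ J' ∈ JJ ι l B, ∏ j, c j (J j) (J' j) := by
  have hn := fa_n_pos hS
  have hn1 := bn_ge hS.hb hS.ht l
  obtain ⟨c', hc'⟩ : ∃ c' : ι → ℕ → ℕ → ℝ, c' = fun j => if j = x then g else
    fun y y' => if y = y' then nn b y else 0 := ⟨_, rfl⟩
  have hc'x : c' x = g := by rw [hc']; simp
  have hc'j : ∀ j, j ≠ x → c' j = fun y y' => if y = y' then nn b y else 0 := by
    intro j hj
    rw [hc']
    simp only [if_neg hj]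
  have h1 : ∑ J ∈ JJ ι l B, ∑ J' ∈ JJ ι l B, ∏ j, c j (J j) (J' j) =
      ∑ J ∈ JJ ι l B, ∑ J' ∈ JJ ι l B, ∏ j, c' j (J j) (J' j) := by
    refine Finset.sum_congr rfl fun J hJ => Finset.sum_congr rfl fun J' hJ' => ?_
    refine Finset.prod_congr rfl fun j _ => ?_
    have e1 := (mem_JJ.1 hJ).1 j
    have e2 := (mem_JJ.1 hJ').1 j
    by_cases hj : j = x
    · subst hj
      rw [hc'x, hcx _ e1 _ e2]
    · rw [hc'j j hj, hcj j hj _ e1 _ e2]
  have hkd : ks l (fun y y' => if y = y' then nn b y else 0) = bn b l := by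
    unfold ks bn
    refine Finset.sum_congr rfl fun y hy => ?_
    rw [Finset.sum_ite_eq, if_pos hy]
  have hks : ∀ j, j ≠ x → ks l (c' j) = bn b l := by
    intro j hj
    rw [hc'j j hj, hkd]
  have hg0 : 0 ≤ ks l g := by
    unfold ks
    refine Finset.sum_nonneg fun y hy => Finset.sum_nonneg fun y' hy' => ?_
    exact hg y (Nat.lt_succ_iff.1 (Finset.mem_range.1 hy)) y'
      (Nat.lt_succ_iff.1 (Finset.mem_range.1 hy'))
  have hks0 : ∀ j, 0 ≤ ks l (c' j) := by
    intro j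
    by_cases hj : j = x
    · rw [hj, hc'x]
      exact hg0
    · rw [hks j hj]
      exact hn.le
  have h2 := js_lb l B hS.hB c' (by
    intro j y hy y' hy'
    by_cases hj : j = x
    · rw [hj, hc'x]
      exact hg y hy y' hy'
    · rw [hc'j j hj]
      simp only
      split_ifs
      · exact nn_nonneg hS.hb hS.ht y
      · exact le_rfl) x (by
    intro j hj y y' hyy'
    rw [hc'j j hj]
    simp only [if_neg hyy'])
  have hF : ∏ j, ks l (c' j) = ks l g * (bn b l ^ Fintype.card ι / bn b l) := by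
    rw [fa_prod1 hn (fun j => ks l (c' j)) x hks, hc'x]
  obtain ⟨F, hFd⟩ : ∃ F, F = ∏ j, ks l (c' j) := ⟨_, rfl⟩
  have hF0 : 0 ≤ F := by
    rw [hFd]
    exact Finset.prod_nonneg fun j _ => hks0 j
  have hB0 : 0 < B - 2 ^ l := sub_pos.2 hS.hB
  have h3 : ∑ j2 ∈ Finset.univ.erase x, (1 / (B - 2 ^ l)) *
        (ks l (fun y y' => cost y * c' j2 y y') * ∏ j ∈ Finset.univ.erase j2, ks l (c' j)) ≤
      ε * F := by
    have h4 : ∀ j2 ∈ Finset.univ.erase x, (1 / (B - 2 ^ l)) *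
        (ks l (fun y y' => cost y * c' j2 y y') * ∏ j ∈ Finset.univ.erase j2, ks l (c' j)) ≤
        (1 / (B - 2 ^ l)) * (l * F) := by
      intro j2 hj2
      have hj2x := Finset.ne_of_mem_erase hj2
      refine mul_le_mul_of_nonneg_left ?_ (by positivity)
      have e1 : ks l (fun y y' => cost y * c' j2 y y') ≤ l := by
        rw [hc'j j2 hj2x]
        refine le_trans (le_of_eq ?_) (bn_cost hS.hb hS.ht l hS.hlt)
        unfold ks
        refine Finset.sum_congr rfl fun y hy => ?_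
        simp only [mul_ite, mul_zero]
        rw [Finset.sum_ite_eq, if_pos hy]
      have e2 : 0 ≤ ∏ j ∈ Finset.univ.erase j2, ks l (c' j) :=
        Finset.prod_nonneg fun j _ => hks0 j
      have e3 : ∏ j ∈ Finset.univ.erase j2, ks l (c' j) ≤ F := by
        rw [hFd, ← Finset.mul_prod_erase _ (fun j => ks l (c' j)) (Finset.mem_univ j2),
          hks j2 hj2x]
        nlinarith
      calc ks l (fun y y' => cost y * c' j2 y y') * ∏ j ∈ Finset.univ.erase j2, ks l (c' j)
          ≤ l * ∏ j ∈ Finset.univ.erase j2, ks l (c' j) := mul_le_mul_of_nonneg_right e1 e2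
        _ ≤ l * F := mul_le_mul_of_nonneg_left e3 (Nat.cast_nonneg _)
    refine (Finset.sum_le_sum h4).trans ?_
    rw [Finset.sum_const, nsmul_eq_mul]
    have h5 : ((Finset.univ.erase x).card : ℝ) ≤ Fintype.card ι := by
      exact_mod_cast (Finset.card_le_card (Finset.erase_subset x Finset.univ)).trans
        (le_of_eq Finset.card_univ)
    have h6 : 0 ≤ (1 / (B - 2 ^ l)) * ((l : ℝ) * F) := by positivity
    refine (mul_le_mul_of_nonneg_right h5 h6).trans ?_
    have h7 := hS.hK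
    have h8 : (Fintype.card ι : ℝ) * ((1 / (B - 2 ^ l)) * ((l : ℝ) * F)) =
        (Fintype.card ι : ℝ) * l / (B - 2 ^ l) * F := by
      field_simp
    rw [h8]
    refine mul_le_mul_of_nonneg_right ?_ hF0
    rw [div_le_iff₀ hB0]
    exact h7
  rw [h1, ← hF, ← hFd]
  rw [← hFd] at h2
  linarith

theorem fa_one_nonneg (hS : St (Fintype.card ι) L l b bi a B η ϖ ε Δ κ) :
    ∀ y ≤ l, ∀ y' ≤ l, ker (L := L) b (fun _ _ => 1) y y' = if y = y' then nn b y else 0 :=
  fun _ hy _ hy' => ker_one hS.hb hS.ht (hy.trans hS.hl) (hy'.trans hS.hl)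

theorem fa_z [Nonempty ι] (hS : St (Fintype.card ι) L l b bi a B η ϖ ε Δ κ)
    (h1 : AppT T ω m a η ϖ (fun _ => 1) 1) :
    (1 - ε) * bn b l ^ Fintype.card ι - κ ≤ AvT T ω (fun N => sg b l B m N ^ 2) ∧
      AvT T ω (fun N => sg b l B m N ^ 2) ≤ bn b l ^ Fintype.card ι + κ := by
  obtain ⟨x⟩ := ‹Nonempty ι›
  have hn := fa_n_pos hS
  have hk := (fa_kap hS).1
  have h2 := fa_main hS h1 (fun _ _ _ => 1) (fun _ _ => 0) (fun _ _ => dg_const 0 1)
    (fun _ _ t => by
      rw [abs_one]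
      exact one_le_pow₀ one_le_two) (fun i => by simp)
  simp only [Finset.prod_const_one, mul_one] at h2
  have h3 := fa_lb (B := B) hS x (fun y y' => if y = y' then nn b y else 0) (by
      intro y _ y' _
      split_ifs
      · exact nn_nonneg hS.hb hS.ht y
      · exact le_rfl) (fun _ => ker (L := L) b (fun _ _ => 1)) (fa_one_nonneg hS)
    (fun _ _ => fa_one_nonneg hS)
  have hkd : ks l (fun y y' => if y = y' then nn b y else 0) = bn b l := by
    unfold ks bn
    refine Finset.sum_congr rfl fun y hy => ?_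
    rw [Finset.sum_ite_eq, if_pos hy]
  rw [hkd, mul_div_cancel₀ _ hn.ne'] at h3
  have h4 := js_ub l B (fun _ : ι => ker (L := L) b (fun _ _ => 1))
  rw [Finset.prod_const, Finset.card_univ, fa_ks_one hS] at h4
  have h5 := abs_le.1 h2
  have h6 := (le_abs_self _).trans h4
  constructor <;> linarith

private theorem fa_aP_dg (bi : Fin L → ℕ) (i : Fin L) : Dg (bi i) (aP bi i) := dg_ub (bi i)

theorem fa_aP (hS : St (Fintype.card ι) L l b bi a B η ϖ ε Δ κ) :
    (∀ i, Dg (bi i) (aP bi i)) ∧ (∀ i t, |aP bi i t| ≤ 2 ^ t) ∧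
    ∀ y ≤ l, ∀ y' ≤ l, |ker b (aP bi) y y'| ≤ (1 + Δ) * ((1 / 2) ^ L * (vv b y * vv b y')) := by
  refine ⟨fa_aP_dg bi, ?_, ?_⟩
  · intro i t
    unfold aP
    rw [abs_of_nonneg (ub_nonneg (hS.hbi i) t)]
    exact ub_le (hS.hbi i) t
  · intro y hy y' hy'
    have h1 := ker_plus hS.hb hS.ht bi hS.hbi hS.hΔ (hy.trans hS.hl) (hy'.trans hS.hl)
    have h2 := vv_pos hS.hb hS.ht y
    have h3 := vv_pos hS.hb hS.ht y'
    have h4 : 0 ≤ (1 / 2 : ℝ) ^ L * (vv b y * vv b y') := by positivity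
    have h5 := abs_sub_abs_le_abs_sub (ker b (aP bi) y y') ((1 / 2) ^ L * (vv b y * vv b y'))
    rw [abs_of_nonneg h4] at h5
    linarith

theorem fa_aC (hS : St (Fintype.card ι) L l b bi a B η ϖ ε Δ κ) (i0 : Fin L) :
    (∀ i, Dg (bi i + 1) (aC bi i0 i)) ∧ (∀ i t, |aC bi i0 i t| ≤ 2 ^ t) ∧
    ∀ y ≤ l, ∀ y' ≤ l, |ker b (aC bi i0) y y'| ≤
      (tau (bi i0) * (1 + Δ)) * ((1 / 2) ^ L * (vv b y * vv b y')) := by
  refine ⟨?_, ?_, ?_⟩
  · intro i
    by_cases h : i = i0
    · have : aC bi i0 i = fun t => (t.choose (bi i + 1) : ℝ) := by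
        funext t
        unfold aC
        rw [if_pos h]
      rw [this]
      exact dg_choose _
    · have : aC bi i0 i = Ub (bi i) := by
        funext t
        unfold aC
        rw [if_neg h]
      rw [this]
      exact dg_mono (dg_ub _) (Nat.le_succ _)
  · intro i t
    unfold aC
    split_ifs
    · rw [Nat.abs_cast]
      exact_mod_cast Nat.choose_le_two_pow t (bi i + 1)
    · rw [abs_of_nonneg (ub_nonneg (hS.hbi i) t)]
      exact ub_le (hS.hbi i) t
  · intro y hy y' hy'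
    exact ker_cor hS.hb hS.ht bi hS.hbi hS.hΔ (hy.trans hS.hl) (hy'.trans hS.hl) i0

theorem fa_up (hS : St (Fintype.card ι) L l b bi a B η ϖ ε Δ κ) {Φ : ℕ → ℝ} {E : ℝ}
    (hE : 0 ≤ E) (h : AppT T ω m a η ϖ Φ E) (x : ι) :
    (1 - ε) * (1 - Δ) * E * (bn b l ^ Fintype.card ι * AA b l L) - κ ≤
        AvT T ω (fun N => sg b l B m N ^ 2 * rp bi m x N * Φ N) ∧
      AvT T ω (fun N => sg b l B m N ^ 2 * rp bi m x N * Φ N) ≤
        (1 + Δ) * E * (bn b l ^ Fintype.card ι * AA b l L) + κ := by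
  have hn := fa_n_pos hS
  have hk := (fa_kap hS).1
  obtain ⟨hα, hα1, hu⟩ := fa_aP hS
  constructor
  · -- the lower bound
    have h1 := fa_main hS h (ch1 x (aP bi)) (fun j => if j = x then bi else fun _ => 0) (by
        intro j i
        unfold ch1
        split_ifs
        · exact hα i
        · exact dg_const 0 1) (by
        intro j i t
        unfold ch1
        split_ifs
        · exact hα1 i t
        · rw [abs_one]
          exact one_le_pow₀ one_le_two) (by
        intro i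
        have : ∑ j, (if j = x then bi else fun _ => 0) i = bi i := by
          have e1 : ∀ j, (if j = x then bi else fun _ => 0) i = if j = x then bi i else 0 := by
            intro j
            split_ifs <;> rfl
          simp only [e1]
          rw [Finset.sum_ite_eq' Finset.univ x, if_pos (Finset.mem_univ x)]
        rw [this]
        omega)
    have h2 : ∀ N, ∏ j, ∏ i, ch1 x (aP bi) j i (m j i N) = rp bi m x N := by
      intro N
      rw [fa_h1]
      rfl
    simp only [h2] at h1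
    have hker : ∀ y ≤ l, ∀ y' ≤ l, (1 - Δ) * ((1 / 2) ^ L * (vv b y * vv b y')) ≤
        ker b (aP bi) y y' := by
      intro y hy y' hy'
      have h1 := ker_plus hS.hb hS.ht bi hS.hbi hS.hΔ (hy.trans hS.hl) (hy'.trans hS.hl)
      have h2 := (abs_le.1 h1).1
      linarith
    have hΔ1 := hS.hΔ1
    have h3 := fa_lb (B := B) hS x (ker b (aP bi)) (by
        intro y hy y' hy'
        refine le_trans ?_ (hker y hy y' hy')
        have h2 := vv_pos hS.hb hS.ht y
        have h3 := vv_pos hS.hb hS.ht y'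
        have h4 : 0 ≤ 1 - Δ := by linarith
        positivity) (fun j => ker b (ch1 x (aP bi) j)) (by
        intro y _ y' _
        unfold ch1
        rw [if_pos rfl]) (by
        intro j hj y hy y' hy'
        unfold ch1
        rw [if_neg hj]
        exact fa_one_nonneg hS y hy y' hy')
    have h4 : (1 - Δ) * ((1 / 2) ^ L * bS b l ^ 2) ≤ ks l (ker b (aP bi)) := by
      unfold ks
      calc (1 - Δ) * ((1 / 2) ^ L * bS b l ^ 2) =
          ∑ y ∈ Finset.range (l + 1), ∑ y' ∈ Finset.range (l + 1),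
            (1 - Δ) * ((1 / 2) ^ L * (vv b y * vv b y')) := by
            unfold bS
            rw [sq, Finset.sum_mul_sum, Finset.mul_sum, Finset.mul_sum]
            refine Finset.sum_congr rfl fun y _ => ?_
            rw [Finset.mul_sum, Finset.mul_sum]
        _ ≤ _ := by
            refine Finset.sum_le_sum fun y hy => Finset.sum_le_sum fun y' hy' => ?_
            exact hker y (Nat.lt_succ_iff.1 (Finset.mem_range.1 hy)) y'
              (Nat.lt_succ_iff.1 (Finset.mem_range.1 hy'))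
    have hε1 := hS.hε1
    have h5 : (1 - ε) * ((1 - Δ) * (bn b l ^ Fintype.card ι * AA b l L)) ≤
        ∑ J ∈ JJ ι l B, ∑ J' ∈ JJ ι l B, ∏ j, ker b (ch1 x (aP bi) j) (J j) (J' j) := by
      refine le_trans ?_ h3
      refine mul_le_mul_of_nonneg_left ?_ (by linarith)
      calc (1 - Δ) * (bn b l ^ Fintype.card ι * AA b l L) =
          (1 - Δ) * ((1 / 2) ^ L * bS b l ^ 2) * (bn b l ^ Fintype.card ι / bn b l) := by
            unfold AA
            ring
        _ ≤ _ := mul_le_mul_of_nonneg_right h4 (by positivity)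
    have h6 := mul_le_mul_of_nonneg_right h5 hE
    have h7 := (abs_le.1 h1).1
    linarith
  · have h1 := fa_ub1 hS hE h x (aP bi) bi hα hα1 (fun i => Nat.le_succ _) hu
    have h2 : ∀ N, ∏ i, aP bi i (m x i N) = rp bi m x N := fun N => rfl
    simp only [h2] at h1
    linarith

theorem fa_sum_tau (hS : St (Fintype.card ι) L l b bi a B η ϖ ε Δ κ) :
    ∑ i, tau (bi i) ≤ Δ := by
  have h1 := sum_tau bi
  have h2 := hS.hΔ
  linarith

omit [Fintype ι] [DecidableEq ι] in
theorem fa_tau_nonneg (c : ℕ) : 0 ≤ tau c := by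
  unfold tau
  have := tl_pos c
  linarith

omit [Fintype ι] [DecidableEq ι] in
theorem fa_AvT_sum {κ' : Type} (s : Finset κ') (f : κ' → ℕ → ℝ) :
    AvT T ω (fun N => ∑ i ∈ s, f i N) = ∑ i ∈ s, AvT T ω (f i) := by
  unfold AvT
  simp only [Finset.mul_sum]
  exact Finset.sum_comm

theorem fa_dl (hS : St (Fintype.card ι) L l b bi a B η ϖ ε Δ κ)
    (h1 : AppT T ω m a η ϖ (fun _ => 1) 1) (x : ι) :
    AvT T ω (fun N => sg b l B m N ^ 2 * dl bi m x N) ≤
      2 * Δ * (bn b l ^ Fintype.card ι * AA b l L) + κ := by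
  have hn := fa_n_pos hS
  have hA := fa_AA_nonneg hS
  have hk := (fa_kap hS).2
  have h2 : (fun N => sg b l B m N ^ 2 * dl bi m x N) =
      fun N => ∑ i0, sg b l B m N ^ 2 * (∏ i, aC bi i0 i (m x i N)) * 1 := by
    funext N
    unfold dl
    rw [Finset.mul_sum]
    simp only [mul_one]
  rw [h2, fa_AvT_sum]
  have h3 : ∀ i0 ∈ (Finset.univ : Finset (Fin L)),
      AvT T ω (fun N => sg b l B m N ^ 2 * (∏ i, aC bi i0 i (m x i N)) * 1) ≤
      tau (bi i0) * (1 + Δ) * 1 * (bn b l ^ Fintype.card ι * AA b l L) +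
        ϖ * XT (Fintype.card ι) l b bi := by
    intro i0 _
    obtain ⟨hα, hα1, hu⟩ := fa_aC hS i0
    exact fa_ub1 hS zero_le_one h1 x (aC bi i0) (fun i => bi i + 1) hα hα1 (fun i => le_rfl) hu
  refine (Finset.sum_le_sum h3).trans ?_
  rw [Finset.sum_add_distrib, Finset.sum_const, Finset.card_univ, Fintype.card_fin, nsmul_eq_mul]
  have h4 : ∑ i0, tau (bi i0) * (1 + Δ) * 1 * (bn b l ^ Fintype.card ι * AA b l L) =
      (∑ i0, tau (bi i0)) * ((1 + Δ) * (bn b l ^ Fintype.card ι * AA b l L)) := by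
    rw [Finset.sum_mul]
    exact Finset.sum_congr rfl fun i0 _ => by ring
  rw [h4]
  have h5 := fa_sum_tau hS
  have hΔ0 := hS.hΔ0
  have hΔ1 := hS.hΔ1
  have h6 : 0 ≤ bn b l ^ Fintype.card ι * AA b l L := by positivity
  have h7 : (∑ i0, tau (bi i0)) * ((1 + Δ) * (bn b l ^ Fintype.card ι * AA b l L)) ≤
      Δ * ((1 + Δ) * (bn b l ^ Fintype.card ι * AA b l L)) :=
    mul_le_mul_of_nonneg_right h5 (by positivity)
  have h8 : Δ * ((1 + Δ) * (bn b l ^ Fintype.card ι * AA b l L)) ≤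
      2 * Δ * (bn b l ^ Fintype.card ι * AA b l L) := by
    have : 0 ≤ Δ * (1 - Δ) * (bn b l ^ Fintype.card ι * AA b l L) := by
      have : 0 ≤ 1 - Δ := by linarith
      positivity
    nlinarith
  linarith

end

end Pool.Agent.H92.MM
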