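import Pool.Agent.H92.MM.Fa

/-!
# [H92 MM FB] Moments: two shifts and primes

Notation of the headers: `K = card ι`, `n = bn b l ≥ 1`, `S = bS b l`, `AA = (1/2)^L S^2/n`, `z = Av σ^2`.

KERNELS.  For a shift without sieve factor `ker b (fun _ _ => 1) y y' = [y = y'] nn b y` (`ker_one`, `y, y' ≤ l ≤ L`), full sum `n`.
With the upper sieve: `(1-Δ) (1/2)^L vv vv' ≤ ker b (aP bi) ≤ (1+Δ) (1/2)^L vv vv'` (`ker_plus`), full sum between `(1 ∓ Δ) (1/2)^L S^2`.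
With the `i0`-th correction `|ker b (aC bi i0)| ≤ tau (bi i0) (1+Δ) (1/2)^L vv vv'` and `∑_i0 tau (bi i0) ≤ Δ` (`sum_tau`, `hΔ`), `(1+Δ)^2 ≤ 2`.
* upper bounds: `js_ub`; product over the `K - 1` (`K - 2`) other shifts is `n^(K-1)` (`n^(K-2)`), and
  `n^(K-1) (1/2)^L S^2 = n^K AA`, `n^(K-2) ((1/2)^L S^2)^2 = n^K AA^2`.
* lower bounds: `js_lb` with `j1 = x`: for `j2 ≠ x`: `∑ cost y * ker = ∑ cost y nn b y ≤ l` (`bn_cost`) and
  `∏_{j ≠ j2} = (full product)/n ≤ full product`; there are `K - 1` such `j2` and `K l/(B - 2^l) ≤ ε` (`hK`): so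
  `∑∑ ≥ (1 - ε) ∏ full sums`.
* `main_sum` with `Φ`, `χ j i t = 1` for the other shifts; the error is `≤ ϖ XX ≤ ϖ XT ≤ κ` (degrees `bi i` resp. `bi i + 1` at one or two
  shifts, level `≤ η` by `hlev`); for `dl` sum over `i0` (`L` terms, error `L ϖ XT ≤ κ`).
* `fa_pr`: `main_prime`, kernel `vv b y vv b y'` at `j0`, full sum `S^2`, `n^(K-1) S^2 = 2^L n^K AA`.
-/

namespace Pool.Agent.H92.MM

open Finset

section

variable {ι : Type} [Fintype ι] [DecidableEq ι] {L : ℕ}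

variable {l b : ℕ} {bi : Fin L → ℕ} {a B η ϖ ε Δ κ : ℝ} {T : Finset ℕ} {ω : ℕ → ℝ}
  {m : ι → Fin L → ℕ → ℕ}

theorem fa_up2 (hS : St (Fintype.card ι) L l b bi a B η ϖ ε Δ κ) {Φ : ℕ → ℝ} {E : ℝ}
    (hE : 0 ≤ E) (h : AppT T ω m a η ϖ Φ E) {x y : ι} (hxy : x ≠ y) :
    AvT T ω (fun N => sg b l B m N ^ 2 * (rp bi m x N * rp bi m y N) * Φ N) ≤
      (1 + Δ) ^ 2 * E * (bn b l ^ Fintype.card ι * AA b l L ^ 2) + κ := by
  have hk := (fa_kap hS).1
  have hΔ0 := hS.hΔ0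
  obtain ⟨hα, hα1, hu⟩ := fa_aP hS
  have h1 := fa_ub2 hS hE h hxy (aP bi) (aP bi) bi bi hα hα1 hα hα1 (fun i => by omega)
    (by linarith : 0 ≤ 1 + Δ) hu hu
  have h2 : ∀ x N, ∏ i, aP bi i (m x i N) = rp bi m x N := fun x N => rfl
  simp only [h2] at h1
  have h3 : (1 + Δ) * (1 + Δ) = (1 + Δ) ^ 2 := by ring
  rw [h3] at h1
  linarith

theorem fa_dl2 (hS : St (Fintype.card ι) L l b bi a B η ϖ ε Δ κ)
    (h1 : AppT T ω m a η ϖ (fun _ => 1) 1) {x y : ι} (hxy : x ≠ y) :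
    AvT T ω (fun N => sg b l B m N ^ 2 * (dl bi m x N * rp bi m y N)) ≤
      4 * Δ * (bn b l ^ Fintype.card ι * AA b l L ^ 2) + κ := by
  have hn := fa_n_pos hS
  have hA := fa_AA_nonneg hS
  have hk := (fa_kap hS).2
  have hΔ0 := hS.hΔ0
  have hΔ1 := hS.hΔ1
  obtain ⟨hα, hα1, hu⟩ := fa_aP hS
  have h2 : (fun N => sg b l B m N ^ 2 * (dl bi m x N * rp bi m y N)) =
      fun N => ∑ i0, sg b l B m N ^ 2 * ((∏ i, aC bi i0 i (m x i N)) *
        ∏ i, aP bi i (m y i N)) * 1 := by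
    funext N
    unfold dl rp
    rw [Finset.sum_mul, Finset.mul_sum]
    simp only [mul_one]
  rw [h2, fa_AvT_sum]
  have h3 : ∀ i0 ∈ (Finset.univ : Finset (Fin L)),
      AvT T ω (fun N => sg b l B m N ^ 2 * ((∏ i, aC bi i0 i (m x i N)) *
        ∏ i, aP bi i (m y i N)) * 1) ≤
      tau (bi i0) * (1 + Δ) * (1 + Δ) * 1 * (bn b l ^ Fintype.card ι * AA b l L ^ 2) +
        ϖ * XT (Fintype.card ι) l b bi := by
    intro i0 _
    obtain ⟨hβ, hβ1, hw⟩ := fa_aC hS i0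
    exact fa_ub2 hS zero_le_one h1 hxy (aC bi i0) (aP bi) (fun i => bi i + 1) bi hβ hβ1 hα hα1
      (fun i => by omega) (by linarith : 0 ≤ 1 + Δ) hw hu
  refine (Finset.sum_le_sum h3).trans ?_
  rw [Finset.sum_add_distrib, Finset.sum_const, Finset.card_univ, Fintype.card_fin, nsmul_eq_mul]
  have h4 : ∑ i0, tau (bi i0) * (1 + Δ) * (1 + Δ) * 1 *
      (bn b l ^ Fintype.card ι * AA b l L ^ 2) =
      (∑ i0, tau (bi i0)) * ((1 + Δ) ^ 2 * (bn b l ^ Fintype.card ι * AA b l L ^ 2)) := by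
    rw [Finset.sum_mul]
    exact Finset.sum_congr rfl fun i0 _ => by ring
  rw [h4]
  have h5 := fa_sum_tau hS
  have h6 : 0 ≤ bn b l ^ Fintype.card ι * AA b l L ^ 2 := by positivity
  have h7 : (∑ i0, tau (bi i0)) * ((1 + Δ) ^ 2 * (bn b l ^ Fintype.card ι * AA b l L ^ 2)) ≤
      Δ * ((1 + Δ) ^ 2 * (bn b l ^ Fintype.card ι * AA b l L ^ 2)) :=
    mul_le_mul_of_nonneg_right h5 (by positivity)
  have h8 : (1 + Δ) ^ 2 ≤ 4 := by nlinarith
  have h9 : Δ * ((1 + Δ) ^ 2 * (bn b l ^ Fintype.card ι * AA b l L ^ 2)) ≤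
      Δ * (4 * (bn b l ^ Fintype.card ι * AA b l L ^ 2)) :=
    mul_le_mul_of_nonneg_left (mul_le_mul_of_nonneg_right h8 h6) hΔ0.le
  linarith

open Classical in
theorem fa_pr (hS : St (Fintype.card ι) L l b bi a B η ϖ ε Δ κ) (P : ℕ → Prop) {E : ℝ}
    (hE : 0 ≤ E) (j0 : ι) (hP : ∀ N ∈ T, P N → ∀ i, m j0 i N = 0)
    (h : ∀ A : ι → Fin L → ℕ, (∀ i, A j0 i = 0) → sl a L A ≤ η →
      |AvT T ω (fun N => mon m A N * (if P N then 1 else 0)) - sv L A * E| ≤ ϖ) :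
    (1 - ε) * E * (2 ^ L * (bn b l ^ Fintype.card ι * AA b l L)) - κ ≤
      AvT T ω (fun N => sg b l B m N ^ 2 * (if P N then 1 else 0)) := by
  have hn := fa_n_pos hS
  have hk := (fa_kap hS).1
  have hlev : 4 * b * a * B ≤ η := by
    refine le_trans ?_ hS.hlev
    have : 0 ≤ 2 * ∑ i : Fin L, ((bi i : ℝ) + 1) * (a * 2 ^ ((i : ℕ) + 1)) := by
      refine mul_nonneg zero_le_two (Finset.sum_nonneg fun i _ => ?_)
      exact mul_nonneg (by positivity) (mul_nonneg hS.ha (by positivity))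
    linarith
  have h1 := main_prime hS.hl hS.hb hS.ht hS.ha hS.hϖ T ω m j0 hlev P E hP h
  have h2 : ϖ * XX (L := L) (ι := ι) b l (fun _ _ => 0) ≤ ϖ * XT (Fintype.card ι) l b bi := by
    refine mul_le_mul_of_nonneg_left ?_ hS.hϖ
    unfold XX XT
    refine mul_le_mul_of_nonneg_left ?_ (by positivity)
    refine pow_le_pow_right₀ one_le_two ?_
    have h5 : ∑ j : ι, ∑ i : Fin L, (4 * (2 * b + (fun _ _ => 0 : ι → Fin L → ℕ) j i) + 1) =
        Fintype.card ι * L * (8 * b + 1) := by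
      have h6 : ∀ (j : ι) (i : Fin L), 4 * (2 * b + (fun _ _ => 0 : ι → Fin L → ℕ) j i) + 1 =
          8 * b + 1 := by
        intro j i
        simp only [add_zero]
        ring
      simp only [h6]
      rw [Finset.sum_const, Finset.sum_const, Finset.card_univ, Finset.card_univ,
        Fintype.card_fin, smul_eq_mul, smul_eq_mul]
      ring
    rw [h5]
    exact Nat.le_add_right _ _
  have h3 := fa_lb (B := B) hS j0 (fun y y' => vv b y * vv b y') (by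
      intro y _ y' _
      have e1 := vv_pos hS.hb hS.ht y
      have e2 := vv_pos hS.hb hS.ht y'
      positivity) (fun j y y' => if j = j0 then vv b y * vv b y' else
        ker (L := L) b (fun _ _ => 1) y y') (by
      intro y _ y' _
      rw [if_pos rfl]) (by
      intro j hj y hy y' hy'
      rw [if_neg hj]
      exact fa_one_nonneg hS y hy y' hy')
  have h4 : ks l (fun y y' => vv b y * vv b y') = bS b l ^ 2 := by
    unfold ks bS
    rw [sq, Finset.sum_mul_sum]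
  rw [h4] at h3
  have h5 : bS b l ^ 2 * (bn b l ^ Fintype.card ι / bn b l) =
      2 ^ L * (bn b l ^ Fintype.card ι * AA b l L) := by
    unfold AA
    have : (2 : ℝ) ^ L * (1 / 2) ^ L = 1 := by
      rw [← mul_pow]
      norm_num
    calc bS b l ^ 2 * (bn b l ^ Fintype.card ι / bn b l) =
        ((2 : ℝ) ^ L * (1 / 2) ^ L) * (bS b l ^ 2 * (bn b l ^ Fintype.card ι / bn b l)) := by
          rw [this, one_mul]
      _ = _ := by ring
  rw [h5] at h3
  have h6 := mul_le_mul_of_nonneg_right h3 hE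
  have h7 := (abs_le.1 h1).1
  have h8 : (1 - ε) * (2 ^ L * (bn b l ^ Fintype.card ι * AA b l L)) * E =
      (1 - ε) * E * (2 ^ L * (bn b l ^ Fintype.card ι * AA b l L)) := by ring
  rw [h8] at h6
  linarith

end

end Pool.Agent.H92.MM
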