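import Pool.Agent.H92.MM.Pt
import Pool.Agent.H92.MM.Fa
import Pool.Agent.H92.MM.Fb

/-!
# [H92 MM CO] The local information from the moments

`z = Av σ^2`, `E_μ f = Av(σ^2 f)/z` (`emu`).  `ζ = z/n^K`, `|ζ - 1| ≤ ε + κ`.  Hypotheses: `1 ≤ C`, `0 < c ≤ 1`, `c ≤ E ≤ C`,
`100 C^2 Δ ≤ ε c^2`, `4 κ ≤ Δ (1/4)^L`.  `AA ≥ (1/2)^L/2` (`bS ≥ 1`, `bn ≤ 2`), so `κ ≤ Δ AA^2`, `κ ≤ Δ AA`, `κ ≤ ε/100`.
`lo x = F x * r0 x`.
* `co_lo`: `Av(σ^2 F r0) ≥ Av(σ^2 F rp) - C Av(σ^2 dl)` (`|F| ≤ C`, `0 ≤ rp - r0 ≤ dl`) `≥ n^K AA ((1-ε)(1-Δ) E - 2 C Δ - (1+C) Δ)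
  ≥ n^K AA E (1 - 2 ε)`.
* `co_pair`: `rp rp' - r0 r0' ≤ dl rp' + rp dl'`; `Av(σ^2 F F' r0 r0') ≤ Av(σ^2 F F' rp rp') + C^2 Av(σ^2 (dl rp' + dl' rp))
  ≤ n^K AA^2 ((1+Δ)^2 E^2 + 8 C^2 Δ + 3 C^2 Δ) ≤ n^K AA^2 E^2 (1 + ε)`; divide: `(1+ε) ζ/(1-2ε)^2 ≤ 1 + 10 ε`.
* `co_sq`: `Av(σ^2 F^2 r0) ≤ C^2 Av(σ^2 rp) ≤ 2 C^2 n^K AA`; `E_μ lo ≥ n^K AA c/2/z`; quotient `≤ 4 C^2/c`.
* `co_mean`: `E_μ lo ≥ AA c (1-2ε)/ζ ≥ AA c/4`.
* `co_prime`: `F ≥ 0`: `z E_μ g ≤ Av(σ^2 F rp) ≤ n^K AA (E (1+Δ) + Δ) ≤ n^K AA E (1+ε)`;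
  `z μ(P) ≥ n^K AA (2^L pr (1-ε) - Δ) ≥ n^K AA 2^L pr (1-2ε)` (`2^L pr ≥ E/(4 (1+ε)^2) ≥ c/5`, `Δ ≤ ε c/100`);
  `(1-2ε)/(4 (1+ε)^3) ≥ (1-10ε)/4`.
-/

namespace Pool.Agent.H92.MM

open Finset

section

variable {ι : Type} [Fintype ι] [DecidableEq ι] {L : ℕ}
  {l b : ℕ} {bi : Fin L → ℕ} {a B η ϖ ε Δ κ : ℝ} {T : Finset ℕ} {ω : ℕ → ℝ}
  {m : ι → Fin L → ℕ → ℕ}

/-- expectation under the measure -/
noncomputable def emu (b l : ℕ) (B : ℝ) (T : Finset ℕ) (ω : ℕ → ℝ) (m : ι → Fin L → ℕ → ℕ)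
    (f : ℕ → ℝ) : ℝ :=
  AvT T ω (fun N => sg b l B m N ^ 2 * f N) / AvT T ω (fun N => sg b l B m N ^ 2)

/-- hypotheses on the large functions -/
structure Lg (T : Finset ℕ) (ω : ℕ → ℝ) (m : ι → Fin L → ℕ → ℕ) (a η ϖ ε Δ κ c C : ℝ)
    (F : ι → ℕ → ℝ) (E : ℝ) : Prop where
  one : ∀ x, AppT T ω m a η ϖ (F x) E
  two : ∀ x y, x ≠ y → AppT T ω m a η ϖ (fun N => F x N * F y N) (E ^ 2)
  bd : ∀ x, ∀ N ∈ T, |F x N| ≤ C
  c0 : 0 < c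
  c1 : c ≤ 1
  C1 : 1 ≤ C
  lo : c ≤ E
  hi : E ≤ C
  hΔ : 100 * C ^ 2 * Δ ≤ ε * c ^ 2
  hκ : 4 * κ ≤ Δ * (1 / 4) ^ L

variable {c C E : ℝ} {F : ι → ℕ → ℝ}

private theorem avt_le (hω : ∀ N, 0 ≤ ω N) {f g k : ℕ → ℝ} (c : ℝ)
    (h : ∀ N ∈ T, f N ≤ g N + c * k N) : AvT T ω f ≤ AvT T ω g + c * AvT T ω k := by
  unfold AvT
  rw [mul_sum, ← sum_add_distrib]
  refine sum_le_sum fun N hN => ?_
  have h1 := mul_le_mul_of_nonneg_left (h N hN) (hω N)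
  linarith

private theorem co_par (hS : St (Fintype.card ι) L l b bi a B η ϖ ε Δ κ)
    (hκ : 4 * κ ≤ Δ * (1 / 4) ^ L) : 1 ≤ bn b l ^ Fintype.card ι ∧ 0 < AA b l L ∧
      κ ≤ Δ / 4 ∧ κ ≤ Δ * (bn b l ^ Fintype.card ι * AA b l L) := by
  have hn1 := bn_ge hS.hb hS.ht l
  have hn2 := bn_le hS.hb hS.ht l
  have hS1 := bS_ge hS.hb hS.ht l
  have hl0 : (0 : ℝ) ≤ l := Nat.cast_nonneg l
  have hK1 : 1 ≤ bn b l ^ Fintype.card ι := one_le_pow₀ hn1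
  have hΔ0 := hS.hΔ0
  have hp4 : ((1 : ℝ) / 4) ^ L ≤ 1 := pow_le_one₀ (by norm_num) (by norm_num)
  have hp2 : (0 : ℝ) < (1 / 2) ^ L := by positivity
  have hp42 : ((1 : ℝ) / 4) ^ L ≤ (1 / 2) ^ L := pow_le_pow_left₀ (by norm_num) (by norm_num) L
  have hA : (1 / 2) ^ L / 2 ≤ AA b l L := by
    unfold AA
    rw [div_le_div_iff₀ (by norm_num) (by linarith)]
    have h1 : 1 ≤ bS b l ^ 2 := one_le_pow₀ (by linarith)
    have h2 : (1 / 2 : ℝ) ^ L * bn b l ≤ (1 / 2) ^ L * 2 := mul_le_mul_of_nonneg_left hn2 hp2.le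
    have h3 : (1 / 2 : ℝ) ^ L * 1 ≤ (1 / 2) ^ L * bS b l ^ 2 := mul_le_mul_of_nonneg_left h1 hp2.le
    linarith
  have hA0 : 0 < AA b l L := by linarith
  have h1 : Δ * (1 / 4) ^ L ≤ Δ * 1 := mul_le_mul_of_nonneg_left hp4 hΔ0.le
  have h2 : Δ * (1 / 4) ^ L ≤ Δ * (1 / 2) ^ L := mul_le_mul_of_nonneg_left hp42 hΔ0.le
  have h3 : Δ * ((1 / 2) ^ L / 2) ≤ Δ * AA b l L := mul_le_mul_of_nonneg_left hA hΔ0.le
  have h4 : AA b l L ≤ bn b l ^ Fintype.card ι * AA b l L := by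
    have := mul_le_mul_of_nonneg_right hK1 hA0.le
    linarith
  have h5 : Δ * AA b l L ≤ Δ * (bn b l ^ Fintype.card ι * AA b l L) :=
    mul_le_mul_of_nonneg_left h4 hΔ0.le
  have h6 : 0 < Δ * AA b l L := mul_pos hΔ0 hA0
  exact ⟨hK1, hA0, by linarith, by linarith⟩

theorem co_z [Nonempty ι] (hS : St (Fintype.card ι) L l b bi a B η ϖ ε Δ κ)
    (h1 : AppT T ω m a η ϖ (fun _ => 1) 1) (hκ : 4 * κ ≤ Δ * (1 / 4) ^ L) :
    0 < AvT T ω (fun N => sg b l B m N ^ 2) := by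
  obtain ⟨hK1, hA0, hk1, hk2⟩ := co_par (ι := ι) hS hκ
  have h2 := (fa_z hS h1).1
  have hε := hS.hε1
  have hΔ := hS.hΔ1
  nlinarith

/-- bounds for the constants -/
private theorem co_con (hS : St (Fintype.card ι) L l b bi a B η ϖ ε Δ κ)
    (hL : Lg T ω m a η ϖ ε Δ κ c C F E) : 100 * Δ ≤ ε * c ∧ 100 * (C * Δ) ≤ ε * c ∧
      100 * Δ ≤ ε := by
  have hc0 := hL.c0
  have hc1 := hL.c1
  have hC := hL.C1
  have hΔ0 := hS.hΔ0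
  have hε := hS.hε
  have h1 := hL.hΔ
  have h2 : c ^ 2 ≤ c := by nlinarith
  have h3 : ε * c ^ 2 ≤ ε * c := mul_le_mul_of_nonneg_left h2 hε.le
  have h4 : C * Δ ≤ C ^ 2 * Δ := mul_le_mul_of_nonneg_right (by nlinarith) hΔ0.le
  have h5 : Δ ≤ C * Δ := by nlinarith
  have h6 : ε * c ≤ ε := by nlinarith
  exact ⟨by linarith, by linarith, by linarith⟩

/-- lower bound for the mean -/
theorem co_lo [Nonempty ι] (hS : St (Fintype.card ι) L l b bi a B η ϖ ε Δ κ)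
    (hω : ∀ N, 0 ≤ ω N) (h1 : AppT T ω m a η ϖ (fun _ => 1) 1)
    (hL : Lg T ω m a η ϖ ε Δ κ c C F E) (x : ι) :
    bn b l ^ Fintype.card ι * AA b l L * E * (1 - 2 * ε) ≤
      AvT T ω (fun N => sg b l B m N ^ 2 * (F x N * r0 m x N)) := by
  obtain ⟨hK1, hA0, hk1, hk2⟩ := co_par (ι := ι) hS hL.hκ
  obtain ⟨hc1, hc2, hc3⟩ := co_con hS hL
  obtain ⟨q, hq⟩ : ∃ q, q = bn b l ^ Fintype.card ι * AA b l L := ⟨_, rfl⟩
  have hq0 : 0 < q := by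
    rw [hq]
    exact mul_pos (by linarith) hA0
  have hE : 0 ≤ E := hL.c0.le.trans hL.lo
  have hup := (fa_up hS hE (hL.one x) x).1
  have hdl := fa_dl hS h1 x
  rw [← hq] at hup hdl hk2 ⊢
  have hp : AvT T ω (fun N => sg b l B m N ^ 2 * rp bi m x N * F x N) ≤
      AvT T ω (fun N => sg b l B m N ^ 2 * (F x N * r0 m x N)) +
        C * AvT T ω (fun N => sg b l B m N ^ 2 * dl bi m x N) := by
    refine avt_le hω C fun N hN => ?_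
    have h2 : 0 ≤ sg b l B m N ^ 2 := sq_nonneg _
    have h3 := r0_le_rp (m := m) hS.hbi x N
    have h4 := rp_sub_dl (m := m) hS.hbi x N
    have h5 := (abs_le.1 (hL.bd x N hN)).2
    have hC : 0 ≤ C := by linarith [hL.C1]
    have h6 : F x N * (rp bi m x N - r0 m x N) ≤ C * dl bi m x N := by
      have h7 : F x N * (rp bi m x N - r0 m x N) ≤ C * (rp bi m x N - r0 m x N) :=
        mul_le_mul_of_nonneg_right h5 (by linarith)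
      have h8 : C * (rp bi m x N - r0 m x N) ≤ C * dl bi m x N :=
        mul_le_mul_of_nonneg_left (by linarith) hC
      linarith
    have h9 := mul_le_mul_of_nonneg_left h6 h2
    linarith
  have hC0 : 0 ≤ C := by linarith [hL.C1]
  have hdl2 : C * AvT T ω (fun N => sg b l B m N ^ 2 * dl bi m x N) ≤ C * (3 * Δ * q) :=
    mul_le_mul_of_nonneg_left (by linarith) hC0
  have h2 : (1 - ε) * (1 - Δ) * E * q - κ - C * (3 * Δ * q) ≤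
      AvT T ω (fun N => sg b l B m N ^ 2 * (F x N * r0 m x N)) := by linarith
  refine le_trans ?_ h2
  have hε := hS.hε
  have hΔ0 := hS.hΔ0
  have hc := hL.c0
  have hlo := hL.lo
  -- `(1-2ε) E ≤ (1-ε)(1-Δ) E - (3 C + 1) Δ`
  have h3 : (1 - 2 * ε) * E ≤ (1 - ε) * (1 - Δ) * E - Δ - C * (3 * Δ) := by
    have h4 : ε * c ≤ ε * E := mul_le_mul_of_nonneg_left hlo hε.le
    have h5 : 100 * Δ * E ≤ ε * E := mul_le_mul_of_nonneg_right hc3 hE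
    have h6 : 0 ≤ ε * Δ * E := by positivity
    have h7 : (1 - ε) * (1 - Δ) * E - Δ - C * (3 * Δ) - (1 - 2 * ε) * E =
        ε * E - Δ * E + ε * Δ * E - Δ - 3 * (C * Δ) := by ring
    have h8 : 0 < ε * c := mul_pos hε hc
    linarith
  have h4 := mul_le_mul_of_nonneg_right h3 hq0.le
  linarith

/-- upper bound for `z` -/
theorem co_zup [Nonempty ι] (hS : St (Fintype.card ι) L l b bi a B η ϖ ε Δ κ)
    (h1 : AppT T ω m a η ϖ (fun _ => 1) 1) (hL : Lg T ω m a η ϖ ε Δ κ c C F E) :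
    AvT T ω (fun N => sg b l B m N ^ 2) ≤ bn b l ^ Fintype.card ι * (1 + ε / 400) := by
  obtain ⟨hK1, hA0, hk1, hk2⟩ := co_par (ι := ι) hS hL.hκ
  obtain ⟨hc1, hc2, hc3⟩ := co_con hS hL
  have h2 := (fa_z hS h1).2
  have hε := hS.hε
  have h3 : κ ≤ ε / 400 := by linarith
  have h4 : 1 * (ε / 400) ≤ bn b l ^ Fintype.card ι * (ε / 400) :=
    mul_le_mul_of_nonneg_right hK1 (by linarith)
  linarith

theorem co_mean [Nonempty ι] (hS : St (Fintype.card ι) L l b bi a B η ϖ ε Δ κ)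
    (hω : ∀ N, 0 ≤ ω N) (h1 : AppT T ω m a η ϖ (fun _ => 1) 1)
    (hL : Lg T ω m a η ϖ ε Δ κ c C F E) (x : ι) :
    c / 4 * AA b l L ≤ emu b l B T ω m (fun N => F x N * r0 m x N) := by
  obtain ⟨hK1, hA0, hk1, hk2⟩ := co_par (ι := ι) hS hL.hκ
  have hz := co_z hS h1 hL.hκ
  have hzu := co_zup hS h1 hL
  have hlo := co_lo hS hω h1 hL x
  unfold emu
  rw [le_div_iff₀ hz]
  refine le_trans ?_ hlo
  have hε := hS.hε
  have hε1 := hS.hε1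
  have hc := hL.c0
  have hcE := hL.lo
  have hq0 : 0 < bn b l ^ Fintype.card ι * AA b l L := mul_pos (by linarith) hA0
  have h2 : c / 4 * AA b l L * AvT T ω (fun N => sg b l B m N ^ 2) ≤
      c / 4 * AA b l L * (bn b l ^ Fintype.card ι * (1 + ε / 400)) :=
    mul_le_mul_of_nonneg_left hzu (by positivity)
  have h3 : c / 4 * (1 + ε / 400) ≤ E * (1 - 2 * ε) := by nlinarith
  have h4 := mul_le_mul_of_nonneg_left h3 hq0.le
  linarith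

theorem co_sq [Nonempty ι] (hS : St (Fintype.card ι) L l b bi a B η ϖ ε Δ κ)
    (hω : ∀ N, 0 ≤ ω N) (h1 : AppT T ω m a η ϖ (fun _ => 1) 1)
    (hL : Lg T ω m a η ϖ ε Δ κ c C F E) (x : ι) :
    emu b l B T ω m (fun N => (F x N * r0 m x N) ^ 2) ≤
      4 * C ^ 2 / c * emu b l B T ω m (fun N => F x N * r0 m x N) := by
  obtain ⟨hK1, hA0, hk1, hk2⟩ := co_par (ι := ι) hS hL.hκ
  have hz := co_z hS h1 hL.hκ
  have hlo := co_lo hS hω h1 hL x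
  have hup := (fa_up hS zero_le_one h1 x).2
  obtain ⟨q, hq⟩ : ∃ q, q = bn b l ^ Fintype.card ι * AA b l L := ⟨_, rfl⟩
  have hq0 : 0 < q := by
    rw [hq]
    exact mul_pos (by linarith) hA0
  rw [← hq] at hlo hup hk2
  have hε1 := hS.hε1
  have hΔ1 := hS.hΔ1
  have hc := hL.c0
  have hcE := hL.lo
  have hsq : AvT T ω (fun N => sg b l B m N ^ 2 * (F x N * r0 m x N) ^ 2) ≤
      AvT T ω (fun _ => 0) + C ^ 2 *
        AvT T ω (fun N => sg b l B m N ^ 2 * rp bi m x N * 1) := by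
    refine avt_le hω (C ^ 2) fun N hN => ?_
    have h2 : 0 ≤ sg b l B m N ^ 2 := sq_nonneg _
    have h3 := r0_le_rp (m := m) hS.hbi x N
    have h4 := r0_nonneg (m := m) x N
    have h5 := r0_le_one (m := m) x N
    have h6 : F x N ^ 2 ≤ C ^ 2 := sq_le_sq' (by linarith [(abs_le.1 (hL.bd x N hN)).1])
      (abs_le.1 (hL.bd x N hN)).2
    have h7 : r0 m x N ^ 2 ≤ rp bi m x N := by nlinarith
    have h8 : (F x N * r0 m x N) ^ 2 ≤ C ^ 2 * rp bi m x N := by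
      rw [mul_pow]
      exact mul_le_mul h6 h7 (sq_nonneg _) (sq_nonneg _)
    have h9 := mul_le_mul_of_nonneg_left h8 h2
    linarith
  have h0 : AvT T ω (fun _ => 0) = 0 := by
    unfold AvT
    simp
  rw [h0, zero_add] at hsq
  unfold emu
  rw [← mul_div_assoc]
  refine div_le_div_of_nonneg_right ?_ hz.le
  have h2 : AvT T ω (fun N => sg b l B m N ^ 2 * rp bi m x N * 1) ≤ 2 * q := by
    nlinarith
  have h3 : C ^ 2 * AvT T ω (fun N => sg b l B m N ^ 2 * rp bi m x N * 1) ≤ C ^ 2 * (2 * q) :=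
    mul_le_mul_of_nonneg_left h2 (sq_nonneg _)
  have h4 : q * (c / 2) ≤ AvT T ω (fun N => sg b l B m N ^ 2 * (F x N * r0 m x N)) := by
    refine le_trans ?_ hlo
    rw [mul_assoc]
    refine mul_le_mul_of_nonneg_left ?_ hq0.le
    nlinarith
  have h5 : 4 * C ^ 2 / c * (q * (c / 2)) ≤
      4 * C ^ 2 / c * AvT T ω (fun N => sg b l B m N ^ 2 * (F x N * r0 m x N)) :=
    mul_le_mul_of_nonneg_left h4 (by positivity)
  have h6 : 4 * C ^ 2 / c * (q * (c / 2)) = C ^ 2 * (2 * q) := by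
    field_simp
    ring
  linarith

end

end Pool.Agent.H92.MM
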