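import Pool.Agent.H92.MM.Co

/-!
# [H92 MM CP] Pair correlations and primes

`z = Av σ^2`, `E_μ f = Av(σ^2 f)/z` (`emu`).  `ζ = z/n^K`, `|ζ - 1| ≤ ε + κ`.  Hypotheses: `1 ≤ C`, `0 < c ≤ 1`, `c ≤ E ≤ C`,
`100 C^2 Δ ≤ ε c^2`, `4 κ ≤ Δ (1/4)^L`.  `AA ≥ (1/2)^L/2` (`bS ≥ 1`, `bn ≤ 2`), so `κ ≤ Δ AA^2`, `κ ≤ Δ AA`, `κ ≤ ε/100`.
`lo x = F x * r0 x`.
* `co_lo`: `Av(σ^2 F r0) ≥ Av(σ^2 F rp) - C Av(σ^2 dl)` (`|F| ≤ C`, `0 ≤ rp - r0 ≤ dl`) `≥ n^K AA ((1-ε)(1-Δ) E - 2 C Δ - (1+C) Δ)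
  ≥ n^K AA E (1 - 2 ε)`.
* `co_pair`: `rp rp' - r0 r0' ≤ dl rp' + rp dl'`; `Av(σ^2 F F' r0 r0') ≤ Av(σ^2 F F' rp rp') + C^2 Av(σ^2 (dl rp' + dl' rp))
  ≤ n^K AA^2 ((1+Δ)^2 E^2 + 8 C^2 Δ + 3 C^2 Δ) ≤ n^K AA^2 E^2 (1 + ε)`; divide: `(1+ε) ζ/(1-2ε)^2 ≤ 1 + 10 ε`.
* `co_sq`: `Av(σ^2 F^2 r0) ≤ C^2 Av(σ^2 rp) ≤ 2 C^2 n^K AA`; `E_μ lo ≥ n^K AA c/2/z`; quotient `≤ 4 C^2/c`.
* `co_mean`: `E_μ lo ≥ AA c (1-2ε)/ζ ≥ AA c/4`.
* `co_prime`: `F ≥ 0`: `z E_μ g ≤ Av(σ^2 F rp) ≤ n^K AA (E (1+Δ) + Δ) ≤ n^K AA E (1+ε)`;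
  `z μ(P) ≥ n^K AA (2^L pr (1-ε) - Δ) ≥ n^K AA 2^L pr (1-2ε)` (`2^L pr ≥ E/(4 (1+ε)^2) ≥ c/5`, `Δ ≤ ε c/100`);
  `(1-2ε)/(4 (1+ε)^3) ≥ (1-10ε)/4`.
-/

namespace Pool.Agent.H92.MM

open Finset

section

variable {ι : Type} [Fintype ι] [DecidableEq ι] {L : ℕ}
  {l b : ℕ} {bi : Fin L → ℕ} {a B η ϖ ε Δ κ : ℝ} {T : Finset ℕ} {ω : ℕ → ℝ}
  {m : ι → Fin L → ℕ → ℕ}

variable {c C E : ℝ} {F : ι → ℕ → ℝ}

private theorem cp_le (hω : ∀ N, 0 ≤ ω N) {f g k k' : ℕ → ℝ} (c : ℝ)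
    (h : ∀ N ∈ T, f N ≤ g N + c * (k N + k' N)) :
    AvT T ω f ≤ AvT T ω g + c * (AvT T ω k + AvT T ω k') := by
  unfold AvT
  rw [← sum_add_distrib, mul_sum, ← sum_add_distrib]
  refine sum_le_sum fun N hN => ?_
  have h1 := mul_le_mul_of_nonneg_left (h N hN) (hω N)
  linarith

private theorem cp_par (hS : St (Fintype.card ι) L l b bi a B η ϖ ε Δ κ)
    (hκ : 4 * κ ≤ Δ * (1 / 4) ^ L) : 1 ≤ bn b l ^ Fintype.card ι ∧ 0 < AA b l L ∧
      κ ≤ Δ * (bn b l ^ Fintype.card ι * AA b l L) ∧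
      κ ≤ Δ * (bn b l ^ Fintype.card ι * AA b l L ^ 2) := by
  have hn1 := bn_ge hS.hb hS.ht l
  have hn2 := bn_le hS.hb hS.ht l
  have hS1 := bS_ge hS.hb hS.ht l
  have hl0 : (0 : ℝ) ≤ l := Nat.cast_nonneg l
  have hK1 : 1 ≤ bn b l ^ Fintype.card ι := one_le_pow₀ hn1
  have hΔ0 := hS.hΔ0
  have hp2 : (0 : ℝ) < (1 / 2) ^ L := by positivity
  have hp42 : ((1 : ℝ) / 4) ^ L ≤ (1 / 2) ^ L := pow_le_pow_left₀ (by norm_num) (by norm_num) L
  have hA : (1 / 2) ^ L / 2 ≤ AA b l L := by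
    unfold AA
    rw [div_le_div_iff₀ (by norm_num) (by linarith)]
    have h1 : 1 ≤ bS b l ^ 2 := one_le_pow₀ (by linarith)
    have h2 : (1 / 2 : ℝ) ^ L * bn b l ≤ (1 / 2) ^ L * 2 := mul_le_mul_of_nonneg_left hn2 hp2.le
    have h3 : (1 / 2 : ℝ) ^ L * 1 ≤ (1 / 2) ^ L * bS b l ^ 2 := mul_le_mul_of_nonneg_left h1 hp2.le
    linarith
  have hA0 : 0 < AA b l L := by linarith
  have h2 : Δ * (1 / 4) ^ L ≤ Δ * (1 / 2) ^ L := mul_le_mul_of_nonneg_left hp42 hΔ0.le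
  have h3 : Δ * ((1 / 2) ^ L / 2) ≤ Δ * AA b l L := mul_le_mul_of_nonneg_left hA hΔ0.le
  have h4 : AA b l L ≤ bn b l ^ Fintype.card ι * AA b l L := by
    have := mul_le_mul_of_nonneg_right hK1 hA0.le
    linarith
  have h5 : Δ * AA b l L ≤ Δ * (bn b l ^ Fintype.card ι * AA b l L) :=
    mul_le_mul_of_nonneg_left h4 hΔ0.le
  have h6 : 0 < Δ * AA b l L := mul_pos hΔ0 hA0
  have h7 : (1 / 4 : ℝ) ^ L = ((1 / 2) ^ L) ^ 2 := by
    rw [← pow_mul, mul_comm L 2, pow_mul]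
    norm_num
  have h8 : ((1 / 2 : ℝ) ^ L / 2) ^ 2 ≤ AA b l L ^ 2 :=
    pow_le_pow_left₀ (by positivity) hA 2
  have h9 : AA b l L ^ 2 ≤ bn b l ^ Fintype.card ι * AA b l L ^ 2 := by
    have := mul_le_mul_of_nonneg_right hK1 (sq_nonneg (AA b l L))
    linarith
  have h10 : Δ * ((1 / 4) ^ L / 4) ≤ Δ * (bn b l ^ Fintype.card ι * AA b l L ^ 2) := by
    refine mul_le_mul_of_nonneg_left ?_ hΔ0.le
    rw [h7]
    linarith
  exact ⟨hK1, hA0, by linarith, by linarith⟩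

theorem co_pair [Nonempty ι] (hS : St (Fintype.card ι) L l b bi a B η ϖ ε Δ κ)
    (hω : ∀ N, 0 ≤ ω N) (h1 : AppT T ω m a η ϖ (fun _ => 1) 1)
    (hL : Lg T ω m a η ϖ ε Δ κ c C F E) {x y : ι} (hxy : x ≠ y) :
    emu b l B T ω m (fun N => (F x N * r0 m x N) * (F y N * r0 m y N)) ≤
      (1 + 10 * ε) * (emu b l B T ω m (fun N => F x N * r0 m x N) *
        emu b l B T ω m (fun N => F y N * r0 m y N)) := by
  obtain ⟨hK1, hA0, hk1, hk2⟩ := cp_par (ι := ι) hS hL.hκ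
  have hz := co_z hS h1 hL.hκ
  have hzu := co_zup hS h1 hL
  have hlox := co_lo hS hω h1 hL x
  have hloy := co_lo hS hω h1 hL y
  have hε := hS.hε
  have hε1 := hS.hε1
  have hΔ0 := hS.hΔ0
  have hΔ1 := hS.hΔ1
  have hc := hL.c0
  have hc1 := hL.c1
  have hcE := hL.lo
  have hC1 := hL.C1
  have hE0 : 0 < E := by linarith
  obtain ⟨n, hn⟩ : ∃ n, n = bn b l ^ Fintype.card ι := ⟨_, rfl⟩
  obtain ⟨A, hA⟩ : ∃ A, A = AA b l L := ⟨_, rfl⟩
  obtain ⟨z, hzd⟩ : ∃ z, z = AvT T ω (fun N => sg b l B m N ^ 2) := ⟨_, rfl⟩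
  obtain ⟨X, hX⟩ : ∃ X, X = AvT T ω (fun N => sg b l B m N ^ 2 * (F x N * r0 m x N)) := ⟨_, rfl⟩
  obtain ⟨Y, hY⟩ : ∃ Y, Y = AvT T ω (fun N => sg b l B m N ^ 2 * (F y N * r0 m y N)) := ⟨_, rfl⟩
  obtain ⟨V, hV⟩ : ∃ V, V = AvT T ω (fun N => sg b l B m N ^ 2 *
    ((F x N * r0 m x N) * (F y N * r0 m y N))) := ⟨_, rfl⟩
  have hup := fa_up2 hS (sq_nonneg E) (hL.two x y hxy) hxy
  have hd1 := fa_dl2 hS h1 hxy
  have hd2 := fa_dl2 hS h1 hxy.symm
  have hp : V ≤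
      AvT T ω (fun N => sg b l B m N ^ 2 * (rp bi m x N * rp bi m y N) * (F x N * F y N)) +
        C ^ 2 * (AvT T ω (fun N => sg b l B m N ^ 2 * (dl bi m x N * rp bi m y N)) +
          AvT T ω (fun N => sg b l B m N ^ 2 * (dl bi m y N * rp bi m x N))) := by
    rw [hV]
    refine cp_le hω (C ^ 2) fun N hN => ?_
    have e2 : 0 ≤ sg b l B m N ^ 2 := sq_nonneg _
    have ax := r0_le_rp (m := m) hS.hbi x N
    have ay := r0_le_rp (m := m) hS.hbi y N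
    have bx := rp_sub_dl (m := m) hS.hbi x N
    have b_y := rp_sub_dl (m := m) hS.hbi y N
    have cx := r0_nonneg (m := m) x N
    have cy := r0_nonneg (m := m) y N
    have dx := dl_nonneg (m := m) hS.hbi x N
    have dy := dl_nonneg (m := m) hS.hbi y N
    have ex := rp_nonneg (m := m) hS.hbi x N
    have ey := rp_nonneg (m := m) hS.hbi y N
    have f1 : |F x N * F y N| ≤ C ^ 2 := by
      rw [abs_mul, sq]
      exact mul_le_mul (hL.bd x N hN) (hL.bd y N hN) (abs_nonneg _) (by linarith)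
    have f2 := (abs_le.1 f1).1
    have g1 : 0 ≤ rp bi m x N * rp bi m y N - r0 m x N * r0 m y N := by
      have := mul_le_mul ax ay cy ex
      linarith
    have g2 : rp bi m x N * rp bi m y N - r0 m x N * r0 m y N ≤
        dl bi m x N * rp bi m y N + dl bi m y N * rp bi m x N := by
      have e3 : rp bi m x N * rp bi m y N - r0 m x N * r0 m y N =
          (rp bi m x N - r0 m x N) * rp bi m y N + r0 m x N * (rp bi m y N - r0 m y N) := by
        ring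
      rw [e3]
      have e4 : (rp bi m x N - r0 m x N) * rp bi m y N ≤ dl bi m x N * rp bi m y N :=
        mul_le_mul_of_nonneg_right (by linarith) ey
      have e5 : r0 m x N * (rp bi m y N - r0 m y N) ≤ rp bi m x N * dl bi m y N :=
        mul_le_mul ax (by linarith) (by linarith) ex
      linarith
    have g3 : -(F x N * F y N) * (rp bi m x N * rp bi m y N - r0 m x N * r0 m y N) ≤
        C ^ 2 * (rp bi m x N * rp bi m y N - r0 m x N * r0 m y N) :=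
      mul_le_mul_of_nonneg_right (by linarith) g1
    have g4 : C ^ 2 * (rp bi m x N * rp bi m y N - r0 m x N * r0 m y N) ≤
        C ^ 2 * (dl bi m x N * rp bi m y N + dl bi m y N * rp bi m x N) :=
      mul_le_mul_of_nonneg_left g2 (sq_nonneg _)
    have g5 : (F x N * r0 m x N) * (F y N * r0 m y N) ≤
        (rp bi m x N * rp bi m y N) * (F x N * F y N) +
          C ^ 2 * (dl bi m x N * rp bi m y N + dl bi m y N * rp bi m x N) := by
      have e6 : (F x N * r0 m x N) * (F y N * r0 m y N) =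
          (rp bi m x N * rp bi m y N) * (F x N * F y N) +
          -(F x N * F y N) * (rp bi m x N * rp bi m y N - r0 m x N * r0 m y N) := by
        ring
      linarith
    have g6 := mul_le_mul_of_nonneg_left g5 e2
    linarith
  have hC2 : 0 ≤ C ^ 2 := sq_nonneg C
  have hc2 : c ^ 2 ≤ E ^ 2 := pow_le_pow_left₀ hc.le hcE 2
  rw [← hn, ← hA] at hup hd1 hd2 hlox hloy hk2
  rw [← hn] at hzu hK1
  rw [← hA] at hA0
  rw [← hX] at hlox
  rw [← hY] at hloy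
  rw [← hzd] at hz hzu
  obtain ⟨Q, hQ⟩ : ∃ Q, Q = n * A ^ 2 := ⟨_, rfl⟩
  have hQ0 : 0 < Q := by
    rw [hQ]
    exact mul_pos (by linarith) (pow_pos hA0 2)
  rw [← hQ] at hup hd1 hd2 hk2
  have hCd : C ^ 2 * (AvT T ω (fun N => sg b l B m N ^ 2 * (dl bi m x N * rp bi m y N)) +
      AvT T ω (fun N => sg b l B m N ^ 2 * (dl bi m y N * rp bi m x N))) ≤
      C ^ 2 * (10 * Δ * Q) := mul_le_mul_of_nonneg_left (by linarith) hC2
  have hCΔ : 100 * (C ^ 2 * Δ) ≤ ε * E ^ 2 := by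
    have := hL.hΔ
    have h3 : ε * c ^ 2 ≤ ε * E ^ 2 := mul_le_mul_of_nonneg_left hc2 hε.le
    linarith
  have hΔE : 100 * Δ ≤ ε * E ^ 2 := by
    have h3 : Δ ≤ C ^ 2 * Δ := by
      have h4 : 1 ≤ C ^ 2 := one_le_pow₀ hC1
      nlinarith
    linarith
  have hΔε : 100 * Δ ≤ ε := by
    have h3 := hL.hΔ
    have h4 : c ^ 2 ≤ 1 := pow_le_one₀ hc.le hc1
    have h5 : ε * c ^ 2 ≤ ε * 1 := mul_le_mul_of_nonneg_left h4 hε.le
    have h6 : Δ ≤ C ^ 2 * Δ := by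
      have h4 : 1 ≤ C ^ 2 := one_le_pow₀ hC1
      nlinarith
    linarith
  have hE2 : 0 < E ^ 2 := pow_pos hE0 2
  have hVle : V ≤ Q * E ^ 2 * (1 + ε) := by
    have h3 : (1 + Δ) ^ 2 * E ^ 2 + Δ + C ^ 2 * (10 * Δ) ≤ E ^ 2 * (1 + ε) := by
      have h4 : (1 + Δ) ^ 2 ≤ 1 + 3 * Δ := by nlinarith
      have h5 : (1 + Δ) ^ 2 * E ^ 2 ≤ (1 + 3 * Δ) * E ^ 2 :=
        mul_le_mul_of_nonneg_right h4 hE2.le
      have h6 : 100 * Δ * E ^ 2 ≤ ε * E ^ 2 := mul_le_mul_of_nonneg_right hΔε hE2.le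
      nlinarith
    have h4 := mul_le_mul_of_nonneg_left h3 hQ0.le
    linarith
  have hlow : n * A * E * (1 - 2 * ε) * (n * A * E * (1 - 2 * ε)) ≤ X * Y := by
    have h3 : 0 ≤ n * A * E * (1 - 2 * ε) := by
      have : 0 < n := by linarith
      exact mul_nonneg (by positivity) (by linarith)
    exact mul_le_mul hlox hloy h3 (h3.trans hlox)
  have hfin : V * z ≤ (1 + 10 * ε) * (X * Y) := by
    have h3 : V * z ≤ Q * E ^ 2 * (1 + ε) * (n * (1 + ε / 400)) := by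
      have h4 : V * z ≤ Q * E ^ 2 * (1 + ε) * z := mul_le_mul_of_nonneg_right hVle hz.le
      have h5 : Q * E ^ 2 * (1 + ε) * z ≤ Q * E ^ 2 * (1 + ε) * (n * (1 + ε / 400)) :=
        mul_le_mul_of_nonneg_left hzu (by positivity)
      linarith
    have h4 : (1 + 10 * ε) * (n * A * E * (1 - 2 * ε) * (n * A * E * (1 - 2 * ε))) ≤
        (1 + 10 * ε) * (X * Y) := mul_le_mul_of_nonneg_left hlow (by linarith)
    refine h3.trans (le_trans ?_ h4)
    have h5 : Q * E ^ 2 * (1 + ε) * (n * (1 + ε / 400)) =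
        (n * n * A ^ 2 * E ^ 2) * ((1 + ε) * (1 + ε / 400)) := by
      rw [hQ]
      ring
    have h6 : (1 + 10 * ε) * (n * A * E * (1 - 2 * ε) * (n * A * E * (1 - 2 * ε))) =
        (n * n * A ^ 2 * E ^ 2) * ((1 + 10 * ε) * (1 - 2 * ε) ^ 2) := by
      ring
    rw [h5, h6]
    refine mul_le_mul_of_nonneg_left ?_ ?_
    · nlinarith [mul_pos hε hε, mul_pos (mul_pos hε hε) hε]
    · have : 0 < n := by linarith
      positivity
  unfold emu
  rw [← hV, ← hX, ← hY, ← hzd, div_mul_div_comm, ← mul_div_assoc, div_le_div_iff₀ hz (mul_pos hz hz)]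
  have h3 := mul_le_mul_of_nonneg_right hfin hz.le
  linarith

open Classical in
theorem co_prime [Nonempty ι] (hS : St (Fintype.card ι) L l b bi a B η ϖ ε Δ κ)
    (hω : ∀ N, 0 ≤ ω N) (h1 : AppT T ω m a η ϖ (fun _ => 1) 1)
    (hL : Lg T ω m a η ϖ ε Δ κ c C F E) (x : ι) (hF : ∀ N ∈ T, 0 ≤ F x N) (P : ℕ → Prop)
    {pr : ℝ} (hP : ∀ N ∈ T, P N → ∀ i, m x i N = 0)
    (h : ∀ A : ι → Fin L → ℕ, (∀ i, A x i = 0) → sl a L A ≤ η →
      |AvT T ω (fun N => mon m A N * (if P N then 1 else 0)) - sv L A * pr| ≤ ϖ)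
    (hpr : E ≤ 4 * (1 + ε) ^ 2 * (2 ^ L * pr)) :
    (1 - 10 * ε) / 4 * emu b l B T ω m (fun N => F x N * r0 m x N) ≤
      emu b l B T ω m (fun N => if P N then 1 else 0) := by
  obtain ⟨hK1, hA0, hk1, hk2⟩ := cp_par (ι := ι) hS hL.hκ
  have hz := co_z hS h1 hL.hκ
  have hε := hS.hε
  have hε1 := hS.hε1
  have hΔ0 := hS.hΔ0
  have hΔ1 := hS.hΔ1
  have hc := hL.c0
  have hc1 := hL.c1
  have hcE := hL.lo
  have hC1 := hL.C1
  have hE0 : 0 < E := by linarith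
  obtain ⟨R, hR⟩ : ∃ R, R = 2 ^ L * pr := ⟨_, rfl⟩
  rw [← hR] at hpr
  have hR0 : 0 < R := by
    by_contra h2
    have h3 : 4 * (1 + ε) ^ 2 * R ≤ 0 := mul_nonpos_of_nonneg_of_nonpos (by positivity) (not_lt.1 h2)
    linarith
  have hpr0 : 0 ≤ pr := by
    by_contra h2
    have h3 : (2 : ℝ) ^ L * pr < 0 := mul_neg_of_pos_of_neg (by positivity) (not_le.1 h2)
    linarith
  have hfp := fa_pr hS P hpr0 x hP h
  have hup := (fa_up hS hE0.le (hL.one x) x).2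
  obtain ⟨q, hq⟩ : ∃ q, q = bn b l ^ Fintype.card ι * AA b l L := ⟨_, rfl⟩
  have hq0 : 0 < q := by
    rw [hq]
    exact mul_pos (by linarith) hA0
  rw [← hq] at hup hfp hk1
  have hΔε : 100 * Δ ≤ ε * c := by
    have h3 := hL.hΔ
    have h4 : c ^ 2 ≤ c := by nlinarith
    have h5 : ε * c ^ 2 ≤ ε * c := mul_le_mul_of_nonneg_left h4 hε.le
    have h6 : Δ ≤ C ^ 2 * Δ := by
      have h4 : 1 ≤ C ^ 2 := one_le_pow₀ hC1
      nlinarith
    linarith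
  -- upper bound for the numerator
  have hX : AvT T ω (fun N => sg b l B m N ^ 2 * (F x N * r0 m x N)) ≤
      AvT T ω (fun N => sg b l B m N ^ 2 * rp bi m x N * F x N) + 0 * (AvT T ω (fun _ => 0) +
        AvT T ω (fun _ => 0)) := by
    refine cp_le hω 0 fun N hN => ?_
    have h2 : 0 ≤ sg b l B m N ^ 2 := sq_nonneg _
    have h3 := r0_le_rp (m := m) hS.hbi x N
    have h4 := mul_le_mul_of_nonneg_left h3 (hF N hN)
    have h5 := mul_le_mul_of_nonneg_left h4 h2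
    linarith
  have hX2 : AvT T ω (fun N => sg b l B m N ^ 2 * (F x N * r0 m x N)) ≤ q * (E * (1 + ε)) := by
    have h3 : (1 + Δ) * E + Δ ≤ E * (1 + ε) := by
      have h4 : 100 * Δ ≤ ε * E := by
        have := mul_le_mul_of_nonneg_left hcE hε.le
        linarith
      have h5 : 100 * Δ ≤ ε := by nlinarith
      have h6 : 100 * Δ * E ≤ ε * E := mul_le_mul_of_nonneg_right h5 hE0.le
      nlinarith
    have h4 := mul_le_mul_of_nonneg_left h3 hq0.le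
    linarith
  have hRc : E ≤ 5 * R := by
    have h3 : 4 * (1 + ε) ^ 2 ≤ 5 := by nlinarith
    have h4 := mul_le_mul_of_nonneg_right h3 hR0.le
    linarith
  have hY : q * (R * (1 - 2 * ε)) ≤
      AvT T ω (fun N => sg b l B m N ^ 2 * (if P N then 1 else 0)) := by
    refine le_trans ?_ hfp
    have h3 : (1 - ε) * pr * (2 ^ L * q) = q * ((1 - ε) * R) := by
      rw [hR]
      ring
    rw [h3]
    have h4 : Δ ≤ ε * R := by
      have h5 : ε * c ≤ ε * (5 * R) := mul_le_mul_of_nonneg_left (hcE.trans hRc) hε.le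
      have h6 : 0 < ε * R := mul_pos hε hR0
      linarith
    have h5 := mul_le_mul_of_nonneg_left h4 hq0.le
    linarith
  have hfin : (1 - 10 * ε) / 4 *
      AvT T ω (fun N => sg b l B m N ^ 2 * (F x N * r0 m x N)) ≤
      AvT T ω (fun N => sg b l B m N ^ 2 * (if P N then 1 else 0)) := by
    have h3 : (1 - 10 * ε) / 4 * AvT T ω (fun N => sg b l B m N ^ 2 * (F x N * r0 m x N)) ≤
        (1 - 10 * ε) / 4 * (q * (E * (1 + ε))) := mul_le_mul_of_nonneg_left hX2 (by linarith)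
    refine h3.trans (le_trans ?_ hY)
    have h4 : (1 - 10 * ε) / 4 * (q * (E * (1 + ε))) = q * ((1 - 10 * ε) / 4 * (1 + ε) * E) := by
      ring
    rw [h4]
    refine mul_le_mul_of_nonneg_left ?_ hq0.le
    have h5 : (1 - 10 * ε) / 4 * (1 + ε) * E ≤
        (1 - 10 * ε) / 4 * (1 + ε) * (4 * (1 + ε) ^ 2 * R) :=
      mul_le_mul_of_nonneg_left hpr (mul_nonneg (by linarith) (by linarith))
    refine h5.trans ?_
    have h6 : (1 - 10 * ε) / 4 * (1 + ε) * (4 * (1 + ε) ^ 2 * R) =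
        R * ((1 - 10 * ε) * (1 + ε) ^ 3) := by ring
    rw [h6]
    refine mul_le_mul_of_nonneg_left ?_ hR0.le
    nlinarith [mul_pos hε hε, mul_pos (mul_pos hε hε) hε]
  unfold emu
  rw [← mul_div_assoc]
  exact div_le_div_of_nonneg_right hfin hz.le

open Classical in
/-- `co_prime` with a general constant -/
theorem co_primeC [Nonempty ι] (hS : St (Fintype.card ι) L l b bi a B η ϖ ε Δ κ)
    (hω : ∀ N, 0 ≤ ω N) (h1 : AppT T ω m a η ϖ (fun _ => 1) 1)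
    (hL : Lg T ω m a η ϖ ε Δ κ c C F E) (x : ι) (hF : ∀ N ∈ T, 0 ≤ F x N) (P : ℕ → Prop)
    {pr : ℝ} (hP : ∀ N ∈ T, P N → ∀ i, m x i N = 0)
    (h : ∀ A : ι → Fin L → ℕ, (∀ i, A x i = 0) → sl a L A ≤ η →
      |AvT T ω (fun N => mon m A N * (if P N then 1 else 0)) - sv L A * pr| ≤ ϖ)
    {cc : ℝ} (hcc : 1 / 10 ≤ cc) (hcc1 : cc ≤ 1)
    (hpr : cc * E ≤ (1 + ε) ^ 2 * (2 ^ L * pr)) :
    (1 - 10 * ε) * cc * emu b l B T ω m (fun N => F x N * r0 m x N) ≤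
      emu b l B T ω m (fun N => if P N then 1 else 0) := by
  obtain ⟨hK1, hA0, hk1, hk2⟩ := cp_par (ι := ι) hS hL.hκ
  have hz := co_z hS h1 hL.hκ
  have hε := hS.hε
  have hε1 := hS.hε1
  have hΔ0 := hS.hΔ0
  have hΔ1 := hS.hΔ1
  have hc := hL.c0
  have hc1 := hL.c1
  have hcE := hL.lo
  have hC1 := hL.C1
  have hE0 : 0 < E := by linarith
  obtain ⟨R, hR⟩ : ∃ R, R = 2 ^ L * pr := ⟨_, rfl⟩
  rw [← hR] at hpr
  have hR0 : 0 < R := by
    by_contra h2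
    have h4 : 0 < cc * E := mul_pos (by linarith) hE0
    have h3 : (1 + ε) ^ 2 * R ≤ 0 := mul_nonpos_of_nonneg_of_nonpos (by positivity) (not_lt.1 h2)
    linarith
  have hpr0 : 0 ≤ pr := by
    by_contra h2
    have h3 : (2 : ℝ) ^ L * pr < 0 := mul_neg_of_pos_of_neg (by positivity) (not_le.1 h2)
    linarith
  have hfp := fa_pr hS P hpr0 x hP h
  have hup := (fa_up hS hE0.le (hL.one x) x).2
  obtain ⟨q, hq⟩ : ∃ q, q = bn b l ^ Fintype.card ι * AA b l L := ⟨_, rfl⟩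
  have hq0 : 0 < q := by
    rw [hq]
    exact mul_pos (by linarith) hA0
  rw [← hq] at hup hfp hk1
  have hΔε : 100 * Δ ≤ ε * c := by
    have h3 := hL.hΔ
    have h4 : c ^ 2 ≤ c := by nlinarith
    have h5 : ε * c ^ 2 ≤ ε * c := mul_le_mul_of_nonneg_left h4 hε.le
    have h6 : Δ ≤ C ^ 2 * Δ := by
      have h4 : 1 ≤ C ^ 2 := one_le_pow₀ hC1
      nlinarith
    linarith
  -- upper bound for the numerator
  have hX : AvT T ω (fun N => sg b l B m N ^ 2 * (F x N * r0 m x N)) ≤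
      AvT T ω (fun N => sg b l B m N ^ 2 * rp bi m x N * F x N) + 0 * (AvT T ω (fun _ => 0) +
        AvT T ω (fun _ => 0)) := by
    refine cp_le hω 0 fun N hN => ?_
    have h2 : 0 ≤ sg b l B m N ^ 2 := sq_nonneg _
    have h3 := r0_le_rp (m := m) hS.hbi x N
    have h4 := mul_le_mul_of_nonneg_left h3 (hF N hN)
    have h5 := mul_le_mul_of_nonneg_left h4 h2
    linarith
  have hX2 : AvT T ω (fun N => sg b l B m N ^ 2 * (F x N * r0 m x N)) ≤ q * (E * (1 + ε)) := by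
    have h3 : (1 + Δ) * E + Δ ≤ E * (1 + ε) := by
      have h4 : 100 * Δ ≤ ε * E := by
        have := mul_le_mul_of_nonneg_left hcE hε.le
        linarith
      have h5 : 100 * Δ ≤ ε := by nlinarith
      have h6 : 100 * Δ * E ≤ ε * E := mul_le_mul_of_nonneg_right h5 hE0.le
      nlinarith
    have h4 := mul_le_mul_of_nonneg_left h3 hq0.le
    linarith
  have hRc : E ≤ 11 * R := by
    have h3 : 10 * (1 + ε) ^ 2 ≤ 11 := by nlinarith
    have h4 := mul_le_mul_of_nonneg_right h3 hR0.le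
    have h5 : 1 / 10 * E ≤ cc * E := mul_le_mul_of_nonneg_right hcc hE0.le
    linarith
  have hY : q * (R * (1 - 2 * ε)) ≤
      AvT T ω (fun N => sg b l B m N ^ 2 * (if P N then 1 else 0)) := by
    refine le_trans ?_ hfp
    have h3 : (1 - ε) * pr * (2 ^ L * q) = q * ((1 - ε) * R) := by
      rw [hR]
      ring
    rw [h3]
    have h4 : Δ ≤ ε * R := by
      have h5 : ε * c ≤ ε * (11 * R) := mul_le_mul_of_nonneg_left (hcE.trans hRc) hε.le
      have h6 : 0 < ε * R := mul_pos hε hR0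
      linarith
    have h5 := mul_le_mul_of_nonneg_left h4 hq0.le
    linarith
  have hfin : (1 - 10 * ε) * cc *
      AvT T ω (fun N => sg b l B m N ^ 2 * (F x N * r0 m x N)) ≤
      AvT T ω (fun N => sg b l B m N ^ 2 * (if P N then 1 else 0)) := by
    have h10 : 0 ≤ (1 - 10 * ε) * cc := mul_nonneg (by linarith) (by linarith)
    have h3 : (1 - 10 * ε) * cc * AvT T ω (fun N => sg b l B m N ^ 2 * (F x N * r0 m x N)) ≤
        (1 - 10 * ε) * cc * (q * (E * (1 + ε))) := mul_le_mul_of_nonneg_left hX2 h10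
    refine h3.trans (le_trans ?_ hY)
    have h4 : (1 - 10 * ε) * cc * (q * (E * (1 + ε))) = q * ((1 - 10 * ε) * (1 + ε) * (cc * E)) := by
      ring
    rw [h4]
    refine mul_le_mul_of_nonneg_left ?_ hq0.le
    have h5 : (1 - 10 * ε) * (1 + ε) * (cc * E) ≤
        (1 - 10 * ε) * (1 + ε) * ((1 + ε) ^ 2 * R) :=
      mul_le_mul_of_nonneg_left hpr (mul_nonneg (by linarith) (by linarith))
    refine h5.trans ?_
    have h6 : (1 - 10 * ε) * (1 + ε) * ((1 + ε) ^ 2 * R) =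
        R * ((1 - 10 * ε) * (1 + ε) ^ 3) := by ring
    rw [h6]
    refine mul_le_mul_of_nonneg_left ?_ hR0.le
    nlinarith [mul_pos hε hε, mul_pos (mul_pos hε hε) hε]
  unfold emu
  rw [← mul_div_assoc]
  exact div_le_div_of_nonneg_right hfin hz.le

end

end Pool.Agent.H92.MM
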