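import Pool.Agent.H92.MM.Ub

/-!
# [H92 MM EXP] From binomial monomials to products of polynomials

Proof.  `dg_expand` gives `c j i k`.  `∏_j ∏_i p j i (m j i N) = ∏_j ∏_i ∑_{k ≤ D j i} c j i k C(m,k)
= ∑_A ∏_j ∏_i c j i (A j i) C(m, A j i)` where `A` runs over `Fintype.piFinset (fun j => Fintype.piFinset (fun i =>
range (D j i + 1)))` (`Finset.prod_univ_sum` twice).  The same for `∏∏ po (p j i) = ∑_A ∏∏ c j i (A j i) * sv L A`
(`sv` = product of the `λ^A/A!`).  So the difference is `∑_A (∏∏ c) * (Av(M_A Φ) - sv A E)`, at most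
`ϖ ∑_A ∏∏ |c j i (A j i)| = ϖ ∏_j ∏_i ∑_k |c j i k| ≤ ϖ ∏∏ 2^(4 D + 1)`.
-/

namespace Pool.Agent.H92.MM

open Finset

/-- weighted sums over a finite set -/
noncomputable def AvT (T : Finset ℕ) (ω : ℕ → ℝ) (f : ℕ → ℝ) : ℝ := ∑ N ∈ T, ω N * f N

/-- binomial monomial -/
noncomputable def mon {ι : Type} [Fintype ι] {L : ℕ} (m : ι → Fin L → ℕ → ℕ) (A : ι → Fin L → ℕ)
    (N : ℕ) : ℝ := ∏ j, ∏ i, ((m j i N).choose (A j i) : ℝ)

private theorem prodexp {ι : Type} [Fintype ι] [DecidableEq ι] {L : ℕ} (D : ι → Fin L → ℕ)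
    (G : ι → Fin L → ℕ → ℝ) :
    ∏ j, ∏ i, ∑ k ∈ range (D j i + 1), G j i k =
      ∑ A ∈ Fintype.piFinset (fun j => Fintype.piFinset (fun i => range (D j i + 1))),
        ∏ j, ∏ i, G j i (A j i) := by
  simp only [Finset.prod_univ_sum]

theorem expand {ι : Type} [Fintype ι] [DecidableEq ι] {L : ℕ} (T : Finset ℕ) (ω : ℕ → ℝ)
    (m : ι → Fin L → ℕ → ℕ) (p : ι → Fin L → ℕ → ℝ) (D : ι → Fin L → ℕ)
    (hp : ∀ j i, Dg (D j i) (p j i)) (hb : ∀ j i t, |p j i t| ≤ 8 ^ t)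
    (Φ : ℕ → ℝ) (E ϖ : ℝ)
    (hA : ∀ A : ι → Fin L → ℕ, (∀ j i, A j i ≤ D j i) →
      |AvT T ω (fun N => mon m A N * Φ N) - sv L A * E| ≤ ϖ) :
    |AvT T ω (fun N => (∏ j, ∏ i, p j i (m j i N)) * Φ N) - (∏ j, ∏ i, po (p j i)) * E| ≤
      ϖ * ∏ j, ∏ i, (2 : ℝ) ^ (4 * D j i + 1) := by
  choose c hc1 hc2 hc3 using fun j i => dg_expand (hp j i) (hb j i)
  have hϖ : 0 ≤ ϖ := (abs_nonneg _).trans (hA (fun _ _ => 0) fun _ _ => Nat.zero_le _)
  set S := Fintype.piFinset (fun j : ι => Fintype.piFinset (fun i : Fin L => range (D j i + 1)))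
    with hS
  have h1 : ∀ N, (∏ j, ∏ i, p j i (m j i N)) =
      ∑ A ∈ S, (∏ j, ∏ i, c j i (A j i)) * mon m A N := by
    intro N
    simp only [hc1]
    rw [prodexp D (fun j i k => c j i k * ((m j i N).choose k : ℝ))]
    refine Finset.sum_congr rfl fun A _ => ?_
    unfold mon
    simp only [Finset.prod_mul_distrib]
  have h2 : (∏ j, ∏ i, po (p j i)) = ∑ A ∈ S, (∏ j, ∏ i, c j i (A j i)) * sv L A := by
    simp only [hc3]
    rw [prodexp D (fun j i k => c j i k * (Real.log 2 ^ k / (k.factorial : ℝ)))]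
    refine Finset.sum_congr rfl fun A _ => ?_
    unfold sv
    simp only [Finset.prod_mul_distrib]
  have h3 : AvT T ω (fun N => (∏ j, ∏ i, p j i (m j i N)) * Φ N) =
      ∑ A ∈ S, (∏ j, ∏ i, c j i (A j i)) * AvT T ω (fun N => mon m A N * Φ N) := by
    unfold AvT
    simp only [h1, Finset.sum_mul, Finset.mul_sum]
    rw [Finset.sum_comm]
    refine Finset.sum_congr rfl fun A _ => Finset.sum_congr rfl fun N _ => ?_
    ring
  have h4 : AvT T ω (fun N => (∏ j, ∏ i, p j i (m j i N)) * Φ N) -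
      (∏ j, ∏ i, po (p j i)) * E =
      ∑ A ∈ S, (∏ j, ∏ i, c j i (A j i)) *
        (AvT T ω (fun N => mon m A N * Φ N) - sv L A * E) := by
    rw [h3, h2, Finset.sum_mul, ← Finset.sum_sub_distrib]
    refine Finset.sum_congr rfl fun A _ => ?_
    ring
  rw [h4]
  refine (Finset.abs_sum_le_sum_abs _ _).trans ?_
  have h5 : ∀ A ∈ S, |(∏ j, ∏ i, c j i (A j i)) *
      (AvT T ω (fun N => mon m A N * Φ N) - sv L A * E)| ≤
      (∏ j, ∏ i, |c j i (A j i)|) * ϖ := by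
    intro A hAS
    rw [abs_mul, Finset.abs_prod]
    simp only [Finset.abs_prod]
    refine mul_le_mul_of_nonneg_left (hA A fun j i => ?_)
      (Finset.prod_nonneg fun j _ => Finset.prod_nonneg fun i _ => abs_nonneg _)
    have h6 := Fintype.mem_piFinset.1 hAS j
    have h7 := Finset.mem_range.1 (Fintype.mem_piFinset.1 h6 i)
    omega
  refine (Finset.sum_le_sum h5).trans ?_
  rw [← Finset.sum_mul, ← prodexp D (fun j i k => |c j i k|), mul_comm]
  refine mul_le_mul_of_nonneg_left ?_ hϖ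
  refine Finset.prod_le_prod (fun j _ => Finset.prod_nonneg fun i _ =>
    Finset.sum_nonneg fun k _ => abs_nonneg _) fun j _ => ?_
  exact Finset.prod_le_prod (fun i _ => Finset.sum_nonneg fun k _ => abs_nonneg _)
    fun i _ => hc2 j i

end Pool.Agent.H92.MM
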