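import Pool.Agent.H92.MM.Mx
import Pool.Agent.H92.MM.Nu

/-!
# [H92 MM FD] Definitions for the moments of the measure

`K = card ι`; no proofs here.
-/

namespace Pool.Agent.H92.MM

open Finset

section

variable {ι : Type} [Fintype ι] [DecidableEq ι] {L : ℕ}

/-- bound of coefficients and terms, with sieve factors at two shifts -/
noncomputable def XT (K l b : ℕ) (bi : Fin L → ℕ) : ℝ :=
  (((l : ℝ) + 1) ^ K) ^ 2 * 2 ^ (K * L * (8 * b + 1) + 8 * ∑ i, (bi i + 1))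

/-- the conditions on the parameters; `K` is the number of shifts -/
structure St (K L l b : ℕ) (bi : Fin L → ℕ) (a B η ϖ ε Δ κ : ℝ) : Prop where
  hl : l ≤ L
  hb : Even b
  hbi : ∀ i, Even (bi i)
  ha : 0 ≤ a
  ht : tl b ≤ 1 / 100
  hlt : l * tl b ≤ 1 / 20
  hε : 0 < ε
  hε1 : ε ≤ 1 / 100
  hΔ0 : 0 < Δ
  hΔ1 : Δ ≤ 1 / 100
  hΔ : ∏ i, (1 + tau (bi i)) ≤ 1 + Δ
  hB : 2 ^ l < B
  hK : (K : ℝ) * l ≤ ε * (B - 2 ^ l)
  hlev : 4 * b * a * B + 2 * ∑ i : Fin L, ((bi i : ℝ) + 1) * (a * 2 ^ ((i : ℕ) + 1)) ≤ η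
  hϖ : 0 ≤ ϖ
  hκ : ((L : ℝ) + 1) * (ϖ * XT K l b bi) ≤ κ

/-- all monomials of level `≤ η` see `Φ` as independent of mean `E` -/
def AppT (T : Finset ℕ) (ω : ℕ → ℝ) (m : ι → Fin L → ℕ → ℕ) (a η ϖ : ℝ) (Φ : ℕ → ℝ) (E : ℝ) :
    Prop :=
  ∀ A : ι → Fin L → ℕ, sl a L A ≤ η → |AvT T ω (fun N => mon m A N * Φ N) - sv L A * E| ≤ ϖ

/-- upper sieve of the shift `x` -/
noncomputable def rp (bi : Fin L → ℕ) (m : ι → Fin L → ℕ → ℕ) (x : ι) (N : ℕ) : ℝ :=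
  ∏ i, aP bi i (m x i N)

/-- correction of the shift `x` -/
noncomputable def dl (bi : Fin L → ℕ) (m : ι → Fin L → ℕ → ℕ) (x : ι) (N : ℕ) : ℝ :=
  ∑ i0, ∏ i, aC bi i0 i (m x i N)

/-- exact indicator -/
noncomputable def r0 (m : ι → Fin L → ℕ → ℕ) (x : ι) (N : ℕ) : ℝ :=
  if ∀ i, m x i N = 0 then 1 else 0

/-- `AA` -/
noncomputable def AA (b l L : ℕ) : ℝ := (1 / 2) ^ L * bS b l ^ 2 / bn b l

end

end Pool.Agent.H92.MM
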