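import Pool.Agent.H92.MM.Fd
import Pool.Agent.H21.SH.Gx

/-!
# [H92 MM LW] From the concrete averages to the abstract ones; roughness

* `nm_pos`: `mass x > 0` (`Tx x` nonempty, `gw > 0`), every prime `p ∤ W = primorial w` is `> w ≥ K`, so `1 - K/p > 0`.
* `avt_eq`: `∑ (gw/nm) * f = (∑ gw * f)/nm`; `sm x a L h A N = mon (fun j i N => mc x a i (N + h j)) A N` is `rfl` up to unfolding.
* `rough_of`: `N` admissible (no prime factor `< x^a` of `N + h j`) and all counts `mc x a i (N + h j) = 0`, `i < L`, `a 2^L = a0`: a prime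
  `p ∣ N + h j` has `x^a ≤ p`; if `p < x^a0`, take the largest `i < L` with `x^(a 2^i) ≤ p`: then `p < x^(a 2^(i+1))`, so
  `p ∈ rg x (a 2^i) (a 2^(i+1))` (`p < ⌈x^β⌉` iff `(p : ℝ) < x^β`: `Nat.lt_ceil`) and `mc ≥ 1`, contradiction.
* `mc_prime`: `n` prime, `x^a0 ≤ n`, `x ≥ 1`: a prime of a range `i < L` dividing `n` equals `n` and is `< x^(a 2^(i+1)) ≤ x^a0 ≤ n`.
* `tx_bd`: `N ∈ Tx x`: `√x < N + h` and `N + h ≤ x^(1+1/2000) + h ≤ x^(1+1/1000)` for `x` large.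
-/

namespace Pool.Agent.H92.MM

open Finset Filter Pool.Agent.H21.MT

private theorem lw_prim {w p : ℕ} (hp : p.Prime) (hd : ¬ p ∣ primorial w) : w < p := by
  by_contra h
  push Not at h
  apply hd
  unfold primorial
  exact dvd_prod_of_mem _ (mem_filter.2 ⟨mem_range.2 (Nat.lt_succ_of_le h), hp⟩)

private theorem lw_mass {x : ℝ} (hx : 4 ≤ x) : 0 < mass x := by
  unfold mass
  refine sum_pos (fun N _ => gw_pos x N) ?_
  unfold Tx
  rw [nonempty_Ioc]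
  have h0 : 0 ≤ x := by linarith
  have h1 : Real.sqrt x ≤ x / 2 := by
    rw [Real.sqrt_le_left (by linarith)]
    nlinarith
  have h2 : (⌊Real.sqrt x⌋₊ : ℝ) ≤ Real.sqrt x := Nat.floor_le (Real.sqrt_nonneg x)
  have h3 : x < (⌊x⌋₊ : ℝ) + 1 := Nat.lt_floor_add_one x
  have h4 : (⌊Real.sqrt x⌋₊ : ℝ) < (⌊x⌋₊ : ℝ) := by linarith
  have h5 : ⌊Real.sqrt x⌋₊ < ⌊x⌋₊ := by exact_mod_cast h4
  refine lt_of_lt_of_le h5 (Nat.floor_mono ?_)
  calc x = x ^ (1 : ℝ) := (Real.rpow_one x).symm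
    _ ≤ x ^ (1 + 1 / 2000 : ℝ) := Real.rpow_le_rpow_of_exponent_le (by linarith) (by norm_num)

theorem nm_pos {x a : ℝ} (hx : 4 ≤ x) (w K : ℕ) (hw : K ≤ w) : 0 < nm x a (primorial w) K := by
  have hW : 0 < (primorial w : ℝ) := by exact_mod_cast primorial_pos w
  unfold nm
  refine mul_pos (div_pos (lw_mass hx) hW) (prod_pos fun p hp => ?_)
  rw [mem_filter] at hp
  have h1 := lw_prim hp.2.1 hp.2.2
  have h2 : (K : ℝ) < p := by exact_mod_cast (hw.trans_lt h1)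
  have h3 : (0 : ℝ) < p := lt_of_le_of_lt (Nat.cast_nonneg K) h2
  have h4 : (K : ℝ) / p < 1 := (div_lt_one h3).2 h2
  linarith

section

variable {ι : Type} [Fintype ι]

open Classical in
/-- the support -/
noncomputable def TT (x a : ℝ) (h : ι → ℕ) (W b : ℕ) : Finset ℕ :=
  (Tx x).filter (fun N => Adm x a h W b N)

/-- the normalised weight -/
noncomputable def ww (x a : ℝ) (W K : ℕ) (N : ℕ) : ℝ := gw x N / nm x a W K

/-- the counts -/
noncomputable def mm (x a : ℝ) {L : ℕ} (h : ι → ℕ) (j : ι) (i : Fin L) (N : ℕ) : ℕ :=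
  mc x a i (N + h j)

theorem avt_eq (x a : ℝ) (h : ι → ℕ) (W b : ℕ) (f : ℕ → ℝ) :
    AvT (TT x a h W b) (ww x a W (Fintype.card ι)) f = Av x a h W b f := by
  unfold AvT TT ww Av
  rw [sum_div]
  exact sum_congr rfl fun N _ => by ring

theorem app_iff (x a : ℝ) {L : ℕ} (h : ι → ℕ) (W b : ℕ) (η ϖ : ℝ) (Φ : ℕ → ℝ) (E : ℝ) :
    App x a L h W b η ϖ Φ E ↔ AppT (L := L) (TT x a h W b) (ww x a W (Fintype.card ι))
      (mm x a h) a η ϖ Φ E := by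
  unfold App AppT
  refine forall_congr' fun A => ?_
  rw [avt_eq]
  exact Iff.rfl

theorem rough_of {x a a0 : ℝ} {L : ℕ} (hx : 1 ≤ x) (ha : 0 < a) (haL : a * 2 ^ L = a0) (h : ι → ℕ)
    {W b N : ℕ} (hN : Adm x a h W b N) (j : ι) (h0 : ∀ i : Fin L, mm x a h j i N = 0) (p : ℕ)
    (hp : p.Prime) (hpN : p ∣ N + h j) : x ^ a0 ≤ (p : ℝ) := by
  by_contra hcon
  push Not at hcon
  classical
  have h1 : x ^ a ≤ (p : ℝ) := hN.2 j p hp hpN
  have hex : ∃ k : ℕ, (p : ℝ) < x ^ (a * 2 ^ k) := ⟨L, by rw [haL]; exact hcon⟩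
  have hk1 : Nat.find hex ≤ L := Nat.find_min' hex (by rw [haL]; exact hcon)
  have hk0 : Nat.find hex ≠ 0 := by
    intro h2
    have h3 := Nat.find_spec hex
    rw [h2, pow_zero, mul_one] at h3
    linarith
  obtain ⟨i, hi⟩ := Nat.exists_eq_succ_of_ne_zero hk0
  have h2 : (p : ℝ) < x ^ (a * 2 ^ (i + 1)) := by
    have h3 := Nat.find_spec hex
    rwa [hi] at h3
  have h3 : x ^ (a * 2 ^ i) ≤ (p : ℝ) := by
    have h4 := Nat.find_min hex (m := i) (by omega)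
    push Not at h4
    exact h4
  have hiL : i < L := by omega
  have h4 : mc x a i (N + h j) = 0 := h0 ⟨i, hiL⟩
  unfold mc at h4
  rw [card_eq_zero] at h4
  have h5 : p ∈ (rg x (a * 2 ^ i) (a * 2 ^ (i + 1))).filter (· ∣ N + h j) := by
    rw [mem_filter, rg, mem_filter, mem_range, Nat.lt_ceil]
    exact ⟨⟨h2, hp, h3⟩, hpN⟩
  rw [h4] at h5
  exact absurd h5 (notMem_empty p)

end

theorem mc_prime {x a a0 : ℝ} {L : ℕ} (hx : 1 ≤ x) (ha : 0 < a) (haL : a * 2 ^ L = a0) {n : ℕ}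
    (hn : n.Prime) (hxn : x ^ a0 ≤ (n : ℝ)) {i : ℕ} (hi : i < L) : mc x a i n = 0 := by
  unfold mc
  rw [card_eq_zero, filter_eq_empty_iff]
  intro q hq hqn
  rw [rg, mem_filter, mem_range, Nat.lt_ceil] at hq
  have h1 : q = n := (Nat.prime_dvd_prime_iff_eq hq.2.1 hn).1 hqn
  have h2 : x ^ (a * 2 ^ (i + 1)) ≤ x ^ a0 := by
    refine Real.rpow_le_rpow_of_exponent_le hx ?_
    rw [← haL]
    exact mul_le_mul_of_nonneg_left (pow_le_pow_right₀ (by norm_num) hi) ha.le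
  rw [h1] at hq
  linarith [hq.1]

theorem tx_bd (h N0 : ℕ) : ∀ᶠ x : ℝ in atTop, ∀ N ∈ Tx x, N0 < N ∧ Real.sqrt x < ((N + h : ℕ) : ℝ) ∧
    ((N + h : ℕ) : ℝ) ≤ x ^ (1 + 1 / 1000 : ℝ) := by
  have h1 : Tendsto (fun x : ℝ => x ^ (1 / 2000 : ℝ)) atTop atTop :=
    tendsto_rpow_atTop (by norm_num)
  filter_upwards [h1.eventually_ge_atTop 2, eventually_ge_atTop (1 : ℝ),
    eventually_ge_atTop (h : ℝ), eventually_ge_atTop ((N0 : ℝ) ^ 2)] with x hx1 hx2 hx3 hx4 N hN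
  rw [Tx, mem_Ioc] at hN
  have hx0 : 0 < x := by linarith
  have h2 : Real.sqrt x < (N : ℝ) := Nat.lt_of_floor_lt hN.1
  have h3 : (N : ℝ) ≤ x ^ (1 + 1 / 2000 : ℝ) := by
    have h4 : (⌊x ^ (1 + 1 / 2000 : ℝ)⌋₊ : ℝ) ≤ x ^ (1 + 1 / 2000 : ℝ) :=
      Nat.floor_le (by positivity)
    have h5 : (N : ℝ) ≤ (⌊x ^ (1 + 1 / 2000 : ℝ)⌋₊ : ℝ) := by exact_mod_cast hN.2
    exact h5.trans h4
  refine ⟨?_, ?_, ?_⟩
  · have h4 : (N0 : ℝ) ≤ Real.sqrt x := Real.le_sqrt_of_sq_le hx4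
    have h5 : (N0 : ℝ) < N := h4.trans_lt h2
    exact_mod_cast h5
  · push_cast
    have : (0 : ℝ) ≤ h := Nat.cast_nonneg h
    linarith
  · push_cast
    have h4 : x ≤ x ^ (1 + 1 / 2000 : ℝ) := by
      calc x = x ^ (1 : ℝ) := (Real.rpow_one x).symm
        _ ≤ x ^ (1 + 1 / 2000 : ℝ) := Real.rpow_le_rpow_of_exponent_le hx2 (by norm_num)
    have h5 : x ^ (1 + 1 / 1000 : ℝ) = x ^ (1 / 2000 : ℝ) * x ^ (1 + 1 / 2000 : ℝ) := by
      rw [← Real.rpow_add hx0]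
      norm_num
    have h6 : 0 ≤ x ^ (1 + 1 / 2000 : ℝ) := by positivity
    rw [h5]
    nlinarith

/-- a residue class -/
theorem crt_class {ι : Type} [Fintype ι] (h : ι → ℕ)
    (hadm : ∀ p : ℕ, p.Prime → ∃ b : ℕ, ∀ j, ¬ p ∣ b + h j) (w : ℕ) :
    ∃ b : ℕ, ∀ j, Nat.Coprime (b + h j) (primorial w) := by
  classical
  choose! b hb using hadm
  obtain ⟨k, hk⟩ := Nat.chineseRemainderOfFinset b (fun p => p)
    ((range (w + 1)).filter Nat.Prime) (fun p hp => (mem_filter.1 hp).2.ne_zero)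
    (fun p hp q hq hpq => by
      rw [mem_coe, mem_filter] at hp hq
      exact (Nat.coprime_primes hp.2 hq.2).2 hpq)
  refine ⟨k, fun j => ?_⟩
  unfold primorial
  rw [Nat.coprime_prod_right_iff]
  intro p hp
  have hpp : p.Prime := (mem_filter.1 hp).2
  refine Nat.Coprime.symm ((Nat.Prime.coprime_iff_not_dvd hpp).2 ?_)
  intro hd
  apply hb p hpp j
  have h1 : k + h j ≡ b p + h j [MOD p] := Nat.ModEq.add_right _ (hk p hp)
  exact (Nat.ModEq.dvd_iff h1 dvd_rfl).1 hd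

end Pool.Agent.H92.MM
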