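import Pool.Agent.H92.MM.Cp
import Pool.Agent.H92.MM.Lw
import Pool.Agent.H21.CP.LocD

/-!
# The local information at a fixed `x` (step of module LO)
-/

namespace Pool.Agent.H92.MM

open Finset Filter Pool.Agent.H21.MT

theorem AA_nonneg {b : ℕ} (hb : Even b) (ht : tl b ≤ 1 / 100) (l L : ℕ) : 0 ≤ AA b l L := by
  unfold AA
  have := bn_ge hb ht l
  positivity

theorem ex_emu {ι : Type} [Fintype ι] [DecidableEq ι] {L : ℕ} (b l : ℕ) (B : ℝ) (T : Finset ℕ)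
    (ω : ℕ → ℝ) (m : ι → Fin L → ℕ → ℕ) (f : ℕ → ℝ) :
    Pool.Agent.H21.CP.Ex T (fun N => ω N * sg b l B m N ^ 2 /
      AvT T ω (fun N => sg b l B m N ^ 2)) f = emu b l B T ω m f := by
  unfold Pool.Agent.H21.CP.Ex emu
  generalize AvT T ω (fun N => sg b l B m N ^ 2) = z
  unfold AvT
  rw [sum_div]
  refine sum_congr rfl fun N _ => ?_
  ring

theorem loc_step (Q : ℕ → Prop) (k s : ℕ) (hk : 1 ≤ k) (hs : 1 ≤ s) (V : Fin k → Finset ℕ)
    (hdis : ∀ j j', j ≠ j' → Disjoint (V j) (V j')) (hcard : ∀ j, (V j).card = s) (H : Finset ℕ)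
    (hH : H = univ.biUnion V) (N0 : ℕ)
    (T : Finset ℕ) (ω : ℕ → ℝ) {L l b : ℕ} {bi : Fin L → ℕ} {a B η ϖ ε Δ κ : ℝ}
    (m : {x // x ∈ H} → Fin L → ℕ → ℕ) (hS : St (k * s) L l b bi a B η ϖ ε Δ κ)
    (hω : ∀ N, 0 ≤ ω N) (hT : ∀ N ∈ T, N0 < N) (D : ℕ)
    (hD : ∀ N ∈ T, ∀ y : ℕ, y ≤ D → (N + y).Prime → ∃ j, y ∈ V j) (h1 : AppT T ω m a η ϖ (fun _ => 1) 1)
    (F G : ℕ → ℝ) {EF EG c C : ℝ}
    (hF : Lg T ω m a η ϖ ε Δ κ c C (fun x N => F (N + x.1)) EF)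
    (hG : Lg T ω m a η ϖ ε Δ κ c C (fun x N => G (N + x.1)) EG) (hG0 : ∀ n, 0 ≤ G n)
    (hprime : ∀ x : {x // x ∈ H}, ∀ N ∈ T, (N + x.1).Prime →
      (∀ i, m x i N = 0) ∧ 1 ≤ G (N + x.1))
    (hQ : ∀ x : {x // x ∈ H}, ∀ N ∈ T, (∀ i, m x i N = 0) → 0 < F (N + x.1) →
      Q (N + x.1)) {pr : ℝ}
    (hlaw : ∀ x : {x // x ∈ H}, ∀ A : {x // x ∈ H} → Fin L → ℕ,
      (∀ i, A x i = 0) → sl a L A ≤ η →
      |AvT T ω (fun N => mon m A N * (if (N + x.1).Prime then 1 else 0)) - sv L A * pr| ≤ ϖ)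
    {cc : ℝ} (hcc : 1 / 10 ≤ cc) (hcc1 : cc ≤ 1)
    (hpr : cc * EG ≤ (1 + ε) ^ 2 * (2 ^ L * pr)) (e P0 : ℝ) (he : 40 * ε ≤ e)
    (hP0 : P0 ≤ s * (c / 4 * AA b l L)) :
    ∃ (T : Finset ℕ) (μ : ℕ → ℝ) (lo g : ℕ → ℕ → ℝ),
      (∀ N ∈ T, N0 < N) ∧ (∀ N ∈ T, ∀ y : ℕ, y ≤ D → (N + y).Prime → ∃ j, y ∈ V j) ∧
      (∀ N, 0 ≤ μ N) ∧ ∑ N ∈ T, μ N = 1 ∧
      (∀ j, ∀ x ∈ V j, ∀ N ∈ T, 0 < lo x N → Q (N + x)) ∧
      (∀ j, ∀ x ∈ V j, ∀ N ∈ T, 0 ≤ g x N ∧ ((N + x).Prime → 1 ≤ g x N)) ∧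
      (∀ j, Pool.Agent.H21.CP.Mom T μ (V j) lo e (4 * C ^ 2 / c) P0) ∧
      (∀ j, Pool.Agent.H21.CP.Mom T μ (V j) g e (4 * C ^ 2 / c) P0) ∧
      (∀ j, ∀ x ∈ V j, ∀ _ : DecidablePred (fun N => (N + x).Prime),
        (1 - e) * cc * Pool.Agent.H21.CP.Ex T μ (g x) ≤
          ∑ N ∈ T.filter (fun N => (N + x).Prime), μ N) := by
  classical
  have hmem : ∀ j, ∀ x ∈ V j, x ∈ H := fun j x hx => by
    rw [hH]
    exact mem_biUnion.2 ⟨j, mem_univ _, hx⟩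
  have hc : Fintype.card {x // x ∈ H} = k * s := by
    rw [Fintype.card_coe, hH, card_biUnion (fun i _ j _ hij => hdis i j hij)]
    simp [hcard]
  have : Nonempty {x // x ∈ H} := by
    rw [← Fintype.card_pos_iff, hc]
    exact Nat.mul_pos hk hs
  have hS' : St (Fintype.card {x // x ∈ H}) L l b bi a B η ϖ ε Δ κ := by
    rw [hc]; exact hS
  have hz : 0 < AvT T ω (fun N => sg b l B m N ^ 2) := co_z hS' h1 hF.hκ
  have hAA : 0 ≤ AA b l L := AA_nonneg hS.hb hS.ht l L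
  have hε := hS.hε
  have hc0 := hF.c0
  -- the moments for one of the two families
  have key : ∀ (R : ℕ → ℝ) (EH : ℝ),
      Lg T ω m a η ϖ ε Δ κ c C (fun x N => R (N + x.1)) EH → ∀ j,
      Pool.Agent.H21.CP.Mom T (fun N => ω N * sg b l B m N ^ 2 /
        AvT T ω (fun N => sg b l B m N ^ 2)) (V j)
        (fun x N => if h : x ∈ H then R (N + x) * r0 m ⟨x, h⟩ N else 0) e
        (4 * C ^ 2 / c) P0 := by
    intro R EH hR j
    have e1 : ∀ x ∈ V j, ∀ hx : x ∈ H,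
        (fun N => if h : x ∈ H then R (N + x) * r0 m ⟨x, h⟩ N else 0) =
          fun N => R (N + x) * r0 m ⟨x, hx⟩ N := by
      intro x _ hx
      funext N
      rw [dif_pos hx]
    have hm : ∀ x (hx : x ∈ H), c / 4 * AA b l L ≤
        emu b l B T ω m (fun N => R (N + x) * r0 m ⟨x, hx⟩ N) := fun x hx =>
      co_mean hS' hω h1 hR ⟨x, hx⟩
    have hm0 : 0 ≤ c / 4 * AA b l L := by positivity
    refine ⟨fun x hx => ?_, fun x hx => ?_, fun x hx y hy hxy => ?_, ?_⟩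
    · rw [ex_emu]
      have := hm x (hmem j x hx)
      simp only [hmem j x hx, dif_pos]
      linarith
    · rw [ex_emu, ex_emu]
      simp only [hmem j x hx, dif_pos]
      exact co_sq hS' hω h1 hR ⟨x, hmem j x hx⟩
    · rw [ex_emu, ex_emu, ex_emu]
      simp only [hmem j x hx, hmem j y hy, dif_pos]
      have h3 := co_pair hS' hω h1 hR (x := ⟨x, hmem j x hx⟩) (y := ⟨y, hmem j y hy⟩)
        (fun h => hxy (congrArg Subtype.val h))
      refine h3.trans ?_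
      have h4 := hm x (hmem j x hx)
      have h5 := hm y (hmem j y hy)
      apply mul_le_mul_of_nonneg_right (by linarith)
      exact mul_nonneg (by simpa using hm0.trans h4) (by simpa using hm0.trans h5)
    · refine hP0.trans ?_
      have h6 : (s : ℝ) * (c / 4 * AA b l L) = ∑ x ∈ V j, c / 4 * AA b l L := by
        rw [sum_const, hcard, nsmul_eq_mul]
      rw [h6]
      refine sum_le_sum fun x hx => ?_
      rw [ex_emu]
      simp only [hmem j x hx, dif_pos]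
      exact hm x (hmem j x hx)
  refine ⟨T, fun N => ω N * sg b l B m N ^ 2 / AvT T ω (fun N => sg b l B m N ^ 2),
    fun x N => if h : x ∈ H then F (N + x) * r0 m ⟨x, h⟩ N else 0,
    fun x N => if h : x ∈ H then G (N + x) * r0 m ⟨x, h⟩ N else 0,
    hT, hD, ?_, ?_, ?_, ?_, key F EF hF, key G EG hG, ?_⟩
  · intro N
    have := hω N
    positivity
  · rw [← sum_div]
    exact div_self hz.ne'
  · intro j x hx N hN h0
    simp only [hmem j x hx, dif_pos] at h0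
    by_cases h7 : ∀ i, m ⟨x, hmem j x hx⟩ i N = 0
    · rw [r0, if_pos h7, mul_one] at h0
      exact hQ ⟨x, hmem j x hx⟩ N hN h7 h0
    · rw [r0, if_neg h7, mul_zero] at h0
      exact absurd h0 (lt_irrefl _)
  · intro j x hx N hN
    simp only [hmem j x hx, dif_pos]
    refine ⟨mul_nonneg (hG0 _) (r0_nonneg _ _), fun hp => ?_⟩
    obtain ⟨h8, h9⟩ := hprime ⟨x, hmem j x hx⟩ N hN hp
    rw [r0, if_pos h8, mul_one]
    exact h9
  · intro j x hx inst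
    rw [ex_emu]
    simp only [hmem j x hx, dif_pos]
    have h10 := co_primeC hS' hω h1 hG ⟨x, hmem j x hx⟩ (fun N _ => hG0 _)
      (fun N => (N + x).Prime) (pr := pr)
      (fun N hN hp => (hprime ⟨x, hmem j x hx⟩ N hN hp).1)
      (fun A hA hA2 => by
        have h11 := hlaw ⟨x, hmem j x hx⟩ A hA hA2
        convert h11) hcc hcc1 hpr
    have h12 : ∑ N ∈ T.filter (fun N => (N + x).Prime), (ω N * sg b l B m N ^ 2 /
        AvT T ω (fun N => sg b l B m N ^ 2)) =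
        emu b l B T ω m (fun N => if (N + x).Prime then 1 else 0) := by
      rw [← ex_emu, Pool.Agent.H21.CP.Ex, sum_filter]
      refine sum_congr rfl fun N _ => ?_
      split_ifs <;> ring
    rw [h12]
    have h13 : (1 - e) * cc ≤ (1 - 10 * ε) * cc :=
      mul_le_mul_of_nonneg_right (by linarith) (by linarith)
    have h14 : 0 ≤ emu b l B T ω m (fun N => G (N + x) * r0 m ⟨x, hmem j x hx⟩ N) := by
      have := co_mean hS' hω h1 hG ⟨x, hmem j x hx⟩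
      have h15 : 0 ≤ c / 4 * AA b l L := by positivity
      exact h15.trans this
    refine (mul_le_mul_of_nonneg_right h13 h14).trans (h10.trans (le_of_eq ?_))
    congr 1
    funext N
    split_ifs <;> rfl

end Pool.Agent.H92.MM
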