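import Pool.Agent.H92.MM.Mn
import Pool.Agent.H92.MM.Wf
import Pool.Agent.H95.L1.One
import Pool.Agent.H95.M3.Mer3
import Pool.Agent.H14.L2.Pri
import Pool.Agent.H63.CF.Prd
import Pool.Agent.H89.P2.Up

/-!
# The local information, unconditional, with constant `13/50`
-/

namespace Pool.Agent.H92.MM

open Finset Filter Pool.Agent.H89.P2 Pool.Agent.H11.PT Pool.Agent.H11.RG

/-- the upper linear sieve of level `.549` satisfies the hypotheses of `loc_of_laws` with constant `13/50` -/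
theorem wts_G (ε a0 : ℝ) (hε : 0 < ε) (ha0 : 0 < a0) (ha1 : a0 ≤ 1 / 20) :
    ∃ (G : ℝ → ℕ → ℝ) (EG : ℝ → ℝ),
      Wt (1 / 2000 / 1000) 10 a0 (1 / 100 * a0) (2 * Real.exp (3 / a0)) G EG ∧
        Maj (13 / 50) ε a0 G EG := by
  obtain ⟨J, W, hJ, _, h1, h2, h3, h4, ⟨x0, hx0⟩, h5, h6⟩ :=
    upper_final a0 (1 / 10000) ha0 ha1 (by norm_num)
  have hJR : (0 : ℝ) < J := by exact_mod_cast hJ
  have hδ : 0 < a0 / J := by positivity
  have hok : Okw (a0 / J) a0 W := ⟨fun w hw j hj => (h1 w hw j hj).2.1, h2⟩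
  have hpl := pair_law_p2 (1 / 2000) 10 a0 (a0 / J) le_rfl (by norm_num) ha0 ha1 hδ W hok
  have hexp : Real.exp (2 / a0) ≤ Real.exp (3 / a0) := by
    apply Real.exp_le_exp.2
    gcongr
    norm_num
  refine ⟨fun x n => ev2 W (kk x (a0 / J) n), fun _ => mv2 W Pool.Agent.H89.P2.mu,
    ⟨hpl, ?_, ?_, ?_⟩, ⟨h3, ?_, ?_⟩⟩
  · filter_upwards [eventually_ge_atTop x0] with x hx n hn hnx
    have := hx0 x hx n hn hnx
    linarith
  · exact Eventually.of_forall fun x => by linarith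
  · refine Eventually.of_forall fun x => ?_
    have h8 : (1 : ℝ) ≤ Real.exp (3 / a0) := Real.one_le_exp (by positivity)
    linarith
  · filter_upwards [eventually_gt_atTop (1 : ℝ)] with x hx n hn hnx _
    exact h4 x hx n hn hnx
  · filter_upwards [Pool.Agent.H95.M3.pr_ge (1 / 10000) a0 (by norm_num) ha0] with x hx
    have he : (2.7182818283 : ℝ) < Real.exp 1 := Real.exp_one_gt_d9
    have h9 : (1.718 : ℝ) * a0 ≤ (Real.exp 1 - 1 - 1 / 10000) * a0 := by
      apply mul_le_mul_of_nonneg_right _ ha0.le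
      linarith
    have h10 : 0 ≤ pr x a0 := by linarith [mul_pos (by norm_num : (0 : ℝ) < 1.718) ha0]
    have h11 : 0 ≤ ε * pr x a0 := mul_nonneg hε.le h10
    linarith

/-- the local information with constant `13/50` -/
theorem loc_final (k : ℕ) (hk : 1 ≤ k) :
    Pool.Agent.H21.CP.LocD (13 / 50) Pool.Agent.H21.CP.Q2 k := by
  refine loc_of_laws (13 / 50) (by norm_num) (by norm_num) _ k hk (1 / 100) (by norm_num)
    (by norm_num) Pool.Agent.H63.CF.mer fun ε hε => ?_
  refine ⟨1 / 2000 / 1000, by positivity, by norm_num, Pool.Agent.H95.L1.one_law _ _ (by positivity)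
    (by norm_num) (by norm_num), Pool.Agent.H14.L2.prime_law _ _ (by positivity) (by norm_num)
    (by norm_num), fun a0 ha0 ha1 => ⟨wts_F (1 / 2000) a0 (by norm_num) le_rfl ha0 ha1,
      wts_G ε a0 hε ha0 ha1⟩⟩

end Pool.Agent.H92.MM
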