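import Pool.Agent.H92.MM.Lo

/-!
# Monotonicity of the laws in the level
-/

namespace Pool.Agent.H92.MM

open Finset Filter

theorem app_mono {ι : Type} [Fintype ι] {x a : ℝ} {L : ℕ} {h : ι → ℕ} {W b : ℕ} {η η' ϖ : ℝ}
    {Φ : ℕ → ℝ} {E : ℝ} (hη : η' ≤ η) (H : App x a L h W b η ϖ Φ E) :
    App x a L h W b η' ϖ Φ E := fun A hA => H A (hA.trans hη)

theorem oneLaw_mono {η η' Θ : ℝ} (hη : η' ≤ η) (H : OneLaw η Θ) : OneLaw η' Θ := by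
  obtain ⟨c0, hc0, H⟩ := H
  refine ⟨c0, hc0, ?_⟩
  intro ι _ _ _ a L ha haL hK h hinj
  obtain ⟨w0, H⟩ := H ι a L ha haL hK h hinj
  refine ⟨w0, fun w hw b hb => ?_⟩
  filter_upwards [H w hw b hb] with x hx
  exact app_mono hη hx

theorem primeLaw_mono {η η' Θ : ℝ} (hη : η' ≤ η) (H : PrimeLaw η Θ) : PrimeLaw η' Θ := by
  obtain ⟨c0, hc0, H⟩ := H
  refine ⟨c0, hc0, ?_⟩
  intro ι _ _ _ a L ha haL hK h hinj
  obtain ⟨w0, H⟩ := H ι a L ha haL hK h hinj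
  refine ⟨w0, fun w hw b hb => ?_⟩
  filter_upwards [H w hw b hb] with x hx j0 A hA hA2
  exact hx j0 A hA (hA2.trans hη)

theorem pairLaw_mono {η η' Θ a0 : ℝ} {F : ℝ → ℕ → ℝ} {EF : ℝ → ℝ} (hη : η' ≤ η)
    (H : PairLaw η Θ a0 F EF) : PairLaw η' Θ a0 F EF := by
  obtain ⟨c0, hc0, H⟩ := H
  refine ⟨c0, hc0, ?_⟩
  intro ι _ _ _ a L ha haL hK h hinj
  obtain ⟨w0, H⟩ := H ι a L ha haL hK h hinj
  refine ⟨w0, fun w hw b hb => ?_⟩
  filter_upwards [H w hw b hb] with x hx haa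
  exact ⟨fun j => app_mono hη ((hx haa).1 j), fun j j' hj => app_mono hη ((hx haa).2 j j' hj)⟩

theorem wt_mono {η η' Θ a0 c c' C C' : ℝ} {F : ℝ → ℕ → ℝ} {EF : ℝ → ℝ} (hη : η' ≤ η)
    (hc : c' ≤ c) (hC : C ≤ C') (H : Wt η Θ a0 c C F EF) : Wt η' Θ a0 c' C' F EF := by
  refine ⟨pairLaw_mono hη H.law, ?_, ?_, ?_⟩
  · filter_upwards [H.bd] with x hx n hn hnx
    exact (hx n hn hnx).trans hC
  · filter_upwards [H.lo] with x hx
    exact hc.trans hx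
  · filter_upwards [H.hi] with x hx
    exact hx.trans hC

end Pool.Agent.H92.MM
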