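import Pool.Agent.H92.MM.Fd

/-!
# [H92 MM PB] Choice of `b = 2^g`, `l = 4^g`, `L = l + g`

`a = a0/2^L`, `B = 2^l η/(8 a0)`, `bi i = 2 (j0 + L - i)`.
* `pb_tl`: `4^g * 128 * 6^(2^g+1)/(2^g+1)! → 0` (with `b = 2^g`: `b^2 6^(b+1)/(b+1)! ≤ 12^(b+1)/(b+1)!` as `b^2 ≤ 2^(b+1)`.. for `b ≥ 2`,
  `FloorSemiring.tendsto_pow_div_factorial_atTop` along `b = 2^g + 1`).
* `pb_lev`: with `d = L - i ∈ [1, L]`: `∑_{d=1}^{L} (2 j0 + 2 d + 1) a0 2^(1-d) ≤ a0 (2 (2 j0+1) + 8) = a0 (4 j0 + 10)`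
  (`∑_{d ≥ 1} 2^(1-d) = 2`, `∑_{d ≥ 1} 2 d 2^(1-d) = 8`; induction on `L` with the exact remainder, e.g. first substitute
  `i ↦ L - 1 - i` by `Fin.rev` / `Finset.sum_range_reflect`).
* `pb_kap`: `K l ≤ ε B` (so `K ≤ ε η 2^l/(8 a0 l)`), `log XT = 2 K log(l+1) + log 2 (K L (8b+1) + 8 ∑ (bi i + 1))`;
  `K L (8b+1) ≤ K * 2 l * 9 b ≤ 18 b * ε η 2^l/(8 a0) ≤ 2^L/a0 * (9/4) ε η ≤ 2^L/a0`; `2 K log(l+1) ≤ 2 K l ≤ 2^L/a0`;
  `8 ∑_i (bi i + 1) ≤ 8 L (2 (j0 + L) + 1) ≤ 2^L/a0` for `g` large.  So `XT ≤ exp(3 * 2^L/a0)`, `ϖ = exp(-10 * 2^L/a0)`, and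
  `4 (L+1) exp(-7 * 2^L/a0) ≤ Δ (1/4)^L` for `g` large (`2^L/a0 ≥ 20 * 2^L`, `4^L (L+1) ≤ exp(3 * 2^L)`, ..).
-/

namespace Pool.Agent.H92.MM

open Finset Filter

/-- the number of shifts per block -/
noncomputable def bs (ε η a0 : ℝ) (k g : ℕ) : ℕ :=
  ⌊ε * (2 ^ (4 ^ g) * η / (8 * a0) - 2 ^ (4 ^ g)) / (k * (4 : ℝ) ^ g)⌋₊

theorem pb_tl : ∀ᶠ g : ℕ in atTop, (4 : ℝ) ^ g * tl (2 ^ g) ≤ 1 / 20 ∧ tl (2 ^ g) ≤ 1 / 100 := by
  have h1 : Tendsto (fun n : ℕ => (24 : ℝ) ^ n / (n.factorial : ℝ)) atTop (nhds 0) :=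
    FloorSemiring.tendsto_pow_div_factorial_atTop 24
  have h2 : Tendsto (fun g : ℕ => 2 ^ g + 1) atTop atTop :=
    tendsto_atTop_mono (fun g => (Nat.lt_two_pow_self (n := g)).le.trans (Nat.le_succ _)) tendsto_id
  have h3 := h1.comp h2
  have h4 : ∀ᶠ g : ℕ in atTop, (24 : ℝ) ^ (2 ^ g + 1) / ((2 ^ g + 1).factorial : ℝ) < 1 / 12800 :=
    h3.eventually (gt_mem_nhds (by norm_num))
  filter_upwards [h4] with g hg
  have hN : (2 : ℕ) ^ g < 2 ^ (2 ^ g) := Nat.lt_two_pow_self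
  have hN2 : (4 : ℝ) ^ g ≤ 4 ^ (2 ^ g + 1) := by
    have h5 : g ≤ 2 ^ g + 1 := by
      have : g < 2 ^ g := Nat.lt_two_pow_self
      omega
    exact pow_le_pow_right₀ (by norm_num) h5
  have hf : 0 < ((2 ^ g + 1).factorial : ℝ) := by positivity
  have h6 : (4 : ℝ) ^ g * tl (2 ^ g) ≤ 128 * ((24 : ℝ) ^ (2 ^ g + 1) / ((2 ^ g + 1).factorial : ℝ)) := by
    unfold tl
    have h24 : (24 : ℝ) ^ (2 ^ g + 1) = 4 ^ (2 ^ g + 1) * 6 ^ (2 ^ g + 1) := by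
      rw [← mul_pow]
      norm_num
    rw [h24, mul_div_assoc', mul_div_assoc', div_le_div_iff_of_pos_right hf]
    have h7 : (0 : ℝ) < 6 ^ (2 ^ g + 1) := by positivity
    nlinarith [mul_le_mul_of_nonneg_right hN2 h7.le]
  have h8 : tl (2 ^ g) ≤ (4 : ℝ) ^ g * tl (2 ^ g) :=
    le_mul_of_one_le_left (tl_pos _).le (one_le_pow₀ (by norm_num))
  constructor
  · linarith
  · linarith

private theorem lev_eq (j0 L : ℕ) :
    ∑ i : Fin L, (((2 * (j0 + L - i) : ℕ) : ℝ) + 1) * (1 / 2 ^ L * 2 ^ ((i : ℕ) + 1)) =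
      (4 * j0 + 10) - (4 * j0 + 10 + 4 * L) / 2 ^ L := by
  induction L with
  | zero => simp
  | succ L ih =>
    rw [Fin.sum_univ_succ]
    have h1 : ∀ i : Fin L, (((2 * (j0 + (L + 1) - (i.succ : ℕ)) : ℕ) : ℝ) + 1) *
        (1 / 2 ^ (L + 1) * 2 ^ ((i.succ : ℕ) + 1)) =
        (((2 * (j0 + L - i) : ℕ) : ℝ) + 1) * (1 / 2 ^ L * 2 ^ ((i : ℕ) + 1)) := by
      intro i
      rw [Fin.val_succ]
      have h2 : j0 + (L + 1) - ((i : ℕ) + 1) = j0 + L - i := by omega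
      rw [h2, pow_succ 2 L, pow_succ 2 ((i : ℕ) + 1)]
      field_simp
    rw [Finset.sum_congr rfl fun i _ => h1 i, ih]
    have h3 : ((0 : Fin (L + 1)) : ℕ) = 0 := rfl
    rw [h3, Nat.sub_zero, pow_succ 2 L]
    push_cast
    field_simp
    ring

theorem pb_lev (a0 : ℝ) (ha0 : 0 < a0) (j0 L : ℕ) :
    ∑ i : Fin L, (((2 * (j0 + L - i) : ℕ) : ℝ) + 1) * (a0 / 2 ^ L * 2 ^ ((i : ℕ) + 1)) ≤
      a0 * (4 * j0 + 10) := by
  have h1 := lev_eq j0 L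
  have h2 : ∑ i : Fin L, (((2 * (j0 + L - i) : ℕ) : ℝ) + 1) * (a0 / 2 ^ L * 2 ^ ((i : ℕ) + 1)) =
      a0 * ∑ i : Fin L, (((2 * (j0 + L - i) : ℕ) : ℝ) + 1) * (1 / 2 ^ L * 2 ^ ((i : ℕ) + 1)) := by
    rw [mul_sum]
    refine sum_congr rfl fun i _ => ?_
    ring
  rw [h2, h1]
  have h3 : (0 : ℝ) ≤ (4 * j0 + 10 + 4 * L) / 2 ^ L := by positivity
  exact mul_le_mul_of_nonneg_left (by linarith) ha0.le

private theorem kap_aux (j0 : ℕ) (a0 Δ : ℝ) (ha0 : 0 < a0) (ha1 : a0 ≤ 1 / 20) (hΔ : 0 < Δ) :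
    ∀ᶠ L : ℕ in atTop, 8 * ((L : ℝ) * (2 * (j0 + L) + 1)) ≤ 2 ^ L / a0 ∧
      4 * ((L : ℝ) + 1) * Real.exp (-(7 * (2 ^ L / a0))) ≤ Δ * (1 / 4) ^ L := by
  have h1 : Tendsto (fun n : ℕ => (n : ℝ) ^ 2 / (2 : ℝ) ^ n) atTop (nhds 0) :=
    tendsto_pow_const_div_const_pow_of_one_lt 2 (by norm_num)
  have h2 : ∀ᶠ L : ℕ in atTop, (L : ℝ) ^ 2 / (2 : ℝ) ^ L < 1 / (2 * (2 * j0 + 3)) :=
    h1.eventually (gt_mem_nhds (by positivity))
  have h3 : Tendsto (fun n : ℕ => ((8⁻¹ : ℝ)) ^ n) atTop (nhds 0) :=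
    tendsto_pow_atTop_nhds_zero_of_lt_one (by norm_num) (by norm_num)
  have h4 : ∀ᶠ L : ℕ in atTop, ((8⁻¹ : ℝ)) ^ L < Δ / 4 :=
    h3.eventually (gt_mem_nhds (by positivity))
  filter_upwards [h2, h4, eventually_ge_atTop 1] with L hL2 hL4 hL1
  have hp : (0 : ℝ) < 2 ^ L := by positivity
  have hL1' : (1 : ℝ) ≤ L := by exact_mod_cast hL1
  have hM : 20 * (2 : ℝ) ^ L ≤ 2 ^ L / a0 := by
    rw [le_div_iff₀ ha0]
    nlinarith
  constructor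
  · refine le_trans ?_ hM
    rw [div_lt_div_iff₀ hp (by positivity)] at hL2
    have h5 : (L : ℝ) * (2 * (j0 + L) + 1) ≤ (L : ℝ) ^ 2 * (2 * j0 + 3) := by
      have hj : (0 : ℝ) ≤ j0 := Nat.cast_nonneg j0
      nlinarith [mul_nonneg hj (by nlinarith : (0 : ℝ) ≤ (L : ℝ) ^ 2 - L)]
    nlinarith
  · have h6 : (L : ℝ) + 1 ≤ 2 ^ L := by
      have : L + 1 ≤ 2 ^ L := Nat.lt_two_pow_self
      exact_mod_cast this
    have h7 : Real.exp (-(7 * (2 ^ L / a0))) ≤ Real.exp (-(7 * (L : ℝ))) := by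
      apply Real.exp_le_exp.2
      nlinarith
    have h8 : Real.exp (-(7 * (L : ℝ))) ≤ ((64 : ℝ)⁻¹) ^ L := by
      have h9 : Real.exp (-(7 * (L : ℝ))) = (Real.exp (-7)) ^ L := by
        rw [← Real.exp_nat_mul]
        congr 1
        ring
      rw [h9]
      refine pow_le_pow_left₀ (Real.exp_pos _).le ?_ L
      rw [Real.exp_neg]
      refine inv_anti₀ (by norm_num) ?_
      have h10 : Real.exp 7 = Real.exp 1 ^ 7 := by
        rw [← Real.exp_nat_mul]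
        norm_num
      rw [h10]
      have h11 : (2 : ℝ) ≤ Real.exp 1 := by
        have := Real.add_one_le_exp (1 : ℝ)
        linarith
      calc (64 : ℝ) ≤ 2 ^ 7 := by norm_num
        _ ≤ Real.exp 1 ^ 7 := pow_le_pow_left₀ (by norm_num) h11 7
    have h12 : ((64 : ℝ)⁻¹) ^ L * 2 ^ L = (8⁻¹ : ℝ) ^ L * (1 / 4) ^ L := by
      rw [← mul_pow, ← mul_pow]
      norm_num
    calc 4 * ((L : ℝ) + 1) * Real.exp (-(7 * (2 ^ L / a0)))
        ≤ 4 * (2 ^ L) * ((64 : ℝ)⁻¹) ^ L := by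
          apply mul_le_mul _ (h7.trans h8) (Real.exp_pos _).le (by positivity)
          linarith
      _ = 4 * ((8⁻¹ : ℝ) ^ L * (1 / 4) ^ L) := by
          rw [← h12]
          ring
      _ ≤ Δ * (1 / 4) ^ L := by
          have h13 : (0 : ℝ) < (1 / 4) ^ L := by positivity
          nlinarith

theorem pb_kap (ε η a0 Δ : ℝ) (hε : 0 < ε) (hε1 : ε ≤ 1 / 100) (hη : 0 < η) (hη1 : η ≤ 1)
    (ha0 : 0 < a0) (ha1 : a0 ≤ 1 / 20) (hΔ : 0 < Δ) (j0 : ℕ) :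
    ∀ᶠ g : ℕ in atTop, ∀ K : ℕ, (K : ℝ) * (4 : ℝ) ^ g ≤ ε * (2 ^ (4 ^ g) * η / (8 * a0)) →
      4 * (((4 ^ g + g : ℕ) : ℝ) + 1) * (Real.exp (-(10 / (a0 / 2 ^ (4 ^ g + g)))) *
        XT K (4 ^ g) (2 ^ g) (fun i : Fin (4 ^ g + g) => 2 * (j0 + (4 ^ g + g) - i))) ≤
        Δ * (1 / 4) ^ (4 ^ g + g) := by
  have hT : Tendsto (fun g : ℕ => 4 ^ g + g) atTop atTop :=
    tendsto_atTop_mono (fun g => Nat.le_add_left g (4 ^ g)) tendsto_id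
  filter_upwards [hT.eventually (kap_aux j0 a0 Δ ha0 ha1 hΔ)] with g hg K hK
  obtain ⟨hA, hB⟩ := hg
  obtain ⟨L, hL⟩ : ∃ L, L = 4 ^ g + g := ⟨_, rfl⟩
  obtain ⟨l, hl⟩ : ∃ l, l = 4 ^ g := ⟨_, rfl⟩
  have hlc : (4 : ℝ) ^ g = l := by
    rw [hl]
    push_cast
    rfl
  rw [← hL] at hA hB ⊢
  rw [hlc, ← hl] at hK
  rw [← hl]
  have hLl : L = l + g := by rw [hL, hl]
  have hl1 : (1 : ℝ) ≤ l := by
    rw [← hlc]
    exact one_le_pow₀ (by norm_num)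
  have hgl : (g : ℝ) ≤ l := by
    have : g < 4 ^ g := Nat.lt_pow_self (by norm_num)
    rw [hl]
    exact_mod_cast this.le
  have hLr : (L : ℝ) ≤ 2 * l := by
    rw [hLl]
    push_cast
    linarith
  obtain ⟨M, hM⟩ : ∃ M : ℝ, M = 2 ^ L / a0 := ⟨_, rfl⟩
  have hK0 : (0 : ℝ) ≤ K := Nat.cast_nonneg K
  have hM0 : 0 < M := by
    rw [hM]
    positivity
  have h2g : (1 : ℝ) ≤ 2 ^ g := one_le_pow₀ (by norm_num)
  -- `K l 2^g ≤ ε M / 8`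
  have hKl : (K : ℝ) * l * 2 ^ g ≤ M / 800 := by
    have h1 : (2 : ℝ) ^ L = 2 ^ l * 2 ^ g := by
      rw [hLl, pow_add]
    have h2 : ε * (2 ^ l * η / (8 * a0)) ≤ (1 / 100) * (2 ^ l * 1 / (8 * a0)) := by
      gcongr
    calc (K : ℝ) * l * 2 ^ g ≤ (1 / 100) * (2 ^ l * 1 / (8 * a0)) * 2 ^ g := by
          apply mul_le_mul_of_nonneg_right (hK.trans h2) (by positivity)
      _ = M / 800 := by
          rw [hM, h1]
          field_simp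
          norm_num
  have hKl2 : (K : ℝ) * l ≤ M / 800 := by
    refine le_trans ?_ hKl
    exact le_mul_of_one_le_right (by positivity) h2g
  -- bound of `XT`
  have hX : XT K l (2 ^ g) (fun i : Fin L => 2 * (j0 + L - i)) ≤ Real.exp (3 * M) := by
    unfold XT
    have h3 : (((l : ℝ) + 1) ^ K) ^ 2 ≤ Real.exp M := by
      have h4 : (l : ℝ) + 1 ≤ Real.exp l := Real.add_one_le_exp _
      have h5 : (((l : ℝ) + 1) ^ K) ^ 2 ≤ ((Real.exp l) ^ K) ^ 2 := by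
        gcongr
      refine h5.trans ?_
      rw [← Real.exp_nat_mul, ← Real.exp_nat_mul]
      apply Real.exp_le_exp.2
      push_cast
      nlinarith
    have h6 : (2 : ℝ) ^ (K * L * (8 * 2 ^ g + 1) + 8 * ∑ i : Fin L, (2 * (j0 + L - (i : ℕ)) + 1)) ≤
        Real.exp (2 * M) := by
      have h7 : (2 : ℝ) ≤ Real.exp 1 := by
        have := Real.add_one_le_exp (1 : ℝ)
        linarith
      refine (pow_le_pow_left₀ (by norm_num) h7 _).trans ?_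
      rw [← Real.exp_nat_mul]
      apply Real.exp_le_exp.2
      rw [mul_one]
      push_cast
      have h8 : (K : ℝ) * L * (8 * 2 ^ g + 1) ≤ M := by
        have h9 : (8 * 2 ^ g + 1 : ℝ) ≤ 9 * 2 ^ g := by linarith
        calc (K : ℝ) * L * (8 * 2 ^ g + 1) ≤ K * (2 * l) * (9 * 2 ^ g) := by gcongr
          _ = 18 * (K * l * 2 ^ g) := by ring
          _ ≤ M := by linarith
      have h10 : 8 * ∑ i : Fin L, (2 * ((j0 + L - (i : ℕ) : ℕ) : ℝ) + 1) ≤ M := by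
        rw [hM]
        refine le_trans ?_ hA
        apply mul_le_mul_of_nonneg_left _ (by norm_num)
        have h11 : ∀ i : Fin L, 2 * ((j0 + L - (i : ℕ) : ℕ) : ℝ) + 1 ≤ 2 * ((j0 : ℝ) + L) + 1 := by
          intro i
          have h12 : ((j0 + L - (i : ℕ) : ℕ) : ℝ) ≤ ((j0 + L : ℕ) : ℝ) := by
            exact_mod_cast Nat.sub_le _ _
          push_cast at h12
          linarith
        refine (sum_le_sum fun i _ => h11 i).trans ?_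
        rw [sum_const, card_univ, Fintype.card_fin, nsmul_eq_mul]
      linarith
    calc (((l : ℝ) + 1) ^ K) ^ 2 *
        2 ^ (K * L * (8 * 2 ^ g + 1) + 8 * ∑ i : Fin L, (2 * (j0 + L - (i : ℕ)) + 1))
        ≤ Real.exp M * Real.exp (2 * M) := mul_le_mul h3 h6 (by positivity) (Real.exp_pos _).le
      _ = Real.exp (3 * M) := by
          rw [← Real.exp_add]
          congr 1
          ring
  have hw : -(10 / (a0 / 2 ^ L)) = -(10 * M) := by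
    rw [hM]
    field_simp
  rw [hw]
  rw [← hM] at hB
  have h13 : Real.exp (-(10 * M)) * XT K l (2 ^ g) (fun i : Fin L => 2 * (j0 + L - i)) ≤
      Real.exp (-(7 * M)) := by
    calc Real.exp (-(10 * M)) * XT K l (2 ^ g) (fun i : Fin L => 2 * (j0 + L - i))
        ≤ Real.exp (-(10 * M)) * Real.exp (3 * M) :=
          mul_le_mul_of_nonneg_left hX (Real.exp_pos _).le
      _ = Real.exp (-(7 * M)) := by
          rw [← Real.exp_add]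
          congr 1
          ring
  refine le_trans ?_ hB
  exact mul_le_mul_of_nonneg_left h13 (by positivity)

end Pool.Agent.H92.MM
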