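import Pool.Agent.H92.MM.Def

/-!
# [H92 MM PO] One-variable Poisson means (mean log 2)

`pw m = (1/2) (log 2)^m / m!` are the Poisson weights of mean `λ = log 2` (`e^{-λ} = 1/2`), `po f = ∑' m, pw m * f m`.

Proof.  `po_summable`: `|pw m * f m| ≤ C/2 * (8 λ)^m/m!`, summable (`Real.summable_pow_div_factorial`).  `po_add`,
`po_sub`, `po_sum`: `Summable.tsum_add`, ...; `po_smul`: `tsum_mul_left`.  `po_choose`: `pw m * C(m,k) = 1/2 * λ^k/k! *
λ^(m-k)/(m-k)!` for `m ≥ k` and `0` for `m < k` (`Nat.choose_eq_zero_of_lt`); shift the sum by `k`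
(`Summable.sum_add_tsum_nat_add` or `tsum` over `m = k + r`), `∑ λ^r/r! = e^λ = 2` (`Real.exp_eq_tsum_div` /
`NormedSpace.expSeries_div_summable`).  `po_one`, `po_const`: `k = 0`.
`po_tail`: `f m = f 0 [m = 0] + (terms m ≥ c+1)`; `|∑_{m ≥ c+1} pw m f m| ≤ 1/2 ∑_{m ≥ c+1} (8λ)^m/m!`, and
`∑_{r ≥ 0} y^(c+1+r)/(c+1+r)! ≤ y^(c+1)/(c+1)! ∑_r y^r/r!` (`(c+1+r)! ≥ (c+1)! r!`), `y = 8 λ ≤ 6` (`Real.log_two_lt_d9`),
`e^(8λ) = 2^8 = 256`.
-/

namespace Pool.Agent.H92.MM

open Finset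

/-- Poisson weights of mean `log 2` -/
noncomputable def pw (m : ℕ) : ℝ := 1 / 2 * (Real.log 2 ^ m / (m.factorial : ℝ))

/-- Poisson mean -/
noncomputable def po (f : ℕ → ℝ) : ℝ := ∑' m, pw m * f m

/-- the bound for the tails -/
noncomputable def tl (c : ℕ) : ℝ := 128 * 6 ^ (c + 1) / ((c + 1).factorial : ℝ)

private theorem lg0 : 0 ≤ Real.log 2 := Real.log_nonneg one_le_two

private theorem exp_sum (y : ℝ) : HasSum (fun n : ℕ => y ^ n / (n.factorial : ℝ)) (Real.exp y) := by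
  rw [Real.exp_eq_exp_ℝ]
  exact NormedSpace.expSeries_div_hasSum_exp y

theorem pw_nonneg (m : ℕ) : 0 ≤ pw m := by
  unfold pw
  have := lg0
  positivity

theorem po_summable {f : ℕ → ℝ} {C : ℝ} (hf : ∀ m, |f m| ≤ C * 8 ^ m) :
    Summable (fun m => pw m * f m) := by
  refine Summable.of_norm_bounded (g := fun m => C / 2 * ((8 * Real.log 2) ^ m / (m.factorial : ℝ)))
    ((exp_sum (8 * Real.log 2)).summable.mul_left _) ?_
  intro m
  rw [Real.norm_eq_abs, abs_mul, abs_of_nonneg (pw_nonneg m)]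
  calc pw m * |f m| ≤ pw m * (C * 8 ^ m) := mul_le_mul_of_nonneg_left (hf m) (pw_nonneg m)
    _ = C / 2 * ((8 * Real.log 2) ^ m / (m.factorial : ℝ)) := by
      unfold pw
      rw [mul_pow]
      ring

theorem po_add {f g : ℕ → ℝ} {C C' : ℝ} (hf : ∀ m, |f m| ≤ C * 8 ^ m)
    (hg : ∀ m, |g m| ≤ C' * 8 ^ m) : po (fun m => f m + g m) = po f + po g := by
  unfold po
  rw [← (po_summable hf).tsum_add (po_summable hg)]
  exact tsum_congr fun m => mul_add _ _ _

theorem po_sub {f g : ℕ → ℝ} {C C' : ℝ} (hf : ∀ m, |f m| ≤ C * 8 ^ m)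
    (hg : ∀ m, |g m| ≤ C' * 8 ^ m) : po (fun m => f m - g m) = po f - po g := by
  unfold po
  rw [← (po_summable hf).tsum_sub (po_summable hg)]
  exact tsum_congr fun m => mul_sub _ _ _

theorem po_smul (c : ℝ) (f : ℕ → ℝ) : po (fun m => c * f m) = c * po f := by
  unfold po
  rw [← tsum_mul_left]
  exact tsum_congr fun m => by ring

theorem po_sum {κ : Type} (s : Finset κ) (f : κ → ℕ → ℝ) (C : ℝ)
    (hf : ∀ k ∈ s, ∀ m, |f k m| ≤ C * 8 ^ m) : po (fun m => ∑ k ∈ s, f k m) = ∑ k ∈ s, po (f k) := by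
  unfold po
  rw [← Summable.tsum_finsetSum fun k hk => po_summable (hf k hk)]
  exact tsum_congr fun m => mul_sum _ _ _

theorem po_nonneg {f : ℕ → ℝ} (hf : ∀ m, 0 ≤ f m) : 0 ≤ po f :=
  tsum_nonneg fun m => mul_nonneg (pw_nonneg m) (hf m)

theorem po_choose (k : ℕ) : po (fun m => (m.choose k : ℝ)) = Real.log 2 ^ k / (k.factorial : ℝ) := by
  have hb : ∀ m, |(m.choose k : ℝ)| ≤ 1 * 8 ^ m := by
    intro m
    rw [abs_of_nonneg (Nat.cast_nonneg _), one_mul]
    calc ((m.choose k : ℕ) : ℝ) ≤ ((2 ^ m : ℕ) : ℝ) := by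
          exact_mod_cast Nat.choose_le_two_pow m k
      _ = (2 : ℝ) ^ m := by push_cast; rfl
      _ ≤ 8 ^ m := pow_le_pow_left₀ (by norm_num) (by norm_num) m
  unfold po
  rw [← (po_summable hb).sum_add_tsum_nat_add k]
  have h0 : ∑ i ∈ range k, pw i * (i.choose k : ℝ) = 0 := by
    apply sum_eq_zero
    intro i hi
    rw [Nat.choose_eq_zero_of_lt (mem_range.1 hi)]
    simp
  rw [h0, zero_add]
  have h1 : ∀ i : ℕ, pw (i + k) * ((i + k).choose k : ℝ) =
      1 / 2 * (Real.log 2 ^ k / (k.factorial : ℝ)) * (Real.log 2 ^ i / (i.factorial : ℝ)) := by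
    intro i
    have h2 : (((i + k).choose k * i.factorial * k.factorial : ℕ) : ℝ) = ((i + k).factorial : ℕ) := by
      rw [Nat.add_choose_mul_factorial_mul_factorial]
    push_cast at h2
    have hi : (i.factorial : ℝ) ≠ 0 := Nat.cast_ne_zero.2 i.factorial_ne_zero
    have hk : (k.factorial : ℝ) ≠ 0 := Nat.cast_ne_zero.2 k.factorial_ne_zero
    have hik : ((i + k).factorial : ℝ) ≠ 0 := Nat.cast_ne_zero.2 (i + k).factorial_ne_zero
    have h4 : ((i + k).choose k : ℝ) = ((i + k).factorial : ℝ) / (i.factorial * k.factorial) := by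
      rw [eq_div_iff (mul_ne_zero hi hk), ← h2]
      ring
    unfold pw
    rw [h4, pow_add]
    field_simp
  rw [tsum_congr h1, tsum_mul_left, (exp_sum (Real.log 2)).tsum_eq, Real.exp_log (by norm_num)]
  ring

theorem po_const (c : ℝ) : po (fun _ => c) = c := by
  have h1 := po_smul c (fun m => (m.choose 0 : ℝ))
  rw [po_choose] at h1
  simpa using h1

theorem tl_pos (c : ℕ) : 0 < tl c := by
  unfold tl
  positivity

theorem po_tail {f : ℕ → ℝ} (c : ℕ) (hf : ∀ m, |f m| ≤ 8 ^ m)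
    (h0 : ∀ m, 1 ≤ m → m ≤ c → f m = 0) : |po f - f 0 / 2| ≤ tl c := by
  have hb : ∀ m, |f m| ≤ 1 * 8 ^ m := fun m => by rw [one_mul]; exact hf m
  have hsum : ∑ i ∈ range (c + 1), pw i * f i = f 0 / 2 := by
    rw [sum_eq_single 0]
    · unfold pw
      simp
      ring
    · intro i hi hi0
      rw [h0 i (Nat.one_le_iff_ne_zero.2 hi0) (Nat.lt_succ_iff.1 (mem_range.1 hi)), mul_zero]
    · intro h
      exact absurd (mem_range.2 (Nat.succ_pos c)) h
  unfold po
  rw [← (po_summable hb).sum_add_tsum_nat_add (c + 1), hsum, add_sub_cancel_left]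
  set y : ℝ := 8 * Real.log 2 with hy
  have hy0 : 0 ≤ y := by have := lg0; positivity
  have hy6 : y ≤ 6 := by
    have := Real.log_two_lt_d9
    rw [hy]
    linarith
  have hey : Real.exp y = 256 := by
    rw [hy, mul_comm, Real.exp_mul, Real.exp_log (by norm_num)]
    norm_num
  have hg : HasSum (fun r : ℕ => 1 / 2 * (y ^ (c + 1) / ((c + 1).factorial : ℝ)) *
      (y ^ r / (r.factorial : ℝ))) (1 / 2 * (y ^ (c + 1) / ((c + 1).factorial : ℝ)) * Real.exp y) :=
    (exp_sum y).mul_left _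
  have hle : ∀ r : ℕ, ‖pw (r + (c + 1)) * f (r + (c + 1))‖ ≤
      1 / 2 * (y ^ (c + 1) / ((c + 1).factorial : ℝ)) * (y ^ r / (r.factorial : ℝ)) := by
    intro r
    rw [Real.norm_eq_abs, abs_mul, abs_of_nonneg (pw_nonneg _)]
    have hfac : (((c + 1).factorial : ℝ)) * (r.factorial : ℝ) ≤ ((r + (c + 1)).factorial : ℝ) := by
      have h1 := Nat.factorial_mul_factorial_dvd_factorial_add (c + 1) r
      have h2 := Nat.le_of_dvd (Nat.factorial_pos _) h1
      rw [add_comm (c + 1) r] at h2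
      exact_mod_cast h2
    have hp1 : (0 : ℝ) < ((c + 1).factorial : ℝ) := Nat.cast_pos.2 (Nat.factorial_pos _)
    have hp2 : (0 : ℝ) < (r.factorial : ℝ) := Nat.cast_pos.2 (Nat.factorial_pos _)
    calc pw (r + (c + 1)) * |f (r + (c + 1))|
        ≤ pw (r + (c + 1)) * 8 ^ (r + (c + 1)) :=
          mul_le_mul_of_nonneg_left (hf _) (pw_nonneg _)
      _ = 1 / 2 * (y ^ (r + (c + 1)) / ((r + (c + 1)).factorial : ℝ)) := by
          unfold pw
          rw [hy, mul_pow]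
          ring
      _ ≤ 1 / 2 * (y ^ (r + (c + 1)) / (((c + 1).factorial : ℝ) * (r.factorial : ℝ))) := by
          apply mul_le_mul_of_nonneg_left _ (by norm_num)
          exact div_le_div_of_nonneg_left (by positivity) (by positivity) hfac
      _ = 1 / 2 * (y ^ (c + 1) / ((c + 1).factorial : ℝ)) * (y ^ r / (r.factorial : ℝ)) := by
          rw [pow_add]
          field_simp
  refine (tsum_of_norm_bounded hg hle).trans ?_
  rw [hey]
  unfold tl
  have h6 : y ^ (c + 1) ≤ 6 ^ (c + 1) := pow_le_pow_left₀ hy0 hy6 _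
  have hp1 : (0 : ℝ) < ((c + 1).factorial : ℝ) := Nat.cast_pos.2 (Nat.factorial_pos _)
  calc 1 / 2 * (y ^ (c + 1) / ((c + 1).factorial : ℝ)) * 256
      = 128 * y ^ (c + 1) / ((c + 1).factorial : ℝ) := by ring
    _ ≤ 128 * 6 ^ (c + 1) / ((c + 1).factorial : ℝ) := by
      apply div_le_div_of_nonneg_right _ hp1.le
      linarith

end Pool.Agent.H92.MM
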