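import Pool.Agent.H92.MM.Fd

/-!
# [H92 MM PT] Pointwise sandwich

`bi i` even.  If all counts `m x i N` vanish: `rp = 1` (`ub_zero`), every product in `dl` has the factor `C(0, bi i0 + 1) = 0`.
Otherwise some `m x i1 N = t ≥ 1`; `rp ≥ 0`, all terms of `dl` are `≥ 0` (`ub_nonneg`), and
`rp - (the i1-term) = (∏_{i ≠ i1} Ub) (Ub (bi i1) t - C(t, bi i1 + 1))` with `Ub b t = C(t-1,b)` (`ub_succ`, `b` even) and
`C(t-1,b) - C(t,b+1) = - C(t-1,b+1) ≤ 0` (Pascal).
-/

namespace Pool.Agent.H92.MM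

open Finset

section

variable {ι : Type} {L : ℕ} {bi : Fin L → ℕ} {m : ι → Fin L → ℕ → ℕ}

theorem rp_nonneg (hbi : ∀ i, Even (bi i)) (x : ι) (N : ℕ) : 0 ≤ rp bi m x N := by
  unfold rp
  exact Finset.prod_nonneg fun i _ => ub_nonneg (hbi i) _

private theorem aC_nonneg (hbi : ∀ i, Even (bi i)) (i0 i : Fin L) (t : ℕ) :
    0 ≤ aC bi i0 i t := by
  unfold aC
  split_ifs
  · exact Nat.cast_nonneg _
  · exact ub_nonneg (hbi i) _

theorem dl_nonneg (hbi : ∀ i, Even (bi i)) (x : ι) (N : ℕ) : 0 ≤ dl bi m x N := by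
  unfold dl
  exact Finset.sum_nonneg fun i0 _ => Finset.prod_nonneg fun i _ => aC_nonneg hbi i0 i _

private theorem rp_zero {x : ι} {N : ℕ} (h : ∀ i, m x i N = 0) : rp bi m x N = 1 := by
  unfold rp
  refine Finset.prod_eq_one fun i _ => ?_
  rw [h i]
  exact ub_zero _

theorem r0_le_rp (hbi : ∀ i, Even (bi i)) (x : ι) (N : ℕ) : r0 m x N ≤ rp bi m x N := by
  unfold r0
  split_ifs with h
  · rw [rp_zero h]
  · exact rp_nonneg hbi x N

theorem rp_sub_dl (hbi : ∀ i, Even (bi i)) (x : ι) (N : ℕ) :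
    rp bi m x N - dl bi m x N ≤ r0 m x N := by
  have hd := dl_nonneg (m := m) hbi x N
  unfold r0
  split_ifs with h
  · rw [rp_zero h]
    linarith
  · push Not at h
    obtain ⟨i1, hi1⟩ := h
    have h1 : rp bi m x N ≤ ∏ i, aC bi i1 i (m x i N) := by
      unfold rp
      rw [← Finset.mul_prod_erase _ _ (Finset.mem_univ i1),
        ← Finset.mul_prod_erase _ (fun i => aC bi i1 i (m x i N)) (Finset.mem_univ i1)]
      have e1 : ∏ i ∈ Finset.univ.erase i1, aC bi i1 i (m x i N) =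
          ∏ i ∈ Finset.univ.erase i1, aP bi i (m x i N) := by
        refine Finset.prod_congr rfl fun i hi => ?_
        unfold aC aP
        rw [if_neg (Finset.ne_of_mem_erase hi)]
      rw [e1]
      refine mul_le_mul_of_nonneg_right ?_
        (Finset.prod_nonneg fun i _ => ub_nonneg (hbi i) _)
      unfold aC aP
      rw [if_pos rfl]
      obtain ⟨t, ht⟩ := Nat.exists_eq_succ_of_ne_zero hi1
      rw [ht, Nat.succ_eq_add_one, ub_succ, (hbi i1).neg_one_pow, one_mul, Nat.choose_succ_succ,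
        Nat.cast_add]
      have : (0 : ℝ) ≤ (t.choose (bi i1 + 1) : ℝ) := Nat.cast_nonneg _
      linarith
    have h2 : ∏ i, aC bi i1 i (m x i N) ≤ dl bi m x N := by
      unfold dl
      exact Finset.single_le_sum (f := fun i0 => ∏ i, aC bi i0 i (m x i N))
        (fun i0 _ => Finset.prod_nonneg fun i _ => aC_nonneg hbi i0 i _) (Finset.mem_univ i1)
    linarith

theorem r0_nonneg (x : ι) (N : ℕ) : 0 ≤ r0 m x N := by
  unfold r0
  split_ifs <;> norm_num

theorem r0_le_one (x : ι) (N : ℕ) : r0 m x N ≤ 1 := by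
  unfold r0
  split_ifs <;> norm_num

end

end Pool.Agent.H92.MM
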