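import Pool.Agent.H92.MM.Def
import Pool.Agent.H95.L1.Nrm
import Pool.Agent.H95.L1.Win

/-!
# [H92 MM SQ] Removal of the numbers that are not squarefree

`Sqb x a0 n`: a prime `p ≥ x^a0` has `p^2 ∣ n`.  `sq_law`: `F` may be replaced by `F 1[not Sqb]` in the pair law (`Θ + 1 → Θ`).

Proof.  `c0` the same.  `w0' = max w0 (2 K)`.  It suffices to bound, for `x` large and all `A` with `sl a L A ≤ η`,
`D = |Av(sm A (Φ - Φ'))|`, `Φ = F(N + h j)` or `F(N + h j) F(N + h j')`, `Φ'` = modified version, by `exp(-Θ/a) - exp(-(Θ+1)/a) > 0`.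
* `|Φ - Φ'| ≤ C'^2 ∑_j 1[Sqb (N + h j)]`, `C' = max C 1` (`N ∈ Tx x`: `0 < N + h j ≤ x^(1+1/2000) + h j ≤ x^(1+1/1000)`).
* `|sm A| ≤ (1 + 2 log x/ log 2)^M`, `M = ⌈η/a⌉` (the number of primes dividing `n ≤ x^2` is `≤ 2 log x/log 2`; `C(m,A) ≤ m^A ≤ (1+m)^A`;
  `∑ A j i ≤ η/(2a)`).
* bad mass: `∑_{N ∈ Tx x, Sqb (N + h)} gw x N ≤ ∑_{x^a0 ≤ p ≤ x} ∑_{N ∈ Tx x, p^2 ∣ N + h} gw x N ≤ ∑_p (mass x/p^2 + 4)`: for `p ≤ x^(3/5)` by `ud_win`
  (`p^2 ≤ N + h ≤ x^(1.001)`, so `p ≤ x^(3/5)`), `≤ 2 mass x * x^(-a0) * 2 + 4 x^(3/5)` (`∑_{n ≥ y} 1/n^2 ≤ 2/y`, `Pool/Agent/H63/CF/Sq.lean` `sum_inv_sq`),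
  `mass x ≤ 4 x` or any bound `≤ x^(1 + a0/8)` (`gw_massx`, or `ud_win` with `q = 1` and `gw ≤ 1`..; note `mass x ≤ XG x ≤ 120 x`).
* `nm ≥ x^(1-κ)` (`nm_ge`), `κ = min (a0/8) (1/20)`: `D ≤ K C'^2 (1 + 3 log x)^M (480 x^(1-a0) + 4 x^(3/5)) / x^(1-κ) → 0`.
`sq_free`: `n ≥ 1`, all primes of `n` are `≥ x^a0` and not `Sqb`: `Squarefree n` (`Nat.squarefree_iff_prime_squarefree`).
-/

namespace Pool.Agent.H92.MM

open Finset Filter Pool.Agent.H21.MT

/-- divisible by the square of a prime `≥ x^a0` -/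
def Sqb (x a0 : ℝ) (n : ℕ) : Prop := ∃ p : ℕ, p.Prime ∧ x ^ a0 ≤ (p : ℝ) ∧ p ^ 2 ∣ n

set_option linter.unusedVariables false in
theorem sq_free {x a0 : ℝ} {n : ℕ} (hn : 0 < n)
    (hr : ∀ p : ℕ, p.Prime → p ∣ n → x ^ a0 ≤ (p : ℝ)) (hs : ¬ Sqb x a0 n) : Squarefree n := by
  rw [Nat.squarefree_iff_prime_squarefree]
  intro p hp hd
  apply hs
  refine ⟨p, hp, hr p hp ((dvd_mul_right p p).trans hd), ?_⟩
  rwa [sq]

private theorem sq_ev (h : ℕ) : ∀ᶠ x : ℝ in atTop,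
    x ^ (1 + 1 / 2000 : ℝ) + h ≤ x ^ (1001 / 1000 : ℝ) := by
  have h1 : ∀ᶠ x : ℝ in atTop, (2 : ℝ) ≤ x ^ (1 / 2000 : ℝ) :=
    (tendsto_rpow_atTop (by norm_num)).eventually_ge_atTop _
  filter_upwards [h1, eventually_ge_atTop (1 : ℝ), eventually_ge_atTop (h : ℝ)] with x h1 hx hh
  have hx0 : 0 < x := by linarith
  have h2 : x ^ (1001 / 1000 : ℝ) = x ^ (1 + 1 / 2000 : ℝ) * x ^ (1 / 2000 : ℝ) := by
    rw [← Real.rpow_add hx0]
    norm_num
  have h3 : x ≤ x ^ (1 + 1 / 2000 : ℝ) := by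
    have h := Real.rpow_le_rpow_of_exponent_le hx (show (1 : ℝ) ≤ 1 + 1 / 2000 by norm_num)
    rwa [Real.rpow_one] at h
  rw [h2]
  nlinarith

private theorem sq_mem {x : ℝ} (hx : 0 ≤ x) {N : ℕ} (hN : N ∈ Tx x) :
    0 < N ∧ (N : ℝ) ≤ x ^ (1 + 1 / 2000 : ℝ) := by
  unfold Tx at hN
  obtain ⟨h1, h2⟩ := mem_Ioc.1 hN
  exact ⟨by omega, (Nat.le_floor_iff (Real.rpow_nonneg hx _)).1 h2⟩

private theorem sq_mass_le {x : ℝ} (hx : 1 ≤ x) : mass x ≤ Pool.Agent.H21.SH.XG x := by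
  unfold mass Pool.Agent.H21.SH.XG
  apply sum_le_sum_of_subset_of_nonneg
  · unfold Tx Win
    apply Ioc_subset_Ioc le_rfl
    apply Nat.floor_le_floor
    have h := Real.rpow_le_rpow_of_exponent_le hx (show (1 + 1 / 2000 : ℝ) ≤ (2 : ℕ) by norm_num)
    rwa [Real.rpow_natCast] at h
  · intro N _ _
    exact (gw_pos x N).le

theorem sq_mass (a0 : ℝ) (ha0 : 0 < a0) (ha1 : a0 ≤ 1 / 20) (h : ℕ) : ∀ᶠ x : ℝ in atTop,
    ∀ S ⊆ Tx x, (∀ N ∈ S, Sqb x a0 (N + h)) → ∑ N ∈ S, gw x N ≤ x ^ (1 - a0 / 2) := by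
  classical
  have e1 : ∀ᶠ x : ℝ in atTop, (244 : ℝ) ≤ x ^ (a0 / 2) :=
    (tendsto_rpow_atTop (by positivity)).eventually_ge_atTop _
  filter_upwards [sq_ev h, e1, eventually_ge_atTop (1 : ℝ), Pool.Agent.H95.L1.ud_win,
    Pool.Agent.H21.SH.gw_massx] with x hx1 hx2 hx hud hmass S hS hSq
  have hx0 : 0 < x := by linarith
  set k : ℕ := ⌈x ^ a0⌉₊ - 1 with hk
  set n : ℕ := ⌊x ^ (3 / 5 : ℝ)⌋₊ + 1 with hn
  have hy1 : 1 ≤ x ^ a0 := Real.one_le_rpow hx ha0.le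
  have hceil : 1 ≤ ⌈x ^ a0⌉₊ := Nat.one_le_ceil_iff.2 (by linarith)
  have hk1 : k + 1 = ⌈x ^ a0⌉₊ := by omega
  have hM0 : 0 ≤ mass x := by
    unfold mass
    exact sum_nonneg fun N _ => (gw_pos x N).le
  have hM : mass x ≤ 120 * x := (sq_mass_le hx).trans hmass.2
  have step1 : ∀ N ∈ S, gw x N ≤ ∑ p ∈ Ioo k n,
      (if N % p ^ 2 = (h * (p ^ 2 - 1)) % p ^ 2 then gw x N else 0) := by
    intro N hN
    obtain ⟨p, hp, hpx, hpd⟩ := hSq N hN
    obtain ⟨hN0, hN1⟩ := sq_mem hx0.le (hS hN)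
    have hpk : k < p := by
      have h1 : ⌈x ^ a0⌉₊ ≤ p := Nat.ceil_le.2 hpx
      omega
    have hpn : p < n := by
      have h1 : p ^ 2 ≤ N + h := Nat.le_of_dvd (by omega) hpd
      have h2 : ((p : ℝ)) ^ 2 ≤ x ^ (1001 / 1000 : ℝ) := by
        have h3 : ((p : ℝ)) ^ 2 ≤ N + h := by exact_mod_cast h1
        linarith
      have h4 : x ^ (1001 / 1000 : ℝ) ≤ (x ^ (3 / 5 : ℝ)) ^ 2 := by
        rw [← Real.rpow_natCast (x ^ (3 / 5 : ℝ)) 2, ← Real.rpow_mul hx0.le]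
        exact Real.rpow_le_rpow_of_exponent_le hx (by norm_num)
      have h5 : (p : ℝ) ≤ x ^ (3 / 5 : ℝ) :=
        (pow_le_pow_iff_left₀ (Nat.cast_nonneg p) (Real.rpow_nonneg hx0.le _) two_ne_zero).1
          (h2.trans h4)
      have h6 : p ≤ ⌊x ^ (3 / 5 : ℝ)⌋₊ := Nat.le_floor h5
      omega
    have hcong : N % p ^ 2 = (h * (p ^ 2 - 1)) % p ^ 2 := by
      have hp2 : 1 ≤ p ^ 2 := Nat.one_le_pow _ _ hp.pos
      have h1 : h * (p ^ 2 - 1) + h = h * p ^ 2 := by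
        have h2 : p ^ 2 - 1 + 1 = p ^ 2 := Nat.sub_add_cancel hp2
        calc h * (p ^ 2 - 1) + h = h * (p ^ 2 - 1 + 1) := by ring
          _ = h * p ^ 2 := by rw [h2]
      have h3 : N + h ≡ h * (p ^ 2 - 1) + h [MOD p ^ 2] := by
        rw [h1]
        exact (Nat.modEq_zero_iff_dvd.2 hpd).trans (Nat.modEq_zero_iff_dvd.2 (dvd_mul_left _ _)).symm
      exact Nat.ModEq.add_right_cancel' h h3
    calc gw x N = (if N % p ^ 2 = (h * (p ^ 2 - 1)) % p ^ 2 then gw x N else 0) := by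
          rw [if_pos hcong]
      _ ≤ _ := single_le_sum (f := fun p : ℕ =>
          (if N % p ^ 2 = (h * (p ^ 2 - 1)) % p ^ 2 then gw x N else 0)) (fun q _ => by
            split_ifs
            · exact (gw_pos x N).le
            · exact le_rfl) (mem_Ioo.2 ⟨hpk, hpn⟩)
  have step2 : ∑ N ∈ S, gw x N ≤ ∑ p ∈ Ioo k n, (mass x / ((p : ℝ) ^ 2) + 4) := by
    calc ∑ N ∈ S, gw x N ≤ ∑ N ∈ S, ∑ p ∈ Ioo k n,
          (if N % p ^ 2 = (h * (p ^ 2 - 1)) % p ^ 2 then gw x N else 0) := sum_le_sum step1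
      _ ≤ ∑ N ∈ Tx x, ∑ p ∈ Ioo k n,
          (if N % p ^ 2 = (h * (p ^ 2 - 1)) % p ^ 2 then gw x N else 0) := by
          apply sum_le_sum_of_subset_of_nonneg hS
          intro N _ _
          apply sum_nonneg
          intro p _
          split_ifs
          · exact (gw_pos x N).le
          · exact le_rfl
      _ = ∑ p ∈ Ioo k n, ∑ N ∈ (Tx x).filter (fun N => N % p ^ 2 = (h * (p ^ 2 - 1)) % p ^ 2),
          gw x N := by
          rw [sum_comm]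
          exact sum_congr rfl fun p _ => (sum_filter _ _).symm
      _ ≤ _ := by
          apply sum_le_sum
          intro p hp
          have hp0 : 0 < p := by
            have := (mem_Ioo.1 hp).1
            omega
          have h1 := hud (p ^ 2) (h * (p ^ 2 - 1)) (by positivity)
          have h2 := (abs_le.1 h1).2
          push_cast at h2
          linarith
  have step3 : ∑ p ∈ Ioo k n, (mass x / ((p : ℝ) ^ 2) + 4) ≤
      mass x * (2 / (k + 1)) + 4 * x ^ (3 / 5 : ℝ) := by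
    rw [sum_add_distrib]
    apply add_le_add
    · have h1 := sum_Ioo_inv_sq_le (α := ℝ) k n
      calc ∑ p ∈ Ioo k n, mass x / ((p : ℝ) ^ 2) = mass x * ∑ p ∈ Ioo k n, ((p : ℝ) ^ 2)⁻¹ := by
            rw [mul_sum]
            exact sum_congr rfl fun p _ => div_eq_mul_inv _ _
        _ ≤ mass x * (2 / (k + 1)) := mul_le_mul_of_nonneg_left h1 hM0
    · rw [sum_const, Nat.card_Ioo, nsmul_eq_mul]
      have h1 : n - k - 1 ≤ ⌊x ^ (3 / 5 : ℝ)⌋₊ := by omega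
      have h2 : ((n - k - 1 : ℕ) : ℝ) ≤ x ^ (3 / 5 : ℝ) :=
        (Nat.cast_le.2 h1).trans (Nat.floor_le (Real.rpow_nonneg hx0.le _))
      linarith
  have step4 : mass x * (2 / (k + 1)) ≤ 240 * x ^ (1 - a0) := by
    have h1 : ((k : ℝ) + 1) = (⌈x ^ a0⌉₊ : ℝ) := by
      rw [← hk1]
      push_cast
      ring
    have h2 : x ^ a0 ≤ (k : ℝ) + 1 := by
      rw [h1]
      exact Nat.le_ceil _
    have h3 : 2 / ((k : ℝ) + 1) ≤ 2 / x ^ a0 :=
      div_le_div_of_nonneg_left (by norm_num) (by linarith) h2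
    have h4 : x ^ (1 - a0) = x / x ^ a0 := by
      rw [Real.rpow_sub hx0, Real.rpow_one]
    rw [h4]
    calc mass x * (2 / (k + 1)) ≤ (120 * x) * (2 / x ^ a0) :=
          mul_le_mul hM h3 (by positivity) (by positivity)
      _ = 240 * (x / x ^ a0) := by ring
  have step5 : x ^ (3 / 5 : ℝ) ≤ x ^ (1 - a0) :=
    Real.rpow_le_rpow_of_exponent_le hx (by linarith)
  have step6 : 244 * x ^ (1 - a0) ≤ x ^ (1 - a0 / 2) := by
    have h1 : x ^ (1 - a0 / 2) = x ^ (a0 / 2) * x ^ (1 - a0) := by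
      rw [← Real.rpow_add hx0]
      congr 1
      ring
    rw [h1]
    exact mul_le_mul_of_nonneg_right hx2 (Real.rpow_nonneg hx0.le _)
  linarith

theorem sm_bound {ι : Type} [Fintype ι] (a η : ℝ) (ha : 0 < a) (L : ℕ) (h : ι → ℕ) :
    ∀ᶠ x : ℝ in atTop, ∀ A : ι → Fin L → ℕ, sl a L A ≤ η → ∀ N ∈ Tx x,
      |sm x a L h A N| ≤ (4 * Real.log x) ^ (η / a) := by
  have e1 : ∀ᶠ x : ℝ in atTop, ∀ j, x ^ (1 + 1 / 2000 : ℝ) + h j ≤ x ^ (1001 / 1000 : ℝ) :=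
    eventually_all.2 fun j => sq_ev (h j)
  filter_upwards [e1, eventually_ge_atTop (3 : ℝ)] with x hx1 hx A hA N hN
  have hx0 : 0 < x := by linarith
  have hlog1 : 1 ≤ Real.log x := by
    rw [Real.le_log_iff_exp_le hx0]
    linarith [Real.exp_one_lt_d9]
  obtain ⟨hN0, hN1⟩ := sq_mem hx0.le hN
  have hmc : ∀ (j : ι) (i : ℕ), (mc x a i (N + h j) : ℝ) ≤ 4 * Real.log x := by
    intro j i
    set n : ℕ := N + h j with hn
    have hn0 : 0 < n := by omega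
    have h1 : mc x a i n ≤ n.primeFactors.card := by
      unfold mc
      apply card_le_card
      intro p hp
      rw [mem_filter] at hp
      unfold rg at hp
      rw [mem_filter] at hp
      exact Nat.mem_primeFactors.2 ⟨hp.1.2.1, hp.2, hn0.ne'⟩
    have h2 : 2 ^ n.primeFactors.card ≤ n := by
      calc 2 ^ n.primeFactors.card = ∏ _p ∈ n.primeFactors, 2 := by rw [prod_const]
        _ ≤ ∏ p ∈ n.primeFactors, p :=
            prod_le_prod' fun p hp => (Nat.prime_of_mem_primeFactors hp).two_le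
        _ ≤ n := Nat.le_of_dvd hn0 (Nat.prod_primeFactors_dvd n)
    have h3 : (n : ℝ) ≤ x ^ (1001 / 1000 : ℝ) := by
      rw [hn]
      push_cast
      linarith [hx1 j]
    have h4 : (2 : ℝ) ^ n.primeFactors.card ≤ x ^ (1001 / 1000 : ℝ) := by
      have h5 : ((2 : ℝ)) ^ n.primeFactors.card ≤ n := by exact_mod_cast h2
      linarith
    have h5 : (n.primeFactors.card : ℝ) * Real.log 2 ≤ 1001 / 1000 * Real.log x := by
      have h6 := Real.log_le_log (by positivity) h4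
      rwa [Real.log_pow, Real.log_rpow hx0] at h6
    have h6 := Real.log_two_gt_d9
    have h7 : (mc x a i n : ℝ) ≤ (n.primeFactors.card : ℝ) := by exact_mod_cast h1
    have h8 : (0 : ℝ) ≤ (n.primeFactors.card : ℝ) := Nat.cast_nonneg _
    nlinarith
  have hB : 1 ≤ 4 * Real.log x := by linarith
  have hsm0 : 0 ≤ sm x a L h A N := by
    unfold sm
    exact prod_nonneg fun j _ => prod_nonneg fun i _ => Nat.cast_nonneg _
  rw [abs_of_nonneg hsm0]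
  have h1 : sm x a L h A N ≤ ∏ j, ∏ i : Fin L, (4 * Real.log x) ^ (A j i) := by
    unfold sm
    apply Finset.prod_le_prod
    · intro j _
      exact prod_nonneg fun i _ => Nat.cast_nonneg _
    · intro j _
      apply Finset.prod_le_prod
      · intro i _
        exact Nat.cast_nonneg _
      · intro i _
        calc ((mc x a i (N + h j)).choose (A j i) : ℝ) ≤ ((mc x a i (N + h j)) ^ (A j i) : ℕ) :=
              Nat.cast_le.2 (Nat.choose_le_pow _ _)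
          _ = (mc x a i (N + h j) : ℝ) ^ (A j i) := by push_cast; rfl
          _ ≤ (4 * Real.log x) ^ (A j i) := pow_le_pow_left₀ (Nat.cast_nonneg _) (hmc j i) _
  have h2 : ∏ j, ∏ i : Fin L, (4 * Real.log x) ^ (A j i) =
      (4 * Real.log x) ^ (∑ j, ∑ i : Fin L, A j i) := by
    rw [← prod_pow_eq_pow_sum]
    exact prod_congr rfl fun j _ => prod_pow_eq_pow_sum _ _ _
  rw [h2] at h1
  refine h1.trans ?_
  rw [← Real.rpow_natCast]
  apply Real.rpow_le_rpow_of_exponent_le hB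
  rw [le_div_iff₀ ha]
  refine le_trans ?_ hA
  unfold sl
  push_cast
  rw [sum_mul]
  apply sum_le_sum
  intro j _
  rw [sum_mul]
  apply sum_le_sum
  intro i _
  have h3 : (1 : ℝ) ≤ 2 ^ ((i : ℕ) + 1) := one_le_pow₀ (by norm_num)
  have h4 : (0 : ℝ) ≤ (A j i : ℝ) := Nat.cast_nonneg _
  apply mul_le_mul_of_nonneg_left _ h4
  nlinarith

end Pool.Agent.H92.MM
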