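import Pool.Agent.H92.MM.Sq

/-!
# [H92 MM SQB] Removal of the numbers that are not squarefree

`Sqb x a0 n`: a prime `p ≥ x^a0` has `p^2 ∣ n`.  `sq_law`: `F` may be replaced by `F 1[not Sqb]` in the pair law (`Θ + 1 → Θ`).

Proof.  `c0` the same.  `w0' = max w0 (2 K)`.  It suffices to bound, for `x` large and all `A` with `sl a L A ≤ η`,
`D = |Av(sm A (Φ - Φ'))|`, `Φ = F(N + h j)` or `F(N + h j) F(N + h j')`, `Φ'` = modified version, by `exp(-Θ/a) - exp(-(Θ+1)/a) > 0`.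
* `|Φ - Φ'| ≤ C'^2 ∑_j 1[Sqb (N + h j)]`, `C' = max C 1` (`N ∈ Tx x`: `0 < N + h j ≤ x^(1+1/2000) + h j ≤ x^(1+1/1000)`).
* `|sm A| ≤ (1 + 2 log x/ log 2)^M`, `M = ⌈η/a⌉` (the number of primes dividing `n ≤ x^2` is `≤ 2 log x/log 2`; `C(m,A) ≤ m^A ≤ (1+m)^A`;
  `∑ A j i ≤ η/(2a)`).
* bad mass: `∑_{N ∈ Tx x, Sqb (N + h)} gw x N ≤ ∑_{x^a0 ≤ p ≤ x} ∑_{N ∈ Tx x, p^2 ∣ N + h} gw x N ≤ ∑_p (mass x/p^2 + 4)`: for `p ≤ x^(3/5)` by `ud_win`
  (`p^2 ≤ N + h ≤ x^(1.001)`, so `p ≤ x^(3/5)`), `≤ 2 mass x * x^(-a0) * 2 + 4 x^(3/5)` (`∑_{n ≥ y} 1/n^2 ≤ 2/y`, `Pool/Agent/H63/CF/Sq.lean` `sum_inv_sq`),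
  `mass x ≤ 4 x` or any bound `≤ x^(1 + a0/8)` (`gw_massx`, or `ud_win` with `q = 1` and `gw ≤ 1`..; note `mass x ≤ XG x ≤ 120 x`).
* `nm ≥ x^(1-κ)` (`nm_ge`), `κ = min (a0/8) (1/20)`: `D ≤ K C'^2 (1 + 3 log x)^M (480 x^(1-a0) + 4 x^(3/5)) / x^(1-κ) → 0`.
`sq_free`: `n ≥ 1`, all primes of `n` are `≥ x^a0` and not `Sqb`: `Squarefree n` (`Nat.squarefree_iff_prime_squarefree`).
-/

namespace Pool.Agent.H92.MM

open Finset Filter Pool.Agent.H21.MT

private theorem sqb_range (h : ℕ) : ∀ᶠ x : ℝ in atTop,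
    x ^ (1 + 1 / 2000 : ℝ) + h ≤ x ^ (1 + 1 / 1000 : ℝ) := by
  have h1 : ∀ᶠ x : ℝ in atTop, (1 + h : ℝ) ≤ x ^ (1 / 2000 : ℝ) :=
    (tendsto_rpow_atTop (by norm_num)).eventually_ge_atTop _
  filter_upwards [h1, eventually_ge_atTop (1 : ℝ)] with x hx hx1
  have hx0 : 0 < x := by linarith
  have h2 : x ^ (1 + 1 / 1000 : ℝ) = x ^ (1 + 1 / 2000 : ℝ) * x ^ (1 / 2000 : ℝ) := by
    rw [← Real.rpow_add hx0]
    norm_num
  have h3 : 1 ≤ x ^ (1 + 1 / 2000 : ℝ) := Real.one_le_rpow hx1 (by norm_num)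
  rw [h2]
  have h4 : x ^ (1 + 1 / 2000 : ℝ) * (1 + h : ℝ) ≤
      x ^ (1 + 1 / 2000 : ℝ) * x ^ (1 / 2000 : ℝ) :=
    mul_le_mul_of_nonneg_left hx (by linarith)
  have h5 : (h : ℝ) ≤ x ^ (1 + 1 / 2000 : ℝ) * h :=
    le_mul_of_one_le_left (Nat.cast_nonneg h) h3
  linarith

private theorem sqb_small (s c K δ a0 : ℝ) (ha0 : 0 < a0) (hc : 0 < c) (hK : 0 ≤ K)
    (hδ : 0 < δ) : ∀ᶠ x : ℝ in atTop,
      (4 * Real.log x) ^ s * c * (K * x ^ (1 - a0 / 2)) ≤ δ * x ^ (1 - a0 / 4) := by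
  have hcp : 0 < δ / ((4 : ℝ) ^ s * c * (K + 1)) := by positivity
  have h1 := (isLittleO_log_rpow_rpow_atTop s (show 0 < a0 / 4 by linarith)).bound hcp
  filter_upwards [h1, eventually_ge_atTop (1 : ℝ)] with x hx hx1
  have hx0 : 0 < x := by linarith
  have h2 : 0 ≤ Real.log x := Real.log_nonneg hx1
  rw [Real.norm_of_nonneg (Real.rpow_nonneg h2 _),
    Real.norm_of_nonneg (Real.rpow_nonneg hx0.le _)] at hx
  have h3 : x ^ (1 - a0 / 4) = x ^ (1 - a0 / 2) * x ^ (a0 / 4) := by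
    rw [← Real.rpow_add hx0]
    congr 1
    ring
  rw [Real.mul_rpow (by norm_num) h2, h3]
  have h4 : 0 < x ^ (1 - a0 / 2) := Real.rpow_pos_of_pos hx0 _
  have h5 : 0 < (4 : ℝ) ^ s * c * (K + 1) := by positivity
  have h6 : (4 : ℝ) ^ s * c * (K + 1) * Real.log x ^ s ≤ δ * x ^ (a0 / 4) := by
    calc (4 : ℝ) ^ s * c * (K + 1) * Real.log x ^ s ≤
        (4 : ℝ) ^ s * c * (K + 1) * (δ / ((4 : ℝ) ^ s * c * (K + 1)) * x ^ (a0 / 4)) :=
          mul_le_mul_of_nonneg_left hx h5.le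
      _ = δ * x ^ (a0 / 4) := by
        field_simp
  have h7 : (4 : ℝ) ^ s * c * K * Real.log x ^ s ≤ (4 : ℝ) ^ s * c * (K + 1) * Real.log x ^ s := by
    apply mul_le_mul_of_nonneg_right _ (Real.rpow_nonneg h2 _)
    apply mul_le_mul_of_nonneg_left _ (by positivity)
    linarith
  calc (4 : ℝ) ^ s * Real.log x ^ s * c * (K * x ^ (1 - a0 / 2)) =
      (4 : ℝ) ^ s * c * K * Real.log x ^ s * x ^ (1 - a0 / 2) := by ring
    _ ≤ δ * x ^ (a0 / 4) * x ^ (1 - a0 / 2) :=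
      mul_le_mul_of_nonneg_right (h7.trans h6) h4.le
    _ = δ * (x ^ (1 - a0 / 2) * x ^ (a0 / 4)) := by ring

open Classical in
private theorem sqb_key {ι : Type} [Fintype ι] (x a : ℝ) (L : ℕ) (h : ι → ℕ) (W b : ℕ)
    (A : ι → Fin L → ℕ) (Φ Φ' : ℕ → ℝ) (Bd : ℕ → Prop) [DecidablePred Bd] (c M Bm : ℝ)
    (hc : ∀ N ∈ Tx x, ¬ Bd N → Φ N = Φ' N) (hc' : ∀ N ∈ Tx x, |Φ N - Φ' N| ≤ c)
    (hsm : ∀ N ∈ Tx x, |sm x a L h A N| ≤ M) (hmass : ∑ N ∈ (Tx x).filter Bd, gw x N ≤ Bm)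
    (hnm : 0 < nm x a W (Fintype.card ι)) (hM : 0 ≤ M) (hc0 : 0 ≤ c) :
    |Av x a h W b (fun N => sm x a L h A N * Φ N) -
      Av x a h W b (fun N => sm x a L h A N * Φ' N)| ≤
      M * c * Bm / nm x a W (Fintype.card ι) := by
  unfold Av
  rw [← sub_div, abs_div, abs_of_pos hnm]
  apply div_le_div_of_nonneg_right _ hnm.le
  rw [← sum_sub_distrib]
  refine (abs_sum_le_sum_abs _ _).trans ?_
  have h1 : ∀ N ∈ (Tx x).filter (fun N => Adm x a h W b N),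
      |gw x N * (sm x a L h A N * Φ N) - gw x N * (sm x a L h A N * Φ' N)| ≤
        M * c * (if Bd N then gw x N else 0) := by
    intro N hN
    have hT := (mem_filter.1 hN).1
    have h2 : gw x N * (sm x a L h A N * Φ N) - gw x N * (sm x a L h A N * Φ' N) =
        gw x N * sm x a L h A N * (Φ N - Φ' N) := by ring
    rw [h2]
    split_ifs with hB
    · rw [abs_mul, abs_mul, abs_of_pos (gw_pos x N)]
      have h3 := mul_le_mul (hsm N hT) (hc' N hT) (abs_nonneg _) hM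
      have h4 := mul_le_mul_of_nonneg_left h3 (gw_pos x N).le
      linarith
    · rw [hc N hT hB, sub_self, mul_zero, abs_zero, mul_zero]
  refine (sum_le_sum h1).trans ?_
  rw [← mul_sum]
  apply mul_le_mul_of_nonneg_left _ (by positivity)
  refine le_trans ?_ hmass
  have h6 : ∑ N ∈ (Tx x).filter Bd, gw x N = ∑ N ∈ Tx x, if Bd N then gw x N else 0 :=
    sum_filter _ _
  rw [h6]
  have h5 : ∀ N ∈ Tx x, N ∉ (Tx x).filter (fun N => Adm x a h W b N) →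
      (0 : ℝ) ≤ (if Bd N then gw x N else 0) := by
    intro N _ _
    split_ifs
    · exact (gw_pos x N).le
    · exact le_refl 0
  exact sum_le_sum_of_subset_of_nonneg (filter_subset _ _) h5

open Classical in
theorem sq_law (η Θ a0 C : ℝ) (hη : 0 < η) (hΘ : 0 < Θ) (ha0 : 0 < a0) (ha1 : a0 ≤ 1 / 20)
    (F : ℝ → ℕ → ℝ) (EF : ℝ → ℝ) (hF : PairLaw η (Θ + 1) a0 F EF)
    (hbd : ∀ᶠ x : ℝ in atTop, ∀ n : ℕ, 0 < n → (n : ℝ) ≤ x ^ (1 + 1 / 1000 : ℝ) → |F x n| ≤ C) :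
    PairLaw η Θ a0 (fun x n => if Sqb x a0 n then 0 else F x n) EF := by
  obtain ⟨c0, hc0, hLaw⟩ := hF
  refine ⟨c0, hc0, ?_⟩
  intro ι _ _ _ a L ha haL hKa h hinj
  obtain ⟨w0, hw0⟩ := hLaw ι a L ha haL hKa h hinj
  refine ⟨max w0 (2 * Fintype.card ι), fun w hw b hb => ?_⟩
  have hw1 : w0 ≤ w := (le_max_left _ _).trans hw
  have hw2 : 2 * Fintype.card ι ≤ w := (le_max_right _ _).trans hw
  have ha1' : a ≤ 1 := by
    have h1 : (1 : ℝ) ≤ 2 ^ L := one_le_pow₀ (by norm_num)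
    nlinarith
  set K : ℝ := (Fintype.card ι : ℝ) with hKdef
  have hK0 : 0 ≤ K := Nat.cast_nonneg _
  set C' : ℝ := max C 1 with hC'
  have hC1 : 1 ≤ C' := le_max_right _ _
  have hC2 : C ≤ C' := le_max_left _ _
  set δ : ℝ := Real.exp (-(Θ / a)) - Real.exp (-((Θ + 1) / a)) with hδ
  have hδ0 : 0 < δ := by
    have h1 : Real.exp (-((Θ + 1) / a)) < Real.exp (-(Θ / a)) := by
      apply Real.exp_lt_exp.2
      apply neg_lt_neg
      exact div_lt_div_of_pos_right (by linarith) ha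
    linarith
  have hmass : ∀ᶠ x : ℝ in atTop, ∀ j : ι, ∀ S ⊆ Tx x, (∀ N ∈ S, Sqb x a0 (N + h j)) →
      ∑ N ∈ S, gw x N ≤ x ^ (1 - a0 / 2) :=
    eventually_all.2 fun j => sq_mass a0 ha0 ha1 (h j)
  have hrange : ∀ᶠ x : ℝ in atTop, ∀ j : ι, x ^ (1 + 1 / 2000 : ℝ) + h j ≤
      x ^ (1 + 1 / 1000 : ℝ) := eventually_all.2 fun j => sqb_range (h j)
  have hsmall : ∀ᶠ x : ℝ in atTop,
      (4 * Real.log x) ^ (η / a) * (2 * C' ^ 2) * (K * x ^ (1 - a0 / 2)) ≤ δ * x ^ (1 - a0 / 4) :=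
    sqb_small (η / a) (2 * C' ^ 2) K δ a0 ha0 (by positivity) hK0 hδ0
  filter_upwards [hw0 w hw1 b hb, hbd, hmass, hrange, hsmall, sm_bound a η ha L h,
    Pool.Agent.H95.L1.nm_ge (Fintype.card ι) w hw2 a (a0 / 4) ha ha1' (by linarith),
    eventually_ge_atTop (1 : ℝ)] with x hP hbx hmx hrx hsx hsm hnm hx1
  intro haL0
  obtain ⟨hP1, hP2⟩ := hP haL0
  have hx0 : 0 < x := by linarith
  have hnm0 : 0 < nm x a (primorial w) (Fintype.card ι) :=
    lt_of_lt_of_le (Real.rpow_pos_of_pos hx0 _) hnm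
  have hlog0 : 0 ≤ Real.log x := Real.log_nonneg hx1
  have hbad : ∑ N ∈ (Tx x).filter (fun N => ∃ j, Sqb x a0 (N + h j)), gw x N ≤
      K * x ^ (1 - a0 / 2) := by
    have h1 : ∑ N ∈ (Tx x).filter (fun N => ∃ j, Sqb x a0 (N + h j)), gw x N ≤
        ∑ N ∈ Tx x, ∑ j : ι, (if Sqb x a0 (N + h j) then gw x N else 0) := by
      rw [sum_filter]
      refine sum_le_sum fun N _ => ?_
      split_ifs with hN
      · obtain ⟨j, hj⟩ := hN
        have h2 : (if Sqb x a0 (N + h j) then gw x N else 0) ≤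
            ∑ j : ι, (if Sqb x a0 (N + h j) then gw x N else 0) :=
          single_le_sum (f := fun j : ι => if Sqb x a0 (N + h j) then gw x N else 0)
            (fun i _ => by
              split_ifs
              · exact (gw_pos x N).le
              · exact le_refl 0) (mem_univ j)
        rwa [if_pos hj] at h2
      · refine sum_nonneg fun i _ => ?_
        split_ifs
        · exact (gw_pos x N).le
        · exact le_refl 0
    refine h1.trans ?_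
    rw [sum_comm]
    have h3 : ∀ j : ι, ∑ N ∈ Tx x, (if Sqb x a0 (N + h j) then gw x N else 0) ≤
        x ^ (1 - a0 / 2) := by
      intro j
      rw [← sum_filter]
      exact hmx j _ (filter_subset _ _) fun N hN => (mem_filter.1 hN).2
    refine (sum_le_sum fun j _ => h3 j).trans ?_
    rw [sum_const, card_univ, nsmul_eq_mul]
  -- the bound of F on the window
  have hFb : ∀ N ∈ Tx x, ∀ j : ι, |F x (N + h j)| ≤ C' := by
    intro N hN j
    obtain ⟨hN1, hN2⟩ := mem_Ioc.1 hN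
    have h1 : 0 < N + h j := by omega
    have h2 : ((N + h j : ℕ) : ℝ) ≤ x ^ (1 + 1 / 1000 : ℝ) := by
      push_cast
      have h3 : (N : ℝ) ≤ x ^ (1 + 1 / 2000 : ℝ) :=
        (Nat.le_floor_iff (Real.rpow_nonneg hx0.le _)).1 hN2
      have h4 := hrx j
      linarith
    exact (hbx _ h1 h2).trans hC2
  have hfin : ∀ A : ι → Fin L → ℕ, sl a L A ≤ η → ∀ Φ Φ' : ℕ → ℝ,
      (∀ N ∈ Tx x, ¬ (∃ j, Sqb x a0 (N + h j)) → Φ N = Φ' N) →
      (∀ N ∈ Tx x, |Φ N - Φ' N| ≤ 2 * C' ^ 2) → ∀ E : ℝ,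
      |Av x a h (primorial w) b (fun N => sm x a L h A N * Φ N) - E| ≤
        Real.exp (-((Θ + 1) / a)) →
      |Av x a h (primorial w) b (fun N => sm x a L h A N * Φ' N) - E| ≤
        Real.exp (-(Θ / a)) := by
    intro A hA Φ Φ' h1 h2 E h3
    have h4 := sqb_key x a L h (primorial w) b A Φ Φ' (fun N => ∃ j, Sqb x a0 (N + h j))
      (2 * C' ^ 2) ((4 * Real.log x) ^ (η / a)) (K * x ^ (1 - a0 / 2)) h1 h2 (hsm A hA) hbad
      hnm0 (Real.rpow_nonneg (by positivity) _) (by positivity)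
    have h5 : (4 * Real.log x) ^ (η / a) * (2 * C' ^ 2) * (K * x ^ (1 - a0 / 2)) /
        nm x a (primorial w) (Fintype.card ι) ≤ δ := by
      rw [div_le_iff₀ hnm0]
      exact hsx.trans (mul_le_mul_of_nonneg_left hnm hδ0.le)
    have h6 := abs_sub_comm (Av x a h (primorial w) b (fun N => sm x a L h A N * Φ N))
      (Av x a h (primorial w) b (fun N => sm x a L h A N * Φ' N))
    have h7 := abs_add_le (Av x a h (primorial w) b (fun N => sm x a L h A N * Φ' N) -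
      Av x a h (primorial w) b (fun N => sm x a L h A N * Φ N))
      (Av x a h (primorial w) b (fun N => sm x a L h A N * Φ N) - E)
    rw [sub_add_sub_cancel] at h7
    linarith
  have hC0 : 0 ≤ C' := by linarith
  refine ⟨fun j A hA => ?_, fun j j' hjj A hA => ?_⟩
  · refine hfin A hA _ _ (fun N _ hN => ?_) (fun N hN => ?_) _ (hP1 j A hA)
    · have h1 : ¬ Sqb x a0 (N + h j) := fun h => hN ⟨j, h⟩
      simp only [h1, if_false]
    · have h1 := hFb N hN j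
      have h2 : C' ≤ 2 * C' ^ 2 := by nlinarith
      split_ifs
      · rw [sub_zero]
        linarith
      · rw [sub_self, abs_zero]
        positivity
  · refine hfin A hA _ _ (fun N _ hN => ?_) (fun N hN => ?_) _ (hP2 j j' hjj A hA)
    · have h1 : ¬ Sqb x a0 (N + h j) := fun h => hN ⟨j, h⟩
      have h2 : ¬ Sqb x a0 (N + h j') := fun h => hN ⟨j', h⟩
      simp only [h1, h2, if_false]
    · have h1 := hFb N hN j
      have h2 := hFb N hN j'
      have h3 : |F x (N + h j) * F x (N + h j')| ≤ C' * C' := by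
        rw [abs_mul]
        exact mul_le_mul h1 h2 (abs_nonneg _) hC0
      have h4 : (0 : ℝ) ≤ C' * C' := by positivity
      split_ifs
      · rw [zero_mul, sub_zero]
        linarith
      · rw [zero_mul, sub_zero]
        linarith
      · rw [mul_zero, sub_zero]
        linarith
      · rw [sub_self, abs_zero]
        positivity

end Pool.Agent.H92.MM
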