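import Pool.Agent.H92.MM.Ub

/-!
# [H92 MM TH] The orthogonal functions

`u = po (Ub b)`, `q = po (Ub b ^2)`.  `th b y i` is the factor of `η_y` in the range `i`: `Ub b` if `i + 1 < y`, `Ub b - u`
if `i + 1 = y`, `1` if `i + 1 > y` (`y = 0, .., l`; ranges `i = 0, .., L - 1`).  `nn b y = E η_y^2`, `vv b y = η_y(0)`.

Proof.  `b` even throughout.  `uu_bd`, `qq_bd`: `po_tail` with `f = Ub b` (`0 ≤ Ub ≤ 2^t ≤ 8^t`, zero for `1 ≤ t ≤ b`) and
`f = (Ub b)^2 ≤ 4^t`; lower bound `1/2`: keep only the term `m = 0` of the series (all terms are `≥ 0`).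
`th_abs`: `0 ≤ Ub b t ≤ 2^t`, `0 ≤ u ≤ 1`, so `|Ub - u| ≤ max (Ub) (u) ≤ 2^t`.
`th_orth`: let `y < y'`; then `y' ≥ 1`, the range `i = y' - 1 < L` has `th b y' i = Ub b - u`, `th b y i = 1` (`i + 1 = y' > y`),
and `po (Ub b - u) = u - u = 0`.  `th_norm`: the factor is `q` for `i + 1 < y`, `po ((Ub-u)^2) = q - 2u^2 + u^2 = q - u^2` for `i + 1 = y`,
`1` for `i + 1 > y`; there are `y - 1`, `1`, `L - y` of these.
-/

namespace Pool.Agent.H92.MM

open Finset

noncomputable def uu (b : ℕ) : ℝ := po (Ub b)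

noncomputable def qq (b : ℕ) : ℝ := po (fun t => Ub b t ^ 2)

/-- the factor of `η_y` in range `i` -/
noncomputable def th (b y i t : ℕ) : ℝ :=
  if i + 1 < y then Ub b t else if i + 1 = y then Ub b t - uu b else 1

noncomputable def nn (b y : ℕ) : ℝ := if y = 0 then 1 else qq b ^ (y - 1) * (qq b - uu b ^ 2)

noncomputable def vv (b y : ℕ) : ℝ := if y = 0 then 1 else 1 - uu b

private theorem ub_bd {b : ℕ} (hb : Even b) (m : ℕ) : |Ub b m| ≤ 1 * 8 ^ m := by
  rw [abs_of_nonneg (ub_nonneg hb m), one_mul]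
  exact (ub_le hb m).trans (pow_le_pow_left₀ (by norm_num) (by norm_num) m)

private theorem ub_sq_bd {b : ℕ} (hb : Even b) (m : ℕ) : |Ub b m ^ 2| ≤ 1 * 8 ^ m := by
  rw [abs_of_nonneg (by positivity), one_mul]
  calc Ub b m ^ 2 ≤ (2 ^ m) ^ 2 := pow_le_pow_left₀ (ub_nonneg hb m) (ub_le hb m) 2
    _ = 4 ^ m := by rw [← pow_mul, mul_comm m 2, pow_mul]; norm_num
    _ ≤ 8 ^ m := pow_le_pow_left₀ (by norm_num) (by norm_num) m

private theorem const_bd (c : ℝ) (m : ℕ) : |c| ≤ |c| * 8 ^ m :=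
  le_mul_of_one_le_right (abs_nonneg c) (one_le_pow₀ (by norm_num))

private theorem po_ge {f : ℕ → ℝ} {C : ℝ} (hf : ∀ m, |f m| ≤ C * 8 ^ m) (h0 : ∀ m, 0 ≤ f m) :
    f 0 / 2 ≤ po f := by
  have h1 := (po_summable hf).le_tsum 0 (fun m _ => mul_nonneg (pw_nonneg m) (h0 m))
  have h2 : pw 0 * f 0 = f 0 / 2 := by
    simp only [pw, pow_zero, Nat.factorial_zero, Nat.cast_one]
    ring
  rw [h2] at h1
  exact h1

private theorem po_sq {b : ℕ} (hb : Even b) :
    po (fun t => (Ub b t - uu b) * (Ub b t - uu b)) = qq b - uu b ^ 2 := by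
  have h1 : (fun t => (Ub b t - uu b) * (Ub b t - uu b)) =
      fun t => Ub b t ^ 2 - (2 * uu b * Ub b t - uu b ^ 2) := by
    funext t
    ring
  have hb1 : ∀ m, |2 * uu b * Ub b m| ≤ |2 * uu b| * 8 ^ m := by
    intro m
    rw [abs_mul]
    have := ub_bd hb m
    rw [one_mul] at this
    exact mul_le_mul_of_nonneg_left this (abs_nonneg _)
  have hb2 : ∀ m, |2 * uu b * Ub b m - uu b ^ 2| ≤ (|2 * uu b| + |uu b ^ 2|) * 8 ^ m := by
    intro m
    rw [add_mul]
    exact (abs_sub _ _).trans (add_le_add (hb1 m) (const_bd _ m))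
  rw [h1, po_sub (fun m => ub_sq_bd hb m) hb2, po_sub hb1 (const_bd (uu b ^ 2)),
    po_smul (2 * uu b) (Ub b), po_const]
  change qq b - (2 * uu b * uu b - uu b ^ 2) = _
  ring

theorem uu_bd {b : ℕ} (hb : Even b) : 1 / 2 ≤ uu b ∧ uu b ≤ 1 / 2 + tl b := by
  have h1 : ∀ m, |Ub b m| ≤ 8 ^ m := fun m => by
    have := ub_bd hb m
    rwa [one_mul] at this
  have h2 := po_tail b h1 (fun m hm1 hm2 => ub_van b m hm1 hm2)
  rw [ub_zero] at h2
  have h3 := po_ge (ub_bd hb) (ub_nonneg hb)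
  rw [ub_zero] at h3
  refine ⟨h3, ?_⟩
  have h4 := (abs_le.1 h2).2
  change po (Ub b) ≤ _
  linarith

theorem qq_bd {b : ℕ} (hb : Even b) : 1 / 2 ≤ qq b ∧ qq b ≤ 1 / 2 + tl b := by
  have h1 : ∀ m, |Ub b m ^ 2| ≤ 8 ^ m := fun m => by
    have := ub_sq_bd hb m
    rwa [one_mul] at this
  have h2 := po_tail (f := fun t => Ub b t ^ 2) b h1
    (fun m hm1 hm2 => by rw [ub_van b m hm1 hm2]; norm_num)
  rw [ub_zero] at h2
  have h3 := po_ge (f := fun t => Ub b t ^ 2) (ub_sq_bd hb) (fun m => by positivity)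
  rw [ub_zero] at h3
  refine ⟨by linarith [show (1 : ℝ) ^ 2 / 2 ≤ qq b from h3], ?_⟩
  have h4 := (abs_le.1 h2).2
  change po (fun t => Ub b t ^ 2) ≤ _
  linarith

theorem th_abs {b : ℕ} (hb : Even b) (ht : tl b ≤ 1 / 100) (y i t : ℕ) :
    |th b y i t| ≤ 2 ^ t := by
  obtain ⟨h1, h2⟩ := uu_bd hb
  have h3 := ub_nonneg hb t
  have h4 := ub_le hb t
  have h5 : (1 : ℝ) ≤ 2 ^ t := one_le_pow₀ (by norm_num)
  unfold th
  split_ifs
  · rw [abs_of_nonneg h3]
    exact h4
  · rw [abs_le]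
    constructor <;> linarith
  · rw [abs_one]
    exact h5

theorem th_dg (b y i : ℕ) : Dg (if i < y then b else 0) (th b y i) := by
  unfold th
  by_cases h1 : i + 1 < y
  · rw [if_pos (by omega)]
    simp only [if_pos h1]
    exact dg_ub b
  · by_cases h2 : i + 1 = y
    · rw [if_pos (by omega)]
      simp only [if_neg h1, if_pos h2]
      exact dg_sub (dg_ub b) (dg_const b _)
    · rw [if_neg (by omega)]
      simp only [if_neg h1, if_neg h2]
      exact dg_const 0 1

theorem th_zero (b y i : ℕ) : th b y i 0 = if i + 1 = y then 1 - uu b else 1 := by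
  unfold th
  rw [ub_zero]
  by_cases h1 : i + 1 < y
  · rw [if_pos h1, if_neg (by omega)]
  · rw [if_neg h1]

theorem th_zero_prod {L : ℕ} (b y : ℕ) (hy : y ≤ L) : ∏ i : Fin L, th b y i 0 = vv b y := by
  simp only [th_zero]
  unfold vv
  by_cases h0 : y = 0
  · subst h0
    rw [if_pos rfl]
    refine prod_eq_one fun i _ => ?_
    rw [if_neg (by omega)]
  · rw [if_neg h0, prod_eq_single (⟨y - 1, by omega⟩ : Fin L)]
    · rw [if_pos]
      change y - 1 + 1 = y
      omega
    · intro i _ hi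
      rw [if_neg]
      intro h
      apply hi
      ext
      change (i : ℕ) = y - 1
      omega
    · intro h
      exact absurd (mem_univ _) h

theorem th_orth {L : ℕ} {b : ℕ} (hb : Even b) (ht : tl b ≤ 1 / 100) {y y' : ℕ} (hy : y ≤ L)
    (hy' : y' ≤ L) (hne : y ≠ y') :
    ∏ i : Fin L, po (fun t => th b y i t * th b y' i t) = 0 := by
  have key : ∀ y y' : ℕ, y < y' → y' ≤ L →
      ∏ i : Fin L, po (fun t => th b y i t * th b y' i t) = 0 := by
    intro y y' hyy hL
    refine prod_eq_zero (mem_univ (⟨y' - 1, by omega⟩ : Fin L)) ?_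
    have h1 : (fun t => th b y ((⟨y' - 1, by omega⟩ : Fin L) : ℕ) t *
        th b y' ((⟨y' - 1, by omega⟩ : Fin L) : ℕ) t) = fun t => Ub b t - uu b := by
      funext t
      change th b y (y' - 1) t * th b y' (y' - 1) t = _
      unfold th
      rw [if_neg (by omega : ¬ y' - 1 + 1 < y), if_neg (by omega : ¬ y' - 1 + 1 = y),
        if_neg (by omega : ¬ y' - 1 + 1 < y'), if_pos (by omega : y' - 1 + 1 = y'), one_mul]
    rw [h1, po_sub (ub_bd hb) (const_bd (uu b)), po_const]
    change uu b - uu b = 0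
    rw [sub_self]
  rcases lt_or_gt_of_ne hne with h | h
  · exact key y y' h hy'
  · rw [← key y' y h hy]
    refine prod_congr rfl fun i _ => ?_
    congr 1
    funext t
    rw [mul_comm]

theorem th_norm {L : ℕ} {b : ℕ} (hb : Even b) (ht : tl b ≤ 1 / 100) {y : ℕ} (hy : y ≤ L) :
    ∏ i : Fin L, po (fun t => th b y i t * th b y i t) = nn b y := by
  have hf : ∀ i : Fin L, po (fun t => th b y i t * th b y i t) =
      (fun i : ℕ => if i + 1 < y then qq b else if i + 1 = y then qq b - uu b ^ 2 else 1) i := by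
    intro i
    change _ = if (i : ℕ) + 1 < y then qq b else if (i : ℕ) + 1 = y then qq b - uu b ^ 2 else 1
    unfold th
    by_cases h1 : (i : ℕ) + 1 < y
    · simp only [if_pos h1]
      unfold qq
      congr 1
      funext t
      rw [sq]
    · by_cases h2 : (i : ℕ) + 1 = y
      · simp only [if_neg h1, if_pos h2]
        exact po_sq hb
      · simp only [if_neg h1, if_neg h2]
        rw [mul_one]
        exact po_const 1
  rw [prod_congr rfl fun i _ => hf i]
  rw [Fin.prod_univ_eq_prod_range (fun i : ℕ => if i + 1 < y then qq b else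
    if i + 1 = y then qq b - uu b ^ 2 else 1) L]
  unfold nn
  by_cases h0 : y = 0
  · subst h0
    rw [if_pos rfl]
    refine prod_eq_one fun i _ => ?_
    rw [if_neg (by omega), if_neg (by omega)]
  · rw [if_neg h0]
    obtain ⟨y0, rfl⟩ : ∃ y0, y = y0 + 1 := ⟨y - 1, by omega⟩
    rw [Nat.add_sub_cancel]
    clear hf
    induction L, hy using Nat.le_induction with
    | base =>
      rw [prod_range_succ, if_neg (by omega), if_pos rfl]
      congr 1
      rw [prod_congr rfl (g := fun _ => qq b), prod_const, card_range]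
      intro i hi
      rw [mem_range] at hi
      rw [if_pos (by omega)]
    | succ L hL ih =>
      rw [prod_range_succ, ih, if_neg (by omega), if_neg (by omega), mul_one]

end Pool.Agent.H92.MM
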