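import Pool.Agent.H92.MM.Po

/-!
# [H92 MM UB] Polynomials in one variable and truncated inclusion-exclusion

`Dg D f`: `f` is a polynomial function of degree `≤ D` on `ℕ`.  `Ub b m = ∑_{i ≤ b} (-1)^i C(m,i)`.

Proof.  `ub_zero`: only `i = 0` counts.  `ub_succ`: `∑_{i ≤ b} (-1)^i C(m+1,i) = (-1)^b C(m,b)` (induction on `b`, Pascal;
Mathlib: `Int.alternating_sum_range_choose..`).  For even `b` it is `C(m,b) ≥ 0`, `= 0` for `m < b`, `≤ 2^m`
(`Nat.choose_le_two_pow`).  `dg_choose`: `(m.choose k : ℝ) = (descPochhammer ℝ k).eval m / k!`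
(`descPochhammer_eval_eq_descFactorial`, `Nat.descFactorial_eq_factorial_mul_choose`, natDegree `k`:
`descPochhammer_natDegree`).  `dg_mul`: `Polynomial.natDegree_mul_le`.
`dg_expand` (Newton): `c k = ∑_{i ≤ k} (-1)^(k-i) C(k,i) f(i)` = `k`-th forward difference at `0`
(`fwdDiff_iter_eq_sum_shift`, `shift_eq_sum_fwdDiff_iter`, and the differences of order `> D` of a polynomial of degree `≤ D`
vanish: `Polynomial.fwdDiff_iter_eq_zero_of_degree_lt` or similar; alternative: the binomial polynomials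
`C(X,k)`, `k ≤ D`, span the polynomials of degree `≤ D` (induction on `D`, subtract the leading term), then evaluate at
`0, .., D` and invert).  `|c k| ≤ 2^k 8^D`, so `∑_{k ≤ D} |c k| ≤ 2^(D+1) 8^D = 2^(4D+1)`.
`dg_po`: with these `c`: `po f = ∑ c k λ^k/k!` (`po_sum`, `po_smul`, `po_choose`, `C(m,k) ≤ 2^m ≤ 8^m`).
-/

namespace Pool.Agent.H92.MM

open Finset

/-- polynomial function of degree `≤ D` -/
def Dg (D : ℕ) (f : ℕ → ℝ) : Prop :=
  ∃ q : Polynomial ℝ, q.natDegree ≤ D ∧ ∀ m : ℕ, f m = q.eval (m : ℝ)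

/-- truncated inclusion-exclusion -/
noncomputable def Ub (b m : ℕ) : ℝ := ∑ i ∈ range (b + 1), (-1) ^ i * (m.choose i : ℝ)

theorem dg_const (D : ℕ) (c : ℝ) : Dg D (fun _ => c) := by
  refine ⟨Polynomial.C c, ?_, fun m => ?_⟩
  · rw [Polynomial.natDegree_C]; exact Nat.zero_le D
  · rw [Polynomial.eval_C]

theorem dg_mono {D D' : ℕ} {f : ℕ → ℝ} (h : Dg D f) (hD : D ≤ D') : Dg D' f := by
  obtain ⟨q, hq, hf⟩ := h
  exact ⟨q, hq.trans hD, hf⟩

theorem dg_sub {D : ℕ} {f g : ℕ → ℝ} (hf : Dg D f) (hg : Dg D g) :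
    Dg D (fun m => f m - g m) := by
  obtain ⟨p, hp, hf⟩ := hf
  obtain ⟨q, hq, hg⟩ := hg
  refine ⟨p - q, ?_, fun m => ?_⟩
  · exact (Polynomial.natDegree_sub_le p q).trans (max_le hp hq)
  · rw [Polynomial.eval_sub, ← hf m, ← hg m]

theorem dg_mul {D D' : ℕ} {f g : ℕ → ℝ} (hf : Dg D f) (hg : Dg D' g) :
    Dg (D + D') (fun m => f m * g m) := by
  obtain ⟨p, hp, hf⟩ := hf
  obtain ⟨q, hq, hg⟩ := hg
  refine ⟨p * q, ?_, fun m => ?_⟩
  · exact Polynomial.natDegree_mul_le.trans (add_le_add hp hq)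
  · rw [Polynomial.eval_mul, ← hf m, ← hg m]

theorem dg_choose (k : ℕ) : Dg k (fun m => (m.choose k : ℝ)) := by
  refine ⟨Polynomial.C (1 / (k.factorial : ℝ)) * descPochhammer ℝ k, ?_, fun m => ?_⟩
  · refine (Polynomial.natDegree_C_mul_le _ _).trans ?_
    rw [descPochhammer_natDegree]
  · show ((m.choose k : ℕ) : ℝ) = _
    rw [Polynomial.eval_mul, Polynomial.eval_C, Nat.cast_choose_eq_descPochhammer_div]
    ring

private theorem dg_sum {ι : Type} (s : Finset ι) {D : ℕ} (f : ι → ℕ → ℝ) (c : ι → ℝ)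
    (h : ∀ i ∈ s, Dg D (f i)) : Dg D (fun m => ∑ i ∈ s, c i * f i m) := by
  classical
  induction s using Finset.induction_on with
  | empty =>
    simpa using dg_const D 0
  | insert a s ha ih =>
    obtain ⟨p, hp, hf⟩ := h a (Finset.mem_insert_self a s)
    obtain ⟨q, hq, hg⟩ := ih (fun i hi => h i (Finset.mem_insert_of_mem hi))
    refine ⟨Polynomial.C (c a) * p + q, ?_, fun m => ?_⟩
    · refine (Polynomial.natDegree_add_le _ _).trans (max_le ?_ hq)
      exact (Polynomial.natDegree_C_mul_le _ _).trans hp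
    · show ∑ i ∈ insert a s, c i * f i m = _
      rw [Finset.sum_insert ha, Polynomial.eval_add, Polynomial.eval_mul, Polynomial.eval_C,
        ← hf m, ← hg m]

theorem dg_ub (b : ℕ) : Dg b (Ub b) := by
  have h := dg_sum (range (b + 1)) (D := b) (fun i m => (m.choose i : ℝ)) (fun i => (-1) ^ i)
    (fun i hi => dg_mono (dg_choose i) (by have := Finset.mem_range.1 hi; omega))
  exact h

theorem ub_zero (b : ℕ) : Ub b 0 = 1 := by
  unfold Ub
  rw [Finset.sum_range_succ']
  simp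

theorem ub_succ (b m : ℕ) : Ub b (m + 1) = (-1) ^ b * (m.choose b : ℝ) := by
  unfold Ub
  have h := Int.alternating_sum_range_choose_eq_choose (n := m) (m := b)
  have h2 := congrArg (fun z : ℤ => (z : ℝ)) h
  push_cast at h2
  exact h2

theorem ub_nonneg {b : ℕ} (hb : Even b) (m : ℕ) : 0 ≤ Ub b m := by
  rcases m with _ | m
  · rw [ub_zero]; exact zero_le_one
  · rw [ub_succ, hb.neg_one_pow, one_mul]; exact Nat.cast_nonneg _

theorem ub_le {b : ℕ} (hb : Even b) (m : ℕ) : Ub b m ≤ 2 ^ m := by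
  rcases m with _ | m
  · rw [ub_zero, pow_zero]
  · rw [ub_succ, hb.neg_one_pow, one_mul]
    have h1 : ((m.choose b : ℕ) : ℝ) ≤ 2 ^ m := by exact_mod_cast Nat.choose_le_two_pow m b
    have h2 : (2 : ℝ) ^ m ≤ 2 ^ (m + 1) := pow_le_pow_right₀ (by norm_num) (Nat.le_succ m)
    exact h1.trans h2

theorem ub_van (b m : ℕ) (h1 : 1 ≤ m) (h2 : m ≤ b) : Ub b m = 0 := by
  obtain ⟨m, rfl⟩ := Nat.exists_eq_add_of_le' h1
  rw [ub_succ, Nat.choose_eq_zero_of_lt (by omega)]
  simp

theorem dg_expand {D : ℕ} {f : ℕ → ℝ} (h : Dg D f) (hf : ∀ m, |f m| ≤ 8 ^ m) :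
    ∃ c : ℕ → ℝ, (∀ m, f m = ∑ k ∈ range (D + 1), c k * (m.choose k : ℝ)) ∧
      ∑ k ∈ range (D + 1), |c k| ≤ 2 ^ (4 * D + 1) ∧
      po f = ∑ k ∈ range (D + 1), c k * (Real.log 2 ^ k / (k.factorial : ℝ)) := by
  obtain ⟨q, hq, hfq⟩ := h
  set c : ℕ → ℝ := fun k => (fwdDiff (1 : ℝ))^[k] q.eval 0 with hc
  have hc0 : ∀ k, D < k → c k = 0 := by
    intro k hk
    have := Polynomial.fwdDiff_iter_eq_zero_of_degree_lt (P := q) (n := k) (lt_of_le_of_lt hq hk)
    simp only [hc]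
    rw [this]; rfl
  have hexp : ∀ m, f m = ∑ k ∈ range (D + 1), c k * (m.choose k : ℝ) := by
    intro m
    have h1 := shift_eq_sum_fwdDiff_iter (1 : ℝ) q.eval m 0
    rw [zero_add, nsmul_one] at h1
    rw [hfq m, h1]
    have h2 : ∀ N : ℕ, m ≤ N → ∑ k ∈ range (m + 1), m.choose k • (fwdDiff (1 : ℝ))^[k] q.eval 0
        = ∑ k ∈ range (N + 1), c k * (m.choose k : ℝ) := by
      intro N hN
      rw [← Finset.sum_subset (Finset.range_subset_range.2 (Nat.succ_le_succ hN))]
      · refine Finset.sum_congr rfl fun k _ => ?_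
        rw [nsmul_eq_mul, mul_comm]
      · intro k _ hk
        rw [Finset.mem_range, not_lt] at hk
        rw [Nat.choose_eq_zero_of_lt (by omega)]; simp
    have h3 : ∀ N : ℕ, D ≤ N → ∑ k ∈ range (D + 1), c k * (m.choose k : ℝ)
        = ∑ k ∈ range (N + 1), c k * (m.choose k : ℝ) := by
      intro N hN
      refine Finset.sum_subset (Finset.range_subset_range.2 (Nat.succ_le_succ hN)) ?_
      intro k _ hk
      rw [Finset.mem_range, not_lt] at hk
      rw [hc0 k (by omega), zero_mul]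
    rw [h2 (max m D) (le_max_left _ _), h3 (max m D) (le_max_right _ _)]
  have hbd : ∀ k ∈ range (D + 1), |c k| ≤ 9 ^ k := by
    intro k _
    have h1 : c k = ∑ j ∈ range (k + 1), ((-1 : ℤ) ^ (k - j) * k.choose j) • f j := by
      simp only [hc]
      rw [fwdDiff_iter_eq_sum_shift]
      refine Finset.sum_congr rfl fun j _ => ?_
      rw [zero_add, nsmul_one, hfq j]
    rw [h1]
    refine (Finset.abs_sum_le_sum_abs _ _).trans ?_
    have h2 : ∀ j ∈ range (k + 1), |((-1 : ℤ) ^ (k - j) * k.choose j) • f j|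
        ≤ 8 ^ j * 1 ^ (k - j) * (k.choose j : ℝ) := by
      intro j _
      rw [zsmul_eq_mul, abs_mul]
      push_cast
      rw [abs_mul, abs_pow, abs_neg, abs_one, one_pow, one_mul, mul_one, Nat.abs_cast,
        mul_comm]
      exact mul_le_mul_of_nonneg_right (hf j) (Nat.cast_nonneg _)
    refine (Finset.sum_le_sum h2).trans ?_
    rw [← add_pow]
    norm_num
  refine ⟨c, hexp, ?_, ?_⟩
  · have h1 : ∀ k ∈ range (D + 1), |c k| ≤ 2 ^ k * 8 ^ D := by
      intro k hk
      have hkD : k ≤ D := by have := Finset.mem_range.1 hk; omega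
      refine (hbd k hk).trans ?_
      have h2 : (9 : ℝ) ^ k ≤ (2 * 8) ^ k := pow_le_pow_left₀ (by norm_num) (by norm_num) k
      rw [mul_pow] at h2
      refine h2.trans ?_
      exact mul_le_mul_of_nonneg_left (pow_le_pow_right₀ (by norm_num) hkD) (by positivity)
    refine (Finset.sum_le_sum h1).trans ?_
    rw [← Finset.sum_mul]
    have h3 : ∑ k ∈ range (D + 1), (2 : ℝ) ^ k ≤ 2 ^ (D + 1) := by
      rw [geom_sum_eq (by norm_num)]
      norm_num
    refine (mul_le_mul_of_nonneg_right h3 (by positivity)).trans (le_of_eq ?_)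
    have h4 : (8 : ℝ) = 2 ^ 3 := by norm_num
    rw [h4, ← pow_mul, ← pow_add]
    congr 1
    ring
  · have h1 : po f = po (fun m => ∑ k ∈ range (D + 1), c k * (m.choose k : ℝ)) := by
      congr 1
      funext m
      exact hexp m
    rw [h1]
    have h2 := po_sum (range (D + 1)) (fun k m => c k * (m.choose k : ℝ))
      (∑ k ∈ range (D + 1), |c k|) ?_
    · rw [h2]
      refine Finset.sum_congr rfl fun k _ => ?_
      rw [po_smul, po_choose]
    · intro k hk m
      rw [abs_mul, Nat.abs_cast]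
      have h3 : |c k| ≤ ∑ k ∈ range (D + 1), |c k| :=
        Finset.single_le_sum (f := fun k => |c k|) (fun i _ => abs_nonneg _) hk
      have h4 : ((m.choose k : ℕ) : ℝ) ≤ 8 ^ m := by
        have h5 : ((m.choose k : ℕ) : ℝ) ≤ 2 ^ m := by exact_mod_cast Nat.choose_le_two_pow m k
        exact h5.trans (pow_le_pow_left₀ (by norm_num) (by norm_num) m)
      exact mul_le_mul h3 h4 (Nat.cast_nonneg _) (Finset.sum_nonneg fun i _ => abs_nonneg _)

end Pool.Agent.H92.MM
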